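import Pool.Agent.H94.Deg.Base

set_option linter.unusedSectionVars false

/-!
# The Taylor coefficients of low order span the conormal space of the variety of lines
-/

open MvPolynomial

namespace H94.Deg

open H89.Hart H94.Cubic

variable {ι : Type*} [Fintype ι] [DecidableEq ι]

namespace JetsB

/-- the double annihilator in finite dimension. -/
theorem mem_of_perp (S : Submodule ℂ (ι → ℂ)) (x : ι → ℂ)
    (h : ∀ v : ι → ℂ, (∀ φ ∈ S, φ ⬝ᵥ v = 0) → x ⬝ᵥ v = 0) : x ∈ S := by
  by_contra hx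
  obtain ⟨f, hf, hfS⟩ := Submodule.exists_le_ker_of_notMem hx
  obtain ⟨v, hv⟩ : ∃ v : ι → ℂ, ∀ φ : ι → ℂ, φ ⬝ᵥ v = f φ := by
    refine ⟨fun i => f (Pi.single i 1), fun φ => ?_⟩
    have h1 : φ = ∑ i, φ i • (Pi.single i (1 : ℂ) : ι → ℂ) := by
      funext j
      simp [Finset.sum_apply, Pi.single_apply]
    conv_rhs => rw [h1]
    rw [_root_.map_sum]
    simp only [map_smul, smul_eq_mul, dotProduct]
  apply hf
  rw [← hv]
  exact h v fun φ hφ => by
    rw [hv]
    exact hfS hφ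

variable {I : Ideal (MvPolynomial (Option ι) ℂ)} {r : ℕ}

/-- the linear parts are independent. -/
theorem li_tc_one (hI : Smooth I r) (h0 : pt 1 0 ∈ cone I)
    (F : Fin r → MvPolynomial (Option ι) ℂ) (hF : ∀ i, F i ∈ I)
    (hli : LinearIndependent ℂ (fun i => dif (F i) (pt 1 0))) (z : ι → ℂ) :
    LinearIndependent ℂ (fun i => dif (tc 1 (F i)) z) := by
  rw [Fintype.linearIndependent_iff] at hli ⊢
  intro g hg
  apply hli g
  funext o
  rw [Finset.sum_apply]
  cases o with
  | none =>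
    refine Finset.sum_eq_zero fun i _ => ?_
    rw [Pi.smul_apply, dif_base hI h0 (hF i) z]
    simp [pt]
  | some j =>
    have h1 := congrFun hg j
    rw [Finset.sum_apply] at h1
    rw [Pi.zero_apply] at h1 ⊢
    rw [← h1]
    refine Finset.sum_congr rfl fun i _ => ?_
    rw [Pi.smul_apply, Pi.smul_apply, dif_base hI h0 (hF i) z]
    rfl

/-- the span of the differentials of the Taylor coefficients of order at most `k`. -/
def Sk (F : Fin r → MvPolynomial (Option ι) ℂ) (z : ι → ℂ) (k : ℕ) : Submodule ℂ (ι → ℂ) :=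
  Submodule.span ℂ {v | ∃ (i : Fin r) (k' : ℕ), k' < k ∧ v = dif (tc (k' + 1) (F i)) z}

theorem Sk_mono (F : Fin r → MvPolynomial (Option ι) ℂ) (z : ι → ℂ) : Monotone (Sk F z) := by
  intro k k' hk
  refine Submodule.span_mono ?_
  rintro v ⟨i, m, hm, rfl⟩
  exact ⟨i, m, by omega, rfl⟩

/-- if nothing new appears in order `k + 1`, nothing new appears in order `k + 2`. -/
theorem step (hI : Smooth I r) (h0 : pt 1 0 ∈ cone I)
    (F : Fin r → MvPolynomial (Option ι) ℂ) (hF : ∀ i, F i ∈ I)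
    (hli : LinearIndependent ℂ (fun i => dif (F i) (pt 1 0))) {z : ι → ℂ} (hz : z ∈ cone (J I))
    (hst : StarT I z) (k : ℕ) (h : Sk F z (k + 1) ≤ Sk F z k) :
    Sk F z (k + 2) ≤ Sk F z (k + 1) := by
  have key : ∀ x ∈ Sk F z k, ∃ y ∈ Sk F z (k + 1), ∀ v w : ι → ℂ,
      (∀ G ∈ I, ∀ k, dif (tc (k + 1) G) z ⬝ᵥ v + dif (tc k G) z ⬝ᵥ w = 0) →
      y ⬝ᵥ v + x ⬝ᵥ w = 0 := by
    intro x hx
    refine Submodule.span_induction (p := fun x _ => ∃ y ∈ Sk F z (k + 1), ∀ v w : ι → ℂ,
      (∀ G ∈ I, ∀ k, dif (tc (k + 1) G) z ⬝ᵥ v + dif (tc k G) z ⬝ᵥ w = 0) →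
      y ⬝ᵥ v + x ⬝ᵥ w = 0) ?_ ?_ ?_ ?_ hx
    · rintro x ⟨i', k', hk', rfl⟩
      exact ⟨dif (tc (k' + 1 + 1) (F i')) z,
        Submodule.subset_span ⟨i', k' + 1, by omega, rfl⟩, fun v w hvw => hvw _ (hF i') _⟩
    · exact ⟨0, Submodule.zero_mem _, fun v w _ => by simp⟩
    · rintro x x' _ _ ⟨y, hy, hy'⟩ ⟨u, hu, hu'⟩
      refine ⟨y + u, Submodule.add_mem _ hy hu, fun v w hvw => ?_⟩
      have h1 := hy' v w hvw
      have h2 := hu' v w hvw
      rw [add_dotProduct, add_dotProduct]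
      linear_combination h1 + h2
    · rintro c x _ ⟨y, hy, hy'⟩
      refine ⟨c • y, Submodule.smul_mem _ c hy, fun v w hvw => ?_⟩
      have h1 := hy' v w hvw
      rw [smul_dotProduct, smul_dotProduct, smul_eq_mul, smul_eq_mul]
      linear_combination c * h1
  have hS : Submodule.span ℂ {v | ∃ G ∈ I, v = dif (tc 1 G) z} ≤ Sk F z (k + 1) := by
    rw [Submodule.span_le]
    rintro v ⟨G, hG, rfl⟩
    refine Submodule.span_le.2 ?_ (jet_span hI h0 F hF hli hz hG 1)
    rintro v ⟨i', j, hj, hj', rfl⟩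
    have : j = 0 + 1 := by omega
    subst this
    exact Submodule.subset_span ⟨i', 0, by omega, rfl⟩
  refine Submodule.span_le.2 ?_
  rintro v ⟨i, m, hm, rfl⟩
  rcases Nat.lt_or_ge m (k + 1) with hm' | hm'
  · exact Submodule.subset_span ⟨i, m, hm', rfl⟩
  · have hmk : m = k + 1 := by omega
    subst hmk
    obtain ⟨y, hy, hy'⟩ := key _ (h (Submodule.subset_span ⟨i, k, by omega, rfl⟩))
    have h1 : dif (tc (k + 1 + 1) (F i)) z - y ∈
        Submodule.span ℂ {v | ∃ G ∈ I, v = dif (tc 1 G) z} := by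
      apply mem_of_perp
      intro v hv
      obtain ⟨w, hw⟩ := hst v fun G hG => hv _ (Submodule.subset_span ⟨G, hG, rfl⟩)
      have h2 := hw _ (hF i) (k + 1)
      have h3 := hy' v w hw
      rw [sub_dotProduct]
      linear_combination h2 - h3
    have h2 := Submodule.add_mem _ (hS h1) hy
    rwa [sub_add_cancel] at h2

theorem stable (hI : Smooth I r) (h0 : pt 1 0 ∈ cone I)
    (F : Fin r → MvPolynomial (Option ι) ℂ) (hF : ∀ i, F i ∈ I)
    (hli : LinearIndependent ℂ (fun i => dif (F i) (pt 1 0))) {z : ι → ℂ} (hz : z ∈ cone (J I))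
    (hst : StarT I z) (k : ℕ) (h : Sk F z (k + 1) ≤ Sk F z k) (m : ℕ) : Sk F z m ≤ Sk F z k := by
  have h1 : ∀ m, k ≤ m → Sk F z (m + 1) ≤ Sk F z m := by
    intro m hm
    induction m, hm using Nat.le_induction with
    | base => exact h
    | succ m _ ih => exact step hI h0 F hF hli hz hst m ih
  rcases Nat.le_total m k with hm | hm
  · exact Sk_mono F z hm
  · induction m, hm using Nat.le_induction with
    | base => exact le_rfl
    | succ m hkm ih => exact (h1 m hkm).trans ih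

theorem N_le (hI : Smooth I r) (h0 : pt 1 0 ∈ cone I)
    (F : Fin r → MvPolynomial (Option ι) ℂ) (hF : ∀ i, F i ∈ I)
    (hli : LinearIndependent ℂ (fun i => dif (F i) (pt 1 0))) {z : ι → ℂ} (hz : z ∈ cone (J I))
    (S : Submodule ℂ (ι → ℂ)) (hS : ∀ k, Sk F z k ≤ S) : N (J I) z ≤ S := by
  rw [N_J hz, Submodule.span_le]
  rintro v ⟨G, hG, k, rfl⟩
  refine hS k (Submodule.span_mono ?_ (jet_span hI h0 F hF hli hz hG k))
  rintro v ⟨i, j, hj, hj', rfl⟩
  exact ⟨i, j - 1, by omega, by rw [Nat.sub_add_cancel hj]⟩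

theorem Sk_le {F : Fin r → MvPolynomial (Option ι) ℂ} (hF : ∀ i, F i ∈ I) (z : ι → ℂ) (k : ℕ) :
    Sk F z k ≤ N (J I) z := by
  rw [Sk, Submodule.span_le]
  rintro v ⟨i, m, -, rfl⟩
  exact mem_N.2 ⟨_, tc_mem_J (hF i) _, rfl⟩

end JetsB

open JetsB

/-- The differentials of the Taylor coefficients of order at most `c - r + 1`, `c = dim N (J I) z`,
span the conormal space of the variety of lines at a point where `StarT` holds. -/
theorem jets_bounded {I : Ideal (MvPolynomial (Option ι) ℂ)} {r : ℕ} (hI : Smooth I r)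
    (h0 : pt 1 0 ∈ cone I) (F : Fin r → MvPolynomial (Option ι) ℂ) (hF : ∀ i, F i ∈ I)
    (hli : LinearIndependent ℂ (fun i => dif (F i) (pt 1 0))) {z : ι → ℂ} (hz : z ∈ cone (J I))
    (hst : StarT I z) :
    N (J I) z ≤ Submodule.span ℂ {v | ∃ (i : Fin r) (k : ℕ),
      k < Module.finrank ℂ (N (J I) z) - r + 1 ∧ v = dif (tc (k + 1) (F i)) z} := by
  have hfd : FiniteDimensional ℂ (N (J I) z) := inferInstance
  set c := Module.finrank ℂ (N (J I) z) with hc
  have hr1 : r ≤ Module.finrank ℂ (Sk F z 1) := by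
    have h1 := li_tc_one hI h0 F hF hli z
    have h2 := finrank_span_eq_card h1
    rw [Fintype.card_fin] at h2
    refine h2.symm.le.trans ?_
    refine Submodule.finrank_mono ?_
    rw [Submodule.span_le]
    rintro v ⟨i, rfl⟩
    exact Submodule.subset_span ⟨i, 0, by omega, rfl⟩
  have key : ∀ k, N (J I) z ≤ Sk F z (k + 1) ∨ r + k ≤ Module.finrank ℂ (Sk F z (k + 1)) := by
    intro k
    induction k with
    | zero => right; exact hr1
    | succ k ih =>
      by_cases hN : N (J I) z ≤ Sk F z (k + 1)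
      · left; exact hN.trans (Sk_mono F z (by omega))
      · right
        have h1 := ih.resolve_left hN
        have h2 : Sk F z (k + 1) < Sk F z (k + 1 + 1) := by
          refine lt_of_le_not_ge (Sk_mono F z (by omega)) fun hle => hN ?_
          exact N_le hI h0 F hF hli hz _ (stable hI h0 F hF hli hz hst (k + 1) hle)
        have h3 := Submodule.finrank_lt_finrank_of_lt h2
        omega
  rcases key (c - r) with h | h
  · exact h
  · have h1 : Sk F z (c - r + 1) ≤ N (J I) z := Sk_le hF z _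
    have h2 : Module.finrank ℂ (Sk F z (c - r + 1)) ≤ c := Submodule.finrank_mono h1
    have h3 : r ≤ c := hr1.trans (Submodule.finrank_mono (Sk_le hF z 1))
    have h4 : Module.finrank ℂ (Sk F z (c - r + 1)) = c := by omega
    exact (Submodule.eq_of_le_of_finrank_eq h1 h4).ge

end H94.Deg
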