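import Pool.Agent.H94.Deg.RegSeq

/-!
# Macaulay's theorem for forms: forms with the expected dimension form a regular sequence

Elementary proof: exchange of one element at a time against general linear forms.
-/

open MvPolynomial

set_option linter.unusedSectionVars false

namespace H94.Deg

open H89.Hart H94.Cubic

variable {ι : Type*} [Fintype ι] [DecidableEq ι]

/-! ### Dimension -/

theorem dm_anti {P Q : Ideal (MvPolynomial ι ℂ)} (hP : P.IsPrime) (hQ : Q.IsPrime) (h : P ≤ Q) :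
    dm Q ≤ dm P := by
  have h1 := ringKrullDim_le_of_surjective (Ideal.Quotient.factor h)
    (Ideal.Quotient.factor_surjective h)
  rw [dm_eq hP, dm_eq hQ] at h1
  exact_mod_cast h1

theorem dm_lt {P Q : Ideal (MvPolynomial ι ℂ)} (hP : P.IsPrime) (hQ : Q.IsPrime) (h : P ≤ Q)
    {u : MvPolynomial ι ℂ} (huQ : u ∈ Q) (huP : u ∉ P) : dm Q + 1 ≤ dm P := by
  have hdom : IsDomain (MvPolynomial ι ℂ ⧸ P) := Ideal.Quotient.isDomain P
  have h1 := ringKrullDim_succ_le_of_surjective (Ideal.Quotient.factor h)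
    (Ideal.Quotient.factor_surjective h) (r := Ideal.Quotient.mk P u)
    (mem_nonZeroDivisors_of_ne_zero (by
      rw [Ne, Ideal.Quotient.eq_zero_iff_mem]; exact huP))
    (by rw [Ideal.Quotient.factor_mk, Ideal.Quotient.eq_zero_iff_mem]; exact huQ)
  rw [dm_eq hP, dm_eq hQ] at h1
  exact_mod_cast h1

attribute [local instance] MvPolynomial.gradedAlgebra in
theorem exists_HP_le {I P : Ideal (MvPolynomial ι ℂ)} (hI : HomI I) (hP : P.IsPrime)
    (h : I ≤ P) : ∃ Q, HP Q ∧ I ≤ Q ∧ Q ≤ P := by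
  refine ⟨(P.homogeneousCore (homogeneousSubmodule ι ℂ)).toIdeal,
    ⟨Ideal.IsPrime.homogeneousCore (𝒜 := homogeneousSubmodule ι ℂ) hP, ?_⟩, ?_,
    Ideal.toIdeal_homogeneousCore_le _ _⟩
  · exact (homI_iff _).2 (P.homogeneousCore (homogeneousSubmodule ι ℂ)).isHomogeneous
  · have h5 := ((homI_iff I).1 hI).toIdeal_homogeneousCore_eq_self
    rw [← h5]
    exact Ideal.homogeneousCore_mono _ h

theorem HP_of_minimal {I P : Ideal (MvPolynomial ι ℂ)} (hI : HomI I)
    (hP : P ∈ I.minimalPrimes) : HP P := by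
  obtain ⟨Q, hQ, hIQ, hQP⟩ := exists_HP_le hI hP.1.1 hP.1.2
  have h1 : P ≤ Q := hP.2 ⟨hQ.prime, hIQ⟩ hQP
  rw [le_antisymm h1 hQP]
  exact hQ

theorem eval_zero_form {f : MvPolynomial ι ℂ} {d : ℕ} (hd : 1 ≤ d) (hf : f.IsHomogeneous d) :
    eval (0 : ι → ℂ) f = 0 := by
  have h1 := eval_smul_homog hf (0 : ℂ) (0 : ι → ℂ)
  rw [smul_zero, zero_pow (by omega), zero_mul] at h1
  exact h1

theorem HP.zero_mem {Q : Ideal (MvPolynomial ι ℂ)} (hQ : HP Q) : (0 : ι → ℂ) ∈ cone Q := by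
  obtain ⟨z, hz⟩ := exists_mem_cone hQ.prime
  exact zero_mem_of_homog hQ.homog hz

theorem mI_prime (p : ι → ℂ) : (mI p).IsPrime := RingHom.ker_isPrime _

theorem mem_of_dm_zero {Q : Ideal (MvPolynomial ι ℂ)} (hQ : HP Q) (h0 : dm Q = 0)
    {f : MvPolynomial ι ℂ} {d : ℕ} (hd : 1 ≤ d) (hf : f.IsHomogeneous d) : f ∈ Q := by
  by_contra hcon
  have h1 := dm_lt hQ.prime (mI_prime (0 : ι → ℂ))
    (fun g hg => mem_mI.2 (HP.zero_mem hQ g hg)) (mem_mI.2 (eval_zero_form hd hf)) hcon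
  omega

theorem dm_zero_of_vars {Q : Ideal (MvPolynomial ι ℂ)} (hQ : HP Q)
    (h : ∀ i, (X i : MvPolynomial ι ℂ) ∈ Q) : dm Q = 0 := by
  by_contra hcon
  obtain ⟨x, hx, hx0, -⟩ := ne_zero_of_dm hQ (β := Empty) (fun b => b.elim) (fun b => b.elim)
    (by rw [Fintype.card_eq_zero]; omega)
  apply hx0
  funext i
  have := hx _ (h i)
  rwa [eval_X] at this

/-! ### Codimension of the common zeros of a list of forms -/

/-- The common zeros of `L` have codimension at least `m`. -/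
def Codim (L : List (MvPolynomial ι ℂ)) (m : ℕ) : Prop :=
  ∀ Q : Ideal (MvPolynomial ι ℂ), HP Q → (∀ h ∈ L, h ∈ Q) → dm Q + m ≤ Fintype.card ι

theorem Codim.perm {L L' : List (MvPolynomial ι ℂ)} (hp : L.Perm L') {m : ℕ} (h : Codim L m) :
    Codim L' m := fun Q hQ hL => h Q hQ fun x hx => hL x (hp.mem_iff.1 hx)

theorem codim_sub {h : MvPolynomial ι ℂ} {L : List (MvPolynomial ι ℂ)} {m d : ℕ} (hd : 1 ≤ d)
    (hh : h.IsHomogeneous d) (hc : Codim (h :: L) (m + 1)) : Codim L m := by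
  intro Q hQ hL
  obtain ⟨P, hP, hQP, hhP, -, hdim⟩ := comp_rel hQ (fun _ : Unit => h) (fun _ => ⟨d, hh⟩)
    (HP.zero_mem hQ) (fun _ => eval_zero_form hd hh)
  have h1 := hc P hP (by
    intro x hx
    rcases List.mem_cons.1 hx with rfl | hx
    · exact hhP ()
    · exact hQP (hL x hx))
  simp only [Fintype.card_unit] at hdim
  omega

/-- The linear form with given coefficients. -/
noncomputable def lf : (ι → ℂ) →ₗ[ℂ] MvPolynomial ι ℂ where
  toFun c := ∑ i, c i • X i
  map_add' a b := by simp [add_smul, Finset.sum_add_distrib]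
  map_smul' a b := by simp [mul_smul, Finset.smul_sum]

theorem lf_homog (c : ι → ℂ) : (lf c).IsHomogeneous 1 := by
  have : (lf c : MvPolynomial ι ℂ) = ∑ i, c i • X i := rfl
  rw [this]
  refine IsHomogeneous.sum _ _ _ fun i _ => ?_
  rw [MvPolynomial.smul_eq_C_mul]
  have := (isHomogeneous_C ι (c i)).mul (isHomogeneous_X ℂ i)
  simpa using this

theorem lf_single (i : ι) : lf (Pi.single i 1 : ι → ℂ) = X i := by
  have : (lf (Pi.single i 1 : ι → ℂ) : MvPolynomial ι ℂ) =
    ∑ j, (Pi.single i 1 : ι → ℂ) j • X j := rfl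
  rw [this]
  simp [Pi.single_apply]

/-- A linear form outside finitely many homogeneous primes of positive dimension. -/
theorem exists_avoid {T : Set (Ideal (MvPolynomial ι ℂ))} (hT : T.Finite)
    (h : ∀ Q ∈ T, HP Q ∧ dm Q ≠ 0) :
    ∃ u : MvPolynomial ι ℂ, u.IsHomogeneous 1 ∧ ∀ Q ∈ T, u ∉ Q := by
  classical
  let W : Ideal (MvPolynomial ι ℂ) → Submodule ℂ (ι → ℂ) :=
    fun Q => (Q.restrictScalars ℂ).comap lf
  have h1 := Subspace.biUnion_ne_univ_of_top_notMem (s := hT.toFinset.image W) (by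
    intro hmem
    obtain ⟨Q, hQ, hW⟩ := Finset.mem_image.1 hmem
    rw [Set.Finite.mem_toFinset] at hQ
    apply (h Q hQ).2
    apply dm_zero_of_vars (h Q hQ).1
    intro i
    have : (Pi.single i 1 : ι → ℂ) ∈ W Q := by rw [hW]; trivial
    have h2 : lf (Pi.single i 1 : ι → ℂ) ∈ Q := this
    rwa [lf_single] at h2)
  obtain ⟨c, hc⟩ := (Set.ne_univ_iff_exists_notMem _).1 h1
  refine ⟨lf c, lf_homog c, ?_⟩
  intro Q hQ hcQ
  apply hc
  simp only [Set.mem_iUnion]
  exact ⟨W Q, Finset.mem_image_of_mem _ (hT.mem_toFinset.2 hQ), hcQ⟩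

theorem codim_cons_of_avoid {L : List (MvPolynomial ι ℂ)} {m : ℕ}
    (hc : Codim L m) (hm : m < Fintype.card ι) {u : MvPolynomial ι ℂ}
    (hu : ∀ Q ∈ (LS L).minimalPrimes, dm Q ≠ 0 → u ∉ Q) (hL : Forms L) :
    Codim (u :: L) (m + 1) := by
  intro Q' hQ' hmem
  have hle : LS L ≤ Q' := Ideal.span_le.2 fun f hf => hmem f (List.mem_cons_of_mem _ hf)
  have := hQ'.prime
  obtain ⟨Q, hQ, hQQ'⟩ := Ideal.exists_minimalPrimes_le hle
  have hQH := HP_of_minimal (homI_LS hL) hQ
  have h1 := hc Q hQH fun f hf => hQ.1.2 (mem_LS hf)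
  by_cases h0 : dm Q = 0
  · have := dm_anti hQH.prime hQ'.prime hQQ'
    omega
  · have := dm_lt hQH.prime hQ'.prime hQQ' (hmem u (List.mem_cons_self)) (hu Q hQ h0)
    omega

theorem exists_linear {L₁ L₂ : List (MvPolynomial ι ℂ)} {m₁ m₂ : ℕ} (h₁ : Forms L₁)
    (h₂ : Forms L₂) (hc₁ : Codim L₁ m₁) (hc₂ : Codim L₂ m₂) (hm₁ : m₁ < Fintype.card ι)
    (hm₂ : m₂ < Fintype.card ι) :
    ∃ u : MvPolynomial ι ℂ, u.IsHomogeneous 1 ∧ Codim (u :: L₁) (m₁ + 1) ∧
      Codim (u :: L₂) (m₂ + 1) := by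
  obtain ⟨u, hu, hav⟩ := exists_avoid (ι := ι)
    (T := {Q | (Q ∈ (LS L₁).minimalPrimes ∨ Q ∈ (LS L₂).minimalPrimes) ∧ dm Q ≠ 0})
    (by
      apply Set.Finite.subset ((Ideal.finite_minimalPrimes_of_isNoetherianRing _ (LS L₁)).union
        (Ideal.finite_minimalPrimes_of_isNoetherianRing _ (LS L₂)))
      intro Q hQ
      exact hQ.1)
    (by
      rintro Q ⟨hQ | hQ, h0⟩
      · exact ⟨HP_of_minimal (homI_LS h₁) hQ, h0⟩
      · exact ⟨HP_of_minimal (homI_LS h₂) hQ, h0⟩)
  exact ⟨u, hu, codim_cons_of_avoid hc₁ hm₁ (fun Q hQ h0 => hav Q ⟨Or.inl hQ, h0⟩) h₁,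
    codim_cons_of_avoid hc₂ hm₂ (fun Q hQ h0 => hav Q ⟨Or.inr hQ, h0⟩) h₂⟩

/-! ### Exchange -/

theorem Forms.perm {L L' : List (MvPolynomial ι ℂ)} (hp : L.Perm L') (h : Forms L) : Forms L' :=
  fun x hx => h x (hp.mem_iff.2 hx)

theorem Forms.cons {h : MvPolynomial ι ℂ} {L : List (MvPolynomial ι ℂ)}
    (hh : ∃ d, 1 ≤ d ∧ h.IsHomogeneous d) (hL : Forms L) : Forms (h :: L) := by
  intro x hx
  rcases List.mem_cons.1 hx with rfl | hx
  · exact hh
  · exact hL x hx

theorem Forms.of_cons {h : MvPolynomial ι ℂ} {L : List (MvPolynomial ι ℂ)}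
    (hL : Forms (h :: L)) : Forms L := fun x hx => hL x (List.mem_cons_of_mem _ hx)

theorem pow_reg {I : Ideal (MvPolynomial ι ℂ)} {a : MvPolynomial ι ℂ}
    (ha : ∀ x, a * x ∈ I → x ∈ I) (M : ℕ) : ∀ x, a ^ M * x ∈ I → x ∈ I := by
  induction M with
  | zero => intro x hx; simpa using hx
  | succ M ih =>
    intro x hx
    apply ih
    apply ha
    rwa [← mul_assoc, ← pow_succ']

theorem exchange {A : List (MvPolynomial ι ℂ)} {a b : MvPolynomial ι ℂ} (hA : Forms A)
    (ha : ∃ d, 1 ≤ d ∧ a.IsHomogeneous d) (hb : ∃ d, 1 ≤ d ∧ b.IsHomogeneous d)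
    (hr : RegL ⊥ (a :: A)) (hc : Codim (b :: A) (Fintype.card ι)) : RegL ⊥ (b :: A) := by
  have hbA : Forms (b :: A) := hA.cons hb
  have haA : Forms (a :: A) := hA.cons ha
  have hp : ∀ c : MvPolynomial ι ℂ, (c :: A).Perm (A ++ [c]) := fun c =>
    (List.perm_append_singleton c A).symm
  have hr' := hr.perm (hp a) homI_bot haA
  rw [regL_bot_append, regL_singleton] at hr'
  obtain ⟨hrA, hra⟩ := hr'
  have hrad : a ∈ (LS (b :: A)).radical := by
    rw [Ideal.radical_eq_sInf, Submodule.mem_sInf]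
    rintro P ⟨hle, hP⟩
    obtain ⟨Q, hQ, hIQ, hQP⟩ := exists_HP_le (homI_LS hbA) hP hle
    have h1 := hc Q hQ fun f hf => hIQ (mem_LS hf)
    obtain ⟨d, hd, had⟩ := ha
    exact hQP (mem_of_dm_zero hQ (by omega) hd had)
  obtain ⟨M, hM⟩ := Ideal.mem_radical_iff.1 hrad
  rw [LS_cons, sup_comm, mem_sup_span] at hM
  obtain ⟨i, hi, c, hic⟩ := hM
  have hfin : RegL ⊥ (A ++ [b]) := by
    rw [regL_bot_append, regL_singleton]
    refine ⟨hrA, ?_⟩
    intro x hx
    apply pow_reg hra M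
    rw [hic]
    have : (i + b * c) * x = i * x + c * (b * x) := by ring
    rw [this]
    exact add_mem (Ideal.mul_mem_right _ _ hi) (Ideal.mul_mem_left _ _ hx)
  exact hfin.perm (hp b).symm homI_bot (hbA.perm (hp b))

theorem exchange_all (j : ℕ) : ∀ (A B B' : List (MvPolynomial ι ℂ)), Forms (A ++ B) →
    Forms (A ++ B') → B.length = j → B'.length = j → A.length + j = Fintype.card ι →
    Codim (A ++ B) (Fintype.card ι) → Codim (A ++ B') (Fintype.card ι) →
    RegL ⊥ (A ++ B) → RegL ⊥ (A ++ B') := by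
  induction j with
  | zero =>
    intro A B B' _ _ hB hB' _ _ _ hr
    rw [List.length_eq_zero_iff] at hB hB'
    rw [hB] at hr
    rw [hB']
    exact hr
  | succ j ih =>
    intro A B B' hF hF' hB hB' hA hc hc' hr
    obtain ⟨b, B₁, rfl⟩ := List.exists_cons_of_length_eq_add_one hB
    obtain ⟨b', B₁', rfl⟩ := List.exists_cons_of_length_eq_add_one hB'
    have p : ∀ (c : MvPolynomial ι ℂ) (D : List (MvPolynomial ι ℂ)),
        (A ++ c :: D).Perm (c :: (A ++ D)) := fun c D => List.perm_middle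
    have hFb := hF.perm (p b B₁)
    have hFb' := hF'.perm (p b' B₁')
    obtain ⟨d, hd, hbd⟩ := hFb b List.mem_cons_self
    obtain ⟨d', hd', hbd'⟩ := hFb' b' List.mem_cons_self
    have hcard : Fintype.card ι = (A.length + j) + 1 := by omega
    have hcb := hc.perm (p b B₁)
    have hcb' := hc'.perm (p b' B₁')
    rw [hcard] at hcb hcb'
    have hcs := codim_sub hd hbd hcb
    have hcs' := codim_sub hd' hbd' hcb'
    obtain ⟨w, hw, hw1, hw2⟩ := exists_linear hFb.of_cons hFb'.of_cons hcs hcs' (by omega)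
      (by omega)
    rw [← hcard] at hw1 hw2
    have hwf : ∃ d, 1 ≤ d ∧ w.IsHomogeneous d := ⟨1, le_rfl, hw⟩
    have r1 : RegL ⊥ (b :: (A ++ B₁)) := hr.perm (p b B₁) homI_bot hF
    have r2 : RegL ⊥ (w :: (A ++ B₁)) :=
      exchange hFb.of_cons ⟨d, hd, hbd⟩ hwf r1 hw1
    have r3 : RegL ⊥ (w :: (A ++ B₁')) := by
      have := ih (w :: A) B₁ B₁' (hFb.of_cons.cons hwf) (hFb'.of_cons.cons hwf)
        (by simpa using hB) (by simpa using hB') (by simp only [List.length_cons]; omega)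
        hw1 hw2 r2
      exact this
    have r4 : RegL ⊥ (b' :: (A ++ B₁')) :=
      exchange hFb'.of_cons hwf ⟨d', hd', hbd'⟩ r3 (by rw [hcard]; exact hcb')
    exact r4.perm (p b' B₁').symm homI_bot hFb'

/-! ### Variables -/

theorem X_reg {s : Set ι} {i : ι} (hi : i ∉ s) (a : MvPolynomial ι ℂ)
    (h : X i * a ∈ Ideal.span (X '' s : Set (MvPolynomial ι ℂ))) :
    a ∈ Ideal.span (X '' s : Set (MvPolynomial ι ℂ)) := by
  rw [mem_ideal_span_X_image] at h ⊢
  intro m hm
  obtain ⟨k, hk, hmk⟩ := h (m + Finsupp.single i 1) (by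
    rw [mem_support_iff] at hm ⊢
    rw [mul_comm, coeff_mul_X]
    exact hm)
  refine ⟨k, hk, ?_⟩
  have : k ≠ i := fun h => hi (h ▸ hk)
  rw [Finsupp.add_apply, Finsupp.single_eq_of_ne this] at hmk
  simpa using hmk

theorem vars_reg (l : List ι) : ∀ s : Set ι, l.Nodup → (∀ i ∈ l, i ∉ s) →
    RegL (Ideal.span (X '' s : Set (MvPolynomial ι ℂ))) (l.map X) := by
  induction l with
  | nil => intro s _ _; trivial
  | cons i t ih =>
    intro s hn hs
    rw [List.nodup_cons] at hn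
    refine ⟨X_reg (hs i List.mem_cons_self), ?_⟩
    have h1 : Ideal.span (X '' s : Set (MvPolynomial ι ℂ)) ⊔ Ideal.span {X i} =
        Ideal.span (X '' (insert i s) : Set (MvPolynomial ι ℂ)) := by
      rw [← Ideal.span_union, Set.image_insert_eq, Set.union_singleton]
    have h2 : RegL (Ideal.span (X '' s : Set (MvPolynomial ι ℂ)) ⊔ Ideal.span {X i})
        (t.map X) := by
      rw [h1]
      apply ih _ hn.2
      intro k hk hks
      rcases Set.mem_insert_iff.1 hks with rfl | hks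
      · exact hn.1 hk
      · exact hs k (List.mem_cons_of_mem _ hk) hks
    exact h2

/-- Homogeneous systems of parameters are regular sequences. -/
theorem hsop_reg {L : List (MvPolynomial ι ℂ)} (hL : Forms L) (hlen : L.length = Fintype.card ι)
    (hc : Codim L (Fintype.card ι)) : RegL ⊥ L := by
  let V : List (MvPolynomial ι ℂ) := (Finset.univ : Finset ι).toList.map X
  have hV : Forms V := by
    intro f hf
    obtain ⟨i, -, rfl⟩ := List.mem_map.1 hf
    exact ⟨1, le_rfl, isHomogeneous_X ℂ i⟩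
  have hVc : Codim V (Fintype.card ι) := by
    intro Q hQ h
    have := dm_zero_of_vars hQ fun i => h _ (List.mem_map.2 ⟨i, by simp, rfl⟩)
    omega
  have hVr : RegL ⊥ V := by
    have := vars_reg (Finset.univ : Finset ι).toList ∅ (Finset.nodup_toList _) (by simp)
    rw [Set.image_empty, Ideal.span_empty] at this
    exact this
  have h1 := exchange_all (Fintype.card ι) [] V L hV hL (by simp [V]) hlen (by simp) hVc hc hVr
  exact h1

/-! ### Macaulay's theorem -/

theorem extend_linear {L : List (MvPolynomial ι ℂ)} (hL : Forms L) {m : ℕ} (hc : Codim L m)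
    (q : ℕ) (hq : m + q ≤ Fintype.card ι) :
    ∃ U : List (MvPolynomial ι ℂ), U.length = q ∧ (∀ u ∈ U, u.IsHomogeneous 1) ∧
      Codim (L ++ U) (m + q) := by
  induction q with
  | zero => exact ⟨[], rfl, by simp, by simpa using hc⟩
  | succ q ih =>
    obtain ⟨U, hU, hU1, hU2⟩ := ih (by omega)
    have hLU : Forms (L ++ U) := by
      intro x hx
      rcases List.mem_append.1 hx with hx | hx
      · exact hL x hx
      · exact ⟨1, le_rfl, hU1 x hx⟩
    obtain ⟨u, hu, hc1, -⟩ := exists_linear hLU hLU hU2 hU2 (by omega) (by omega)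
    refine ⟨u :: U, by simp [hU], ?_, ?_⟩
    · intro x hx
      rcases List.mem_cons.1 hx with rfl | hx
      · exact hu
      · exact hU1 x hx
    · exact hc1.perm List.perm_middle.symm

theorem HP_mI_zero : HP (mI (0 : ι → ℂ)) := by
  refine ⟨mI_prime _, ?_⟩
  intro f hf d
  rw [mem_mI] at hf ⊢
  rcases Nat.eq_zero_or_pos d with rfl | hd
  · rw [homogeneousComponent_zero, eval_C]
    rw [← hf, MvPolynomial.eval_zero]
    rfl
  · exact eval_zero_form hd (homogeneousComponent_isHomogeneous _ _)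

theorem codim_le {L : List (MvPolynomial ι ℂ)} (hL : Forms L) {m : ℕ} (hc : Codim L m) :
    m ≤ Fintype.card ι := by
  have := hc _ HP_mI_zero fun h hh => by
    obtain ⟨d, hd, hhd⟩ := hL h hh
    exact mem_mI.2 (eval_zero_form hd hhd)
  omega

/-- Macaulay's theorem: forms with the expected codimension form a regular sequence. -/
theorem macaulay {L : List (MvPolynomial ι ℂ)} (hL : Forms L) (hc : Codim L L.length) :
    RegL ⊥ L := by
  have hle := codim_le hL hc
  obtain ⟨U, hU, hU1, hU2⟩ := extend_linear hL hc (Fintype.card ι - L.length) (by omega)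
  have hLU : Forms (L ++ U) := by
    intro x hx
    rcases List.mem_append.1 hx with hx | hx
    · exact hL x hx
    · exact ⟨1, le_rfl, hU1 x hx⟩
  have h1 := hsop_reg hLU (by rw [List.length_append, hU]; omega)
    (by
      have : L.length + (Fintype.card ι - L.length) = Fintype.card ι := by omega
      rwa [this] at hU2)
  exact (regL_bot_append.1 h1).1

theorem regL_get {I : Ideal (MvPolynomial ι ℂ)} {U : List (MvPolynomial ι ℂ)} (h : RegL I U)
    (j : ℕ) (hj : j < U.length) (a : MvPolynomial ι ℂ)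
    (ha : U[j] * a ∈ I ⊔ LS (U.take j)) : a ∈ I ⊔ LS (U.take j) := by
  have h1 : U = U.take j ++ (U[j] :: U.drop (j + 1)) := by
    rw [List.getElem_cons_drop, List.take_append_drop]
  rw [h1, regL_append] at h
  exact h.2.1 a ha

/-- General linear forms are regular modulo forms with the expected codimension. -/
theorem cm_gen {k q : ℕ} (g : Fin k → MvPolynomial ι ℂ)
    (hg : ∀ i, ∃ d, 1 ≤ d ∧ (g i).IsHomogeneous d)
    (hcodim : ∀ Q : Ideal (MvPolynomial ι ℂ), HP Q → (∀ i, g i ∈ Q) →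
      dm Q + k ≤ Fintype.card ι) (hq : k + q ≤ Fintype.card ι) :
    ∃ u : Fin q → MvPolynomial ι ℂ, (∀ j, (u j).IsHomogeneous 1) ∧
      (∀ j a, u j * a ∈ Ideal.span (Set.range g) ⊔ Ideal.span (u '' {i | i < j}) →
        a ∈ Ideal.span (Set.range g) ⊔ Ideal.span (u '' {i | i < j})) ∧
      ∀ Q : Ideal (MvPolynomial ι ℂ), HP Q → (∀ i, g i ∈ Q) → (∀ j, u j ∈ Q) →
        dm Q + (k + q) ≤ Fintype.card ι := by
  have hL : Forms (List.ofFn g) := by
    intro x hx
    obtain ⟨i, rfl⟩ := List.mem_ofFn.1 hx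
    exact hg i
  have hLS : LS (List.ofFn g) = Ideal.span (Set.range g) := by
    rw [LS]
    congr 1
    ext f
    simp [List.mem_ofFn]
  have hc : Codim (List.ofFn g) k := fun Q hQ h =>
    hcodim Q hQ fun i => h _ (List.mem_ofFn.2 ⟨i, rfl⟩)
  obtain ⟨U, hU, hU1, hU2⟩ := extend_linear hL hc q hq
  have hLU : Forms (List.ofFn g ++ U) := by
    intro x hx
    rcases List.mem_append.1 hx with hx | hx
    · exact hL x hx
    · exact ⟨1, le_rfl, hU1 x hx⟩
  have hr := macaulay hLU (by rw [List.length_append, List.length_ofFn, hU]; exact hU2)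
  have hr2 := (regL_bot_append.1 hr).2
  subst hU
  refine ⟨fun j => U[j], fun j => hU1 _ (List.getElem_mem _), ?_, ?_⟩
  · intro j a ha
    have h1 : Ideal.span ((fun j : Fin U.length => U[j]) '' {i | i < j}) =
        LS (U.take j) := by
      rw [LS]
      congr 1
      ext f
      simp only [Set.mem_image, Set.mem_ofPred_eq]
      rw [List.mem_take_iff_getElem]
      constructor
      · rintro ⟨i, hi, rfl⟩
        exact ⟨i, by simp only [lt_min_iff]; exact ⟨hi, i.2⟩, rfl⟩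
      · rintro ⟨i, hi, rfl⟩
        rw [lt_min_iff] at hi
        exact ⟨⟨i, hi.2⟩, hi.1, rfl⟩
    rw [h1, ← hLS] at ha ⊢
    exact regL_get hr2 j j.2 a ha
  · intro Q hQ hg' hu'
    apply hU2 Q hQ
    intro x hx
    rcases List.mem_append.1 hx with hx | hx
    · obtain ⟨i, rfl⟩ := List.mem_ofFn.1 hx
      exact hg' i
    · obtain ⟨i, hi, rfl⟩ := List.mem_iff_getElem.1 hx
      exact hu' ⟨i, hi⟩

end H94.Deg
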