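import Pool.Agent.H94.Deg.Macaulay

/-!
# Smooth complete intersections: generators and depth two
-/

open MvPolynomial

namespace H94.Deg

open H89.Hart H94.Cubic H18.Sparse

section

variable {ι : Type*} [Fintype ι] [DecidableEq ι]

/-- M: smooth complete intersections: generators and depth two. -/
theorem cm_fin {P : Ideal (MvPolynomial ι ℂ)} {c : ℕ} (hP : Smooth P c)
    (g : Fin c → MvPolynomial ι ℂ) (e : Fin c → ℕ) (he : ∀ κ, 1 ≤ e κ)
    (hg : ∀ κ, g κ ∈ P) (hgh : ∀ κ, (g κ).IsHomogeneous (e κ))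
    (hli : ∀ z ∈ cone P, z ≠ 0 → LinearIndependent ℂ (fun κ => dif (g κ) z))
    (hn : 2 * c < Fintype.card ι) (hn2 : c + 2 ≤ Fintype.card ι) (hne : ∃ z ∈ cone P, z ≠ 0) :
    P = Ideal.span (Set.range g) ∧
    ∃ u₀ u₁ : MvPolynomial ι ℂ, u₀.IsHomogeneous 1 ∧ u₁.IsHomogeneous 1 ∧ u₀ ∉ P ∧
      ∀ a b, u₁ * a - u₀ * b ∈ P → ∃ c', a - u₀ * c' ∈ P := by
  obtain ⟨z, hz, hz0⟩ := hne
  have hgh' : ∀ i, ∃ d, (g i).IsHomogeneous d := fun i => ⟨e i, hgh i⟩
  have hzm : ∀ q : ι → ℂ, (∀ i, eval q (g i) = 0) → q ∈ cone P := fun q hq =>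
    zeros_mem hP g hg hgh' hli hn hz hz0 hq
  have hcodim : ∀ Q : Ideal (MvPolynomial ι ℂ), HP Q → (∀ i, g i ∈ Q) →
      dm Q + c ≤ Fintype.card ι := by
    intro Q hQ hgQ
    by_cases h0 : dm Q = 0
    · omega
    · obtain ⟨x, hx, hx0, -⟩ := ne_zero_of_dm hQ (β := Empty) (fun b => b.elim)
        (fun b => b.elim) (by simp; omega)
      have hxP : x ∈ cone P := hzm x fun i => hx _ (hgQ i)
      have := dim_add_le Q hQ.prime x hx g hgQ (hli x hxP hx0)
      rw [dm_eq hQ.prime, Fintype.card_fin] at this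
      exact_mod_cast this
  obtain ⟨u, hu, hreg, -⟩ := cm_gen (q := 2) g (fun i => ⟨e i, he i, hgh i⟩) hcodim hn2
  have hle : Ideal.span (Set.range g) ≤ P := by
    rw [Ideal.span_le]
    rintro _ ⟨i, rfl⟩
    exact hg i
  have hreg0 : ∀ a, u 0 * a ∈ Ideal.span (Set.range g) → a ∈ Ideal.span (Set.range g) := by
    intro a ha
    have h1 := hreg 0 a (Ideal.mem_sup_left ha)
    have h2 : u '' {i | i < (0 : Fin 2)} = (∅ : Set (MvPolynomial ι ℂ)) := by
      ext p
      simp
    rw [h2, Ideal.span_empty, sup_bot_eq] at h1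
    exact h1
  have hreg0' : ∀ (M : ℕ) a, u 0 ^ M * a ∈ Ideal.span (Set.range g) →
      a ∈ Ideal.span (Set.range g) := by
    intro M
    induction M with
    | zero => intro a ha; simpa using ha
    | succ M ih =>
      intro a ha
      apply ih
      apply hreg0
      rw [pow_succ'] at ha
      rwa [← mul_assoc]
  have hPg : P = Ideal.span (Set.range g) := by
    apply le_antisymm _ hle
    intro p hp
    -- the ideal of multipliers
    set B : Ideal (MvPolynomial ι ℂ) :=
      Submodule.comap (LinearMap.mulRight (MvPolynomial ι ℂ) p) (Ideal.span (Set.range g)) with hB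
    have hBm : ∀ b, b ∈ B ↔ b * p ∈ Ideal.span (Set.range g) := by
      intro b
      rw [hB]
      rfl
    have hz : ∀ x ∈ cone B, x = 0 := by
      intro x hx
      by_contra hx0
      by_cases hxP : x ∈ cone P
      · obtain ⟨w, hw, hm⟩ := L0 hP g hg hxP hx0 (hli x hxP hx0) hp
        exact hw (hx w ((hBm w).2 hm))
      · apply hxP
        apply hzm
        intro i
        apply hx
        rw [hBm]
        exact Ideal.mul_mem_right _ _ (Ideal.subset_span ⟨i, rfl⟩)
    have hu0 : u 0 ∈ B.radical := by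
      rw [← MvPolynomial.vanishingIdeal_zeroLocus_eq_radical (K := ℂ), mem_vanishingIdeal_iff]
      intro x hx
      rw [← cone_eq_zeroLocus] at hx
      have := hz x hx
      subst this
      have h0 : eval (0 : ι → ℂ) (u 0) = 0 := by
        rw [MvPolynomial.eval_zero, constantCoeff_eq]
        exact (hu 0).coeff_eq_zero (by simp)
      simpa [aeval_eq_eval] using h0
    obtain ⟨M, hM⟩ := hu0
    exact hreg0' M p ((hBm _).1 hM)
  refine ⟨hPg, u 0, u 1, hu 0, hu 1, ?_, ?_⟩
  · intro hmem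
    apply hP.prime.ne_top
    rw [Ideal.eq_top_iff_one, hPg]
    apply hreg0
    rw [mul_one, ← hPg]
    exact hmem
  · intro a b hab
    have h1 : u 1 * a ∈ Ideal.span (Set.range g) ⊔ 
        Ideal.span (u '' {i | i < (1 : Fin 2)}) := by
      have : u 1 * a = (u 1 * a - u 0 * b) + u 0 * b := by ring
      rw [this]
      apply Ideal.add_mem
      · exact Ideal.mem_sup_left (hPg ▸ hab)
      · apply Ideal.mem_sup_right
        exact Ideal.mul_mem_right _ _ (Ideal.subset_span ⟨0, (by decide : (0 : Fin 2) < 1), rfl⟩)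
    have h2 := hreg 1 a h1
    have h3 : u '' {i | i < (1 : Fin 2)} = {u 0} := by
      ext p
      constructor
      · rintro ⟨i, hi, rfl⟩
        have hi' : i < (1 : Fin 2) := hi
        have : i = 0 := by
          rw [Fin.lt_def] at hi'
          apply Fin.ext
          simp at hi' ⊢
          exact hi'
        subst this
        rfl
      · rintro rfl
        exact ⟨0, (by decide : (0 : Fin 2) < 1), rfl⟩
    rw [h3, Submodule.mem_sup] at h2
    obtain ⟨y, hy, w, hw, hyw⟩ := h2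
    obtain ⟨c', hc'⟩ := Ideal.mem_span_singleton'.1 hw
    refine ⟨c', ?_⟩
    have : a - u 0 * c' = y := by
      rw [← hyw, ← hc']
      ring
    rw [this]
    exact hle hy

/-- M: smooth complete intersections: generators and depth two. -/
theorem cm {P : Ideal (MvPolynomial ι ℂ)} {c : ℕ} (hP : Smooth P c) {K : Type*} [Fintype K]
    [DecidableEq K] (f : K → MvPolynomial ι ℂ) (e : K → ℕ) (he : ∀ κ, 1 ≤ e κ)
    (hf : ∀ κ, f κ ∈ P) (hfh : ∀ κ, (f κ).IsHomogeneous (e κ)) (hK : Fintype.card K = c)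
    (hli : ∀ z ∈ cone P, z ≠ 0 → LinearIndependent ℂ (fun κ => dif (f κ) z))
    (hn : 2 * c < Fintype.card ι) (hn2 : c + 2 ≤ Fintype.card ι) (hne : ∃ z ∈ cone P, z ≠ 0) :
    P = Ideal.span (Set.range f) ∧
    ∃ u₀ u₁ : MvPolynomial ι ℂ, u₀.IsHomogeneous 1 ∧ u₁.IsHomogeneous 1 ∧ u₀ ∉ P ∧
      ∀ a b, u₁ * a - u₀ * b ∈ P → ∃ c', a - u₀ * c' ∈ P := by
  let φ : Fin c ≃ K := (Fintype.equivFinOfCardEq hK).symm
  have h := cm_fin hP (fun i => f (φ i)) (fun i => e (φ i)) (fun i => he _) (fun i => hf _)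
    (fun i => hfh _) (fun z hz hz0 => (hli z hz hz0).comp φ φ.injective) hn hn2 hne
  have hr : Set.range (fun i => f (φ i)) = Set.range f := φ.surjective.range_comp f
  rw [hr] at h
  exact h

end

end H94.Deg
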