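import Pool.Agent.H94.Deg.ExtJet

/-!
# Part F: extension of the splitting to forms of the ideal
-/

open MvPolynomial

set_option linter.unusedSectionVars false
set_option linter.unusedSimpArgs false
set_option linter.unusedVariables false

namespace H94.Deg.Ext

open H89.Hart H94.Cubic

variable {ι K : Type*} [Fintype ι] [DecidableEq ι] [Fintype K] [DecidableEq K] {r : ℕ}
variable {I : Ideal (MvPolynomial (Option ι) ℂ)} {P : Ideal (MvPolynomial ι ℂ)}
    {f : K → MvPolynomial ι ℂ} {θ : Fin r → K → MvPolynomial (Option ι) ℂ} {top : Fin r → K}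

theorem TT_eq (f : K → MvPolynomial ι ℂ) (θ : Fin r → K → MvPolynomial (Option ι) ℂ) (i : Fin r) :
    TT f θ i = ∑ κ, θ i κ * FF f κ := rfl

/-- an element of the ideal of the cylinder modulo its square. -/
theorem Ctx.exists_L (h : Ctx I P f θ top) {G : MvPolynomial (Option ι) ℂ} (hG : G ∈ I) :
    ∃ L : K → MvPolynomial (Option ι) ℂ, (∀ z ∈ cone P, ∀ s : ℂ, dif G (pt s z) =
        ∑ κ, eval (pt s z) (L κ) • pt 0 (dif (f κ) z)) ∧
      G - ∑ i, L (top i) * TT f θ i ∈ cyl P ^ 2 := by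
  have h1 : G ∈ Ideal.span (Set.range (FF f)) := by
    rw [← h.cyl_eq]; exact h.hIcyl hG
  obtain ⟨L, hL⟩ := Ideal.mem_span_range_iff_exists_fun.1 h1
  have hdif : ∀ z ∈ cone P, ∀ s : ℂ, dif G (pt s z) =
      ∑ κ, eval (pt s z) (L κ) • pt 0 (dif (f κ) z) := by
    intro z hz s
    rw [← hL, dif_sum]
    refine Finset.sum_congr rfl fun κ _ => ?_
    rw [dif_mul, dif_FF, FF, eval_pt_rename, hz _ (h.f_mem κ), zero_smul, add_zero]
  refine ⟨L, hdif, ?_⟩
  have hD : ∀ κ, L κ - ∑ i, L (top i) * θ i κ ∈ cyl P := by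
    intro κ
    apply mem_cyl_of_vanish h.hP.prime h.hne
    intro z hz hz0 s
    have h2 : dif G (pt s z) ∈ Submodule.span ℂ (Set.range fun i => dif (TT f θ i) (pt s z)) := by
      rw [← h.hspan z hz hz0 s]
      exact mem_N.2 ⟨G, hG, rfl⟩
    obtain ⟨c, hc⟩ := (Submodule.mem_span_range_iff_exists_fun ℂ).1 h2
    rw [hdif z hz s] at hc
    have h3 : ∑ κ, (eval (pt s z) (L κ) - ∑ i, c i * eval (pt s z) (θ i κ)) • dif (f κ) z = 0 := by
      funext j
      have h4 := congrFun hc (some j)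
      simp only [h.dif_TT hz, Finset.sum_apply, Pi.smul_apply, smul_eq_mul, pt_some,
        Finset.mul_sum] at h4
      rw [Finset.sum_apply, Pi.zero_apply]
      simp only [Pi.smul_apply, smul_eq_mul, sub_mul, Finset.sum_sub_distrib, Finset.sum_mul]
      rw [← h4, Finset.sum_comm]
      simp only [mul_assoc, sub_self]
    have h5 := Fintype.linearIndependent_iff.1 (h.hli z hz hz0) _ h3
    have h6 : ∀ i, eval (pt s z) (L (top i)) = c i := by
      intro i
      have h7 := h5 (top i)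
      rw [sub_eq_zero] at h7
      rw [h7, Finset.sum_eq_single i]
      · rw [h.htop, if_pos rfl, map_one, mul_one]
      · intro l _ hl
        rw [h.htop, if_neg hl, map_zero, mul_zero]
      · intro h'; exact absurd (Finset.mem_univ _) h'
    rw [map_sub, map_sum]
    simp only [map_mul, h6]
    exact h5 κ
  have h8 : G - ∑ i, L (top i) * TT f θ i = ∑ κ, (L κ - ∑ i, L (top i) * θ i κ) * FF f κ := by
    simp only [sub_mul, Finset.sum_sub_distrib, hL, TT_eq, Finset.mul_sum, Finset.sum_mul]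
    rw [Finset.sum_comm]
    simp only [mul_assoc]
  rw [h8, pow_two]
  exact Ideal.sum_mem _ fun κ _ => Ideal.mul_mem_mul (hD κ) (h.FF_mem κ)

/-- the forms `T i` lie locally in `I` modulo the square of the ideal of the cylinder. -/
theorem Ctx.O2_local (h : Ctx I P f θ top) {z : ι → ℂ} (hz : z ∈ cone P) (hz0 : z ≠ 0) (s : ℂ) :
    ∃ u, eval (pt s z) u ≠ 0 ∧ ∀ i, u * TT f θ i ∈ I ⊔ cyl P ^ 2 := by
  obtain ⟨g, l, hg, -, hli, -⟩ := exists_frame h.hI (h.hcyl z hz s) (pt_ne_zero hz0)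
  have h1 := fun j => h.exists_L (hg j)
  choose L hL1 hL2 using h1
  let Λ : Matrix (Fin r) (Fin r) (MvPolynomial (Option ι) ℂ) := Matrix.of fun j i => L j (top i)
  refine ⟨Λ.det, ?_, ?_⟩
  · intro hdet
    have hdet' : (Λ.map (eval (pt s z))).det = 0 := by
      have e := RingHom.map_det (eval (pt s z)) Λ
      rw [hdet] at e
      exact e.symm
    obtain ⟨c, hc0, hc⟩ := Matrix.exists_vecMul_eq_zero_iff.2 hdet'
    apply hc0
    have hspan : ∀ j, dif (g j) (pt s z) = ∑ i, eval (pt s z) (L j (top i)) •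
        dif (TT f θ i) (pt s z) := by
      intro j
      have h2 : dif (g j) (pt s z) ∈ Submodule.span ℂ
          (Set.range fun i => dif (TT f θ i) (pt s z)) := by
        rw [← h.hspan z hz hz0 s]
        exact mem_N.2 ⟨g j, hg j, rfl⟩
      obtain ⟨c, hc⟩ := (Submodule.mem_span_range_iff_exists_fun ℂ).1 h2
      have h3 : ∑ κ, (eval (pt s z) (L j κ) - ∑ i, c i * eval (pt s z) (θ i κ)) •
          dif (f κ) z = 0 := by
        funext k
        have h4 := congrFun hc (some k)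
        rw [hL1 j z hz s] at h4
        simp only [h.dif_TT hz, Finset.sum_apply, Pi.smul_apply, smul_eq_mul, pt_some,
          Finset.mul_sum] at h4
        rw [Finset.sum_apply, Pi.zero_apply]
        simp only [Pi.smul_apply, smul_eq_mul, sub_mul, Finset.sum_sub_distrib, Finset.sum_mul]
        rw [← h4, Finset.sum_comm]
        simp only [mul_assoc, sub_self]
      have h5 := Fintype.linearIndependent_iff.1 (h.hli z hz hz0) _ h3
      rw [← hc]
      refine Finset.sum_congr rfl fun i _ => ?_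
      congr 1
      have h7 := h5 (top i)
      rw [sub_eq_zero] at h7
      rw [h7, Finset.sum_eq_single i]
      · rw [h.htop, if_pos rfl, map_one, mul_one]
      · intro l _ hl
        rw [h.htop, if_neg hl, map_zero, mul_zero]
      · intro h'; exact absurd (Finset.mem_univ _) h'
    have h6 : ∑ j, c j • dif (g j) (pt s z) = 0 := by
      simp only [hspan, Finset.smul_sum, smul_smul]
      rw [Finset.sum_comm]
      refine Finset.sum_eq_zero fun i _ => ?_
      rw [← Finset.sum_smul]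
      have h8 := congrFun hc i
      simp only [Matrix.vecMul, dotProduct, Matrix.map_apply, Λ, Matrix.of_apply,
        Pi.zero_apply] at h8
      rw [h8, zero_smul]
    funext j
    exact Fintype.linearIndependent_iff.1 hli c h6 j
  · intro i
    have h2 : Λ.det * TT f θ i = ∑ j, Λ.adjugate i j * ∑ i', L j (top i') * TT f θ i' := by
      have h3 : ∀ i', ∑ j, Λ.adjugate i j * L j (top i') = if i = i' then Λ.det else 0 := by
        intro i'
        have h4 := congrFun (congrFun (Matrix.adjugate_mul Λ) i) i'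
        rw [Matrix.mul_apply, Matrix.smul_apply, Matrix.one_apply, smul_eq_mul, mul_ite, mul_one,
          mul_zero] at h4
        exact h4
      simp only [Finset.mul_sum]
      rw [Finset.sum_comm]
      have h5 : ∀ i', ∑ j, Λ.adjugate i j * (L j (top i') * TT f θ i') =
          (if i = i' then Λ.det else 0) * TT f θ i' := by
        intro i'
        rw [← h3, Finset.sum_mul]
        refine Finset.sum_congr rfl fun j _ => ?_
        ring
      rw [Finset.sum_congr rfl (fun i' _ => h5 i')]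
      simp [Finset.sum_ite_eq]
    rw [h2]
    refine Ideal.sum_mem _ fun j _ => Ideal.mul_mem_left _ _ ?_
    have h3 : ∑ i', L j (top i') * TT f θ i' = g j - (g j - ∑ i', L j (top i') * TT f θ i') := by
      ring
    rw [h3]
    exact Ideal.sub_mem _ (Ideal.mem_sup_left (hg j)) (Ideal.mem_sup_right (hL2 j))

/-- `H` lies in `I` modulo the `a`-th power of the ideal of the cylinder, off the vertex. -/
def OO (I : Ideal (MvPolynomial (Option ι) ℂ)) (P : Ideal (MvPolynomial ι ℂ)) (a : ℕ)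
    (H : MvPolynomial (Option ι) ℂ) : Prop :=
  ∀ j : ι, ∃ M : ℕ, X (some j) ^ M * H ∈ I ⊔ cyl P ^ a

/-- the transporter ideal. -/
noncomputable def trn (Q : Ideal (MvPolynomial (Option ι) ℂ)) (H : MvPolynomial (Option ι) ℂ) :
    Ideal (MvPolynomial (Option ι) ℂ) :=
  Submodule.comap (LinearMap.toSpanSingleton (MvPolynomial (Option ι) ℂ) _ H) Q

theorem mem_trn {Q : Ideal (MvPolynomial (Option ι) ℂ)} {H u : MvPolynomial (Option ι) ℂ} :
    u ∈ trn Q H ↔ u * H ∈ Q := Iff.rfl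

theorem OO_of_local {a : ℕ} {H : MvPolynomial (Option ι) ℂ}
    (h : ∀ z ∈ cone P, z ≠ 0 → ∀ s, ∃ u, eval (pt s z) u ≠ 0 ∧ u * H ∈ I ⊔ cyl P ^ a) :
    OO I P a H := by
  intro j
  have h1 : (X (some j) : MvPolynomial (Option ι) ℂ) ∈ (trn (I ⊔ cyl P ^ a) H).radical := by
    rw [← MvPolynomial.vanishingIdeal_zeroLocus_eq_radical (K := ℂ), mem_vanishingIdeal_iff]
    intro x hx
    rw [mem_zeroLocus_iff] at hx
    have hx' : ∀ u, u * H ∈ I ⊔ cyl P ^ a → eval x u = 0 := by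
      intro u hu
      have := hx u hu
      rwa [aeval_eq_eval] at this
    have hz : (fun i => x (some i)) ∈ cone P := by
      intro q hq
      have h2 : (rename some q : MvPolynomial (Option ι) ℂ) ^ a ∈ cyl P ^ a :=
        Ideal.pow_mem_pow (rename_mem_cyl hq) a
      have h3 := hx' _ (Ideal.mem_sup_right (Ideal.mul_mem_right H _ h2))
      rw [map_pow, eval_rename_some] at h3
      by_contra hne
      exact (pow_ne_zero a hne) h3
    rw [aeval_X]
    by_cases h0 : (fun i => x (some i)) = 0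
    · exact congrFun h0 j
    · exfalso
      obtain ⟨u, hu, hu'⟩ := h _ hz h0 (x none)
      rw [pt_eta] at hu
      exact hu (hx' u hu')
  obtain ⟨M, hM⟩ := h1
  exact ⟨M, hM⟩

theorem OO.linear {a : ℕ} {H : MvPolynomial (Option ι) ℂ} (h : OO I P a H)
    {u : MvPolynomial ι ℂ} (hu : u.IsHomogeneous 1) :
    ∃ M : ℕ, ∀ n, M ≤ n → (rename some u : MvPolynomial (Option ι) ℂ) ^ n * H ∈
      I ⊔ cyl P ^ a := by
  have h1 : (rename some u : MvPolynomial (Option ι) ℂ) ∈ (trn (I ⊔ cyl P ^ a) H).radical := by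
    have h2 : u ∈ Submodule.span ℂ (Set.range (X : ι → MvPolynomial ι ℂ)) := by
      rw [← homogeneousSubmodule_one_eq_span_X]; exact hu
    clear hu
    induction h2 using Submodule.span_induction with
    | mem u hu =>
      obtain ⟨j, rfl⟩ := hu
      rw [rename_X]
      obtain ⟨M, hM⟩ := h j
      exact ⟨M, hM⟩
    | zero => rw [map_zero]; exact Ideal.zero_mem _
    | add u v _ _ hu hv => rw [map_add]; exact Ideal.add_mem _ hu hv
    | smul c u _ hu =>
      rw [map_smul, MvPolynomial.smul_eq_C_mul]; exact Ideal.mul_mem_left _ _ hu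
  obtain ⟨M, hM⟩ := h1
  refine ⟨M, fun n hn => ?_⟩
  have h3 := Ideal.mul_mem_left (trn (I ⊔ cyl P ^ a) H)
    ((rename some u : MvPolynomial (Option ι) ℂ) ^ (n - M)) hM
  rw [← pow_add, Nat.sub_add_cancel hn] at h3
  exact h3

theorem OO.uniform {a : ℕ} {H : Fin r → MvPolynomial (Option ι) ℂ} (h : ∀ i, OO I P a (H i))
    (j : ι) : ∃ M : ℕ, ∀ i, X (some j) ^ M * H i ∈ I ⊔ cyl P ^ a := by
  have h1 := fun i => h i j
  choose M hM using h1
  refine ⟨∑ i, M i, fun i => ?_⟩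
  have h2 : M i ≤ ∑ i, M i := Finset.single_le_sum (fun _ _ => Nat.zero_le _) (Finset.mem_univ i)
  have h3 := Ideal.mul_mem_left (I ⊔ cyl P ^ a)
    ((X (some j) : MvPolynomial (Option ι) ℂ) ^ ((∑ i, M i) - M i)) (hM i)
  rw [← mul_assoc, ← pow_add, Nat.sub_add_cancel h2] at h3
  exact h3

theorem Ctx.TT_mem (h : Ctx I P f θ top) (i : Fin r) : TT f θ i ∈ cyl P := by
  rw [TT_eq]
  exact Ideal.sum_mem _ fun κ _ => Ideal.mul_mem_left _ _ (h.FF_mem κ)

theorem rho_C_mul (u : MvPolynomial (Option ι) ℂ)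
    (p : MvPolynomial K (MvPolynomial (Option ι) ℂ)) :
    rho θ top (C u * p) = C u * rho θ top p := by
  rw [map_mul, rho_C]

theorem Ctx.sb_FF (h : Ctx I P f θ top) (κ : K) :
    FF f κ - sb θ top (FF f) κ ∈ Ideal.span (Set.range (TT f θ)) := by
  have h1 : FF f κ - sb θ top (FF f) κ = ∑ i, if κ = top i then TT f θ i else 0 := by
    rw [sb, sub_sub_cancel]
    rfl
  rw [h1]
  refine Ideal.sum_mem _ fun i _ => ?_
  split_ifs
  · exact Ideal.subset_span ⟨i, rfl⟩
  · exact Ideal.zero_mem _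

theorem Ctx.span_TT_le (h : Ctx I P f θ top) : Ideal.span (Set.range (TT f θ)) ≤ cyl P := by
  rw [Ideal.span_le]
  rintro _ ⟨i, rfl⟩
  exact h.TT_mem i

theorem Ctx.sb_FF_mem (h : Ctx I P f θ top) (κ : K) : sb θ top (FF f) κ ∈ cyl P := by
  have h1 := Ideal.sub_mem _ (h.FF_mem κ) (h.span_TT_le (h.sb_FF κ))
  rwa [sub_sub_cancel] at h1

/-- elements of a power of the ideal of the cylinder. -/
theorem Ctx.mem_pow (h : Ctx I P f θ top) {a : ℕ} {q : MvPolynomial (Option ι) ℂ} :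
    q ∈ cyl P ^ a ↔ ∃ p : MvPolynomial K (MvPolynomial (Option ι) ℂ), p.IsHomogeneous a ∧
      eval (FF f) p = q := by
  rw [h.cyl_eq]
  exact Ideal.mem_span_pow_iff_exists_isHomogeneous _ _

theorem sup_mul_le {A : Type*} [CommRing A] (I Q : Ideal A) (a : ℕ) (ha : 1 ≤ a) :
    (I ⊔ Q ^ 2) * Q ^ (a - 1) ≤ I ⊔ Q ^ (a + 1) := by
  rw [Ideal.sup_mul]
  refine sup_le_sup Ideal.mul_le_left ?_
  rw [← pow_add]
  have : 2 + (a - 1) = a + 1 := by omega
  rw [this]

/-- Lemma E: one step. -/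
theorem Ctx.step (h : Ctx I P f θ top) {u₀ u₁ : MvPolynomial ι ℂ} (hu₀ : u₀.IsHomogeneous 1)
    (hu₁ : u₁.IsHomogeneous 1) (hu₀P : u₀ ∉ P) (hreg : Reg P u₀ u₁) {a : ℕ} (ha : 1 ≤ a)
    {H : MvPolynomial (Option ι) ℂ} (hH : OO I P a H) :
    ∃ Q ∈ cyl P ^ a, OO I P (a + 1) (H - Q) := by
  have hPc := cyl_isPrime h.hP.prime
  set U₀ : MvPolynomial (Option ι) ℂ := rename some u₀ with hU₀
  set U₁ : MvPolynomial (Option ι) ℂ := rename some u₁ with hU₁
  have hU₀P : U₀ ∉ cyl P := by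
    intro hm
    apply hu₀P
    have h1 := mem_cyl.1 hm 0
    rwa [hU₀, optionEquivLeft_rename, Polynomial.coeff_C_zero] at h1
  have hregS : Reg (cyl P) U₀ U₁ := by
    intro b c hbc
    rw [cyl_eq_comap, Ideal.mem_comap] at hbc
    have h1 : Polynomial.C u₁ * optionEquivLeft ℂ ι b - Polynomial.C u₀ * optionEquivLeft ℂ ι c ∈
        P.map (Polynomial.C : MvPolynomial ι ℂ →+* Polynomial (MvPolynomial ι ℂ)) := by
      have h2 : optionEquivLeft ℂ ι (U₁ * b - U₀ * c) ∈
        P.map (Polynomial.C : MvPolynomial ι ℂ →+* Polynomial (MvPolynomial ι ℂ)) := hbc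
      rwa [map_sub, map_mul, map_mul, hU₀, hU₁, optionEquivLeft_rename,
        optionEquivLeft_rename] at h2
    obtain ⟨d, hd⟩ := hreg.poly _ _ h1
    refine ⟨(optionEquivLeft ℂ ι).symm d, ?_⟩
    rw [cyl_eq_comap, Ideal.mem_comap]
    change optionEquivLeft ℂ ι (b - U₀ * (optionEquivLeft ℂ ι).symm d) ∈ _
    rw [map_sub, map_mul, AlgEquiv.apply_symm_apply, hU₀, optionEquivLeft_rename]
    exact hd
  -- the equations of the two forms
  obtain ⟨M₀, hM₀⟩ := hH.linear hu₀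
  obtain ⟨M₁, hM₁⟩ := hH.linear hu₁
  set M := max M₀ M₁ with hM
  obtain ⟨g₀, hg₀, q₀, hq₀, e₀⟩ := Submodule.mem_sup.1 (hM₀ M (le_max_left _ _))
  obtain ⟨g₁, hg₁, q₁, hq₁, e₁⟩ := Submodule.mem_sup.1 (hM₁ M (le_max_right _ _))
  obtain ⟨p₀, hp₀, rfl⟩ := h.mem_pow.1 hq₀
  obtain ⟨p₁, hp₁, rfl⟩ := h.mem_pow.1 hq₁
  have hregM := hregS.pow hPc hU₀P M
  have hform : ∀ m, coeff m (C (U₁ ^ M) * rho θ top p₀ - C (U₀ ^ M) * rho θ top p₁) ∈ cyl P := by
    intro m
    have h1 : (C (U₁ ^ M) * p₀ - C (U₀ ^ M) * p₁ :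
        MvPolynomial K (MvPolynomial (Option ι) ℂ)).IsHomogeneous a :=
      (hp₀.C_mul _).sub (hp₁.C_mul _)
    have h2 : eval (FF f) (C (U₁ ^ M) * p₀ - C (U₀ ^ M) * p₁) ∈ I := by
      rw [map_sub, map_mul, map_mul, eval_C, eval_C]
      have e : U₁ ^ M * eval (FF f) p₀ - U₀ ^ M * eval (FF f) p₁ = U₀ ^ M * g₁ - U₁ ^ M * g₀ := by
        have e2 : U₁ ^ M * (g₀ + eval (FF f) p₀) = U₀ ^ M * (g₁ + eval (FF f) p₁) := by
          rw [e₀, e₁]; ring
        linear_combination e2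
      rw [e]
      exact Ideal.sub_mem _ (Ideal.mul_mem_left _ _ hg₁) (Ideal.mul_mem_left _ _ hg₀)
    have h3 := h.rho_coeff h1 h2 m
    rwa [map_sub, rho_C_mul, rho_C_mul] at h3
  obtain ⟨c, hc, hcP⟩ := hregM.form (rho_homog θ top hp₀) hform
  refine ⟨eval (FF f) c, h.mem_pow.2 ⟨c, hc, rfl⟩, ?_⟩
  intro j
  obtain ⟨N, hN⟩ := hH j
  set u : MvPolynomial (Option ι) ℂ := X (some j) ^ N with hu
  obtain ⟨g, hg, q, hq, eu⟩ := Submodule.mem_sup.1 hN
  obtain ⟨pu, hpu, rfl⟩ := h.mem_pow.1 hq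
  -- `rho pu = u c` modulo the ideal of the cylinder
  have hpuc : ∀ m, coeff m (rho θ top pu - C u * c) ∈ cyl P := by
    intro m
    have h1 : (C (U₀ ^ M) * pu - C u * p₀ :
        MvPolynomial K (MvPolynomial (Option ι) ℂ)).IsHomogeneous a :=
      (hpu.C_mul _).sub (hp₀.C_mul _)
    have h2 : eval (FF f) (C (U₀ ^ M) * pu - C u * p₀) ∈ I := by
      rw [map_sub, map_mul, map_mul, eval_C, eval_C]
      have e : U₀ ^ M * eval (FF f) pu - u * eval (FF f) p₀ = u * g₀ - U₀ ^ M * g := by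
        have e2 : U₀ ^ M * (g + eval (FF f) pu) = u * (g₀ + eval (FF f) p₀) := by
          rw [e₀, eu]; ring
        linear_combination e2
      rw [e]
      exact Ideal.sub_mem _ (Ideal.mul_mem_left _ _ hg₀) (Ideal.mul_mem_left _ _ hg)
    have h3 := h.rho_coeff h1 h2 m
    rw [map_sub, rho_C_mul, rho_C_mul, coeff_sub, coeff_C_mul, coeff_C_mul] at h3
    have h4 := hcP m
    rw [coeff_sub, coeff_C_mul] at h4
    have h5 : U₀ ^ M * coeff m (rho θ top pu - C u * c) ∈ cyl P := by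
      have h6 := Ideal.add_mem _ h3 (Ideal.mul_mem_left _ u h4)
      rw [coeff_sub, coeff_C_mul]
      have e : U₀ ^ M * coeff m (rho θ top pu) - u * coeff m (rho θ top p₀) +
          u * (coeff m (rho θ top p₀) - U₀ ^ M * coeff m c) =
          U₀ ^ M * (coeff m (rho θ top pu) - u * coeff m c) := by ring
      rwa [e] at h6
    rcases hPc.mem_or_mem h5 with h6 | h6
    · exact absurd (hPc.mem_of_pow_mem _ h6) hU₀P
    · exact h6
  -- the `T i`
  obtain ⟨N', hN'⟩ := OO.uniform (I := I) (P := P) (a := 2) (H := TT f θ) (fun i =>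
    OO_of_local fun z hz hz0 s => by
      obtain ⟨v, hv, hv'⟩ := h.O2_local hz hz0 s
      exact ⟨v, hv, hv' i⟩) j
  refine ⟨N' + N, ?_⟩
  have d1 : eval (FF f) pu - eval (sb θ top (FF f)) pu ∈
      Ideal.span (Set.range (TT f θ)) * cyl P ^ (a - 1) := by
    refine eval_sub_mem (n := a - 1) h.FF_mem h.sb_FF_mem h.sb_FF ?_
    rwa [Nat.sub_add_cancel ha]
  have d2 : eval (FF f) (rho θ top pu - C u * c) ∈ cyl P ^ (a + 1) := by
    rw [pow_succ']
    exact eval_mem_mul h.FF_mem ((rho_homog θ top hpu).sub (hc.C_mul _)) hpuc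
  have d3 : X (some j) ^ N * (H - eval (FF f) c) = g + (eval (FF f) pu -
      eval (sb θ top (FF f)) pu) + eval (FF f) (rho θ top pu - C u * c) := by
    rw [map_sub, eval_rho, map_mul, eval_C, mul_sub, ← hu, ← eu]
    ring
  rw [pow_add (X (some j) : MvPolynomial (Option ι) ℂ) N' N, mul_assoc, d3, mul_add, mul_add]
  refine Ideal.add_mem _ (Ideal.add_mem _ (Ideal.mul_mem_left _ _ (Ideal.mem_sup_left hg)) ?_)
    (Ideal.mul_mem_left _ _ (Ideal.mem_sup_right d2))
  apply sup_mul_le I (cyl P) a ha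
  refine Submodule.mul_induction_on d1 ?_ ?_
  · intro t ht b hb
    rw [← mul_assoc]
    refine Ideal.mul_mem_mul ?_ hb
    have h7 : Ideal.span (Set.range (TT f θ)) ≤
        trn (I ⊔ cyl P ^ 2) (X (some j) ^ N') := by
      rw [Ideal.span_le]
      rintro _ ⟨i, rfl⟩
      rw [SetLike.mem_coe, mem_trn, mul_comm]
      exact hN' i
    have h8 := mem_trn.1 (h7 ht)
    rwa [mul_comm] at h8
  · intro b c hb hc
    rw [mul_add]
    exact Ideal.add_mem _ hb hc

/-- Lemma E for forms. -/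
theorem Ctx.step_homog (h : Ctx I P f θ top) {u₀ u₁ : MvPolynomial ι ℂ}
    (hu₀ : u₀.IsHomogeneous 1) (hu₁ : u₁.IsHomogeneous 1) (hu₀P : u₀ ∉ P) (hreg : Reg P u₀ u₁)
    {a : ℕ} (ha : 1 ≤ a) {e : ℕ} {H : MvPolynomial (Option ι) ℂ} (hHe : H.IsHomogeneous e)
    (hH : OO I P a H) : ∃ Q ∈ cyl P ^ a, Q.IsHomogeneous e ∧ OO I P (a + 1) (H - Q) := by
  obtain ⟨Q, hQ, hO⟩ := h.step hu₀ hu₁ hu₀P hreg ha hH
  have hcyl := (cyl_HP h.hP.prime h.hP.homog).homog
  refine ⟨homogeneousComponent e Q, homog_pow hcyl a Q hQ e,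
    homogeneousComponent_isHomogeneous e Q, ?_⟩
  have h1 : H - homogeneousComponent e Q = homogeneousComponent e (H - Q) := by
    rw [map_sub, homogeneousComponent_of_mem hHe, if_pos rfl]
  rw [h1]
  intro j
  obtain ⟨M, hM⟩ := hO j
  refine ⟨M, ?_⟩
  have hX : ((X (some j) : MvPolynomial (Option ι) ℂ) ^ M).IsHomogeneous M := by
    have := (isHomogeneous_X ℂ (some j)).pow M
    rwa [one_mul] at this
  rw [← homogeneousComponent_mul_form hX]
  exact homog_sup h.hI.homog (homog_pow hcyl (a + 1)) _ hM _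

/-- elements of small degree of a power of the ideal of the cylinder vanish. -/
theorem coeff_pow_eq_zero {σ : Type*} [Fintype σ] [DecidableEq σ]
    {Q : Ideal (MvPolynomial σ ℂ)} (hQ : ∀ q ∈ Q, coeff 0 q = 0) (a : ℕ) :
    ∀ q ∈ Q ^ a, ∀ m : σ →₀ ℕ, m.degree < a → coeff m q = 0 := by
  induction a with
  | zero => intro q _ m hm; exact absurd hm (Nat.not_lt_zero _)
  | succ a ih =>
    intro q hq m hm
    rw [pow_succ] at hq
    refine Submodule.mul_induction_on hq ?_ ?_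
    · intro b hb c hc
      rw [coeff_mul]
      refine Finset.sum_eq_zero fun x hx => ?_
      rw [Finset.HasAntidiagonal.mem_antidiagonal] at hx
      have h1 : x.1.degree + x.2.degree = m.degree := by rw [← hx, map_add]
      by_cases h2 : x.1.degree < a
      · rw [ih b hb _ h2, zero_mul]
      · have h3 : x.2 = 0 := (Finsupp.degree_eq_zero_iff _).1 (by omega)
        rw [h3, hQ c hc, mul_zero]
    · intro b c hb hc
      rw [coeff_add, hb, hc, add_zero]

theorem Ctx.pow_eq_zero (h : Ctx I P f θ top) {a e : ℕ} (hae : e < a)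
    {Q : MvPolynomial (Option ι) ℂ} (hQ : Q ∈ cyl P ^ a) (hQe : Q.IsHomogeneous e) : Q = 0 := by
  ext m
  rw [coeff_zero]
  by_cases hm : m.degree = e
  · refine coeff_pow_eq_zero ?_ a Q hQ m (by omega)
    intro q hq
    obtain ⟨z, hz, -⟩ := h.hne
    have h0 : (0 : ι → ℂ) ∈ cone P := zero_mem_of_homog h.hP.homog hz
    have h1 : pt 0 (0 : ι → ℂ) ∈ cone (cyl P) := pt_mem_cone_cyl.2 h0
    have h2 := h1 q hq
    have h3 : pt 0 (0 : ι → ℂ) = 0 := by
      funext o
      cases o <;> rfl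
    rw [h3] at h2
    have h4 : eval (0 : Option ι → ℂ) q = constantCoeff q := by
      rw [constantCoeff_eq]
      exact congrFun (congrArg DFunLike.coe (eval_zero' (R := ℂ) (σ := Option ι))) q
    rw [← constantCoeff_eq, ← h4]
    exact h2
  · exact hQe.coeff_eq_zero hm

/-- the successive approximations. -/
theorem Ctx.approx (h : Ctx I P f θ top) {u₀ u₁ : MvPolynomial ι ℂ}
    (hu₀ : u₀.IsHomogeneous 1) (hu₁ : u₁.IsHomogeneous 1) (hu₀P : u₀ ∉ P) (hreg : Reg P u₀ u₁)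
    (i : Fin r) {e : ℕ} (he : (TT f θ i).IsHomogeneous e) (n : ℕ) :
    ∃ H : MvPolynomial (Option ι) ℂ, H.IsHomogeneous e ∧ TT f θ i - H ∈ cyl P ^ 2 ∧
      OO I P (n + 2) H := by
  induction n with
  | zero =>
    refine ⟨TT f θ i, he, by rw [sub_self]; exact Ideal.zero_mem _, ?_⟩
    exact OO_of_local fun z hz hz0 s => by
      obtain ⟨v, hv, hv'⟩ := h.O2_local hz hz0 s
      exact ⟨v, hv, hv' i⟩
  | succ n ih =>
    obtain ⟨H, hH, hTH, hO⟩ := ih
    obtain ⟨Q, hQ, hQe, hO'⟩ := h.step_homog hu₀ hu₁ hu₀P hreg (by omega) hH hO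
    refine ⟨H - Q, hH.sub hQe, ?_, ?_⟩
    · have e1 : TT f θ i - (H - Q) = (TT f θ i - H) + Q := by ring
      rw [e1]
      exact Ideal.add_mem _ hTH (Ideal.pow_le_pow_right (by omega) hQ)
    · exact hO'

/-- all orders for a form of small degree. -/
theorem Ctx.all_orders (h : Ctx I P f θ top) {u₀ u₁ : MvPolynomial ι ℂ}
    (hu₀ : u₀.IsHomogeneous 1) (hu₁ : u₁.IsHomogeneous 1) (hu₀P : u₀ ∉ P) (hreg : Reg P u₀ u₁)
    {e : ℕ} {H : MvPolynomial (Option ι) ℂ} (hHe : H.IsHomogeneous e)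
    (hO : OO I P (e + 2) H) (n : ℕ) : OO I P (e + 2 + n) H := by
  induction n with
  | zero => exact hO
  | succ n ih =>
    obtain ⟨Q, hQ, hQe, hO'⟩ := h.step_homog hu₀ hu₁ hu₀P hreg (by omega) hHe ih
    have hQ0 := h.pow_eq_zero (by omega) hQ hQe
    rw [hQ0, sub_zero] at hO'
    exact hO'

/-- Krull's intersection theorem at one point of the cylinder. -/
theorem Ctx.mem_of_OO (h : Ctx I P f θ top) {H : MvPolynomial (Option ι) ℂ}
    (hO : ∀ a, ∃ b, a ≤ b ∧ OO I P b H) : H ∈ I := by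
  obtain ⟨z, hz, hz0⟩ := h.hne
  obtain ⟨k, hk⟩ := exists_coord hz0
  set x : Option ι → ℂ := pt 0 z with hx
  have hxI : x ∈ cone I := h.hcyl z hz 0
  have hPm : cyl P ≤ mI x := fun q hq => mem_mI.2 ((pt_mem_cone_cyl.2 hz) q hq)
  have hstep : ∀ a : ℕ, H ∈ I ⊔ mI x ^ a := by
    intro a
    obtain ⟨b, hab, hb⟩ := hO a
    obtain ⟨M, hM⟩ := hb k
    have h1 : X (some k) ^ M * H ∈ I ⊔ mI x ^ a := by
      refine (sup_le_sup le_rfl ?_ : I ⊔ cyl P ^ b ≤ I ⊔ mI x ^ a) hM
      exact (Ideal.pow_right_mono hPm b).trans (Ideal.pow_le_pow_right hab)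
    set t : MvPolynomial (Option ι) ℂ := 1 - C ((z k ^ M)⁻¹) * X (some k) ^ M with ht
    have htm : t ∈ mI x := by
      rw [mem_mI, ht, map_sub, map_one, map_mul, eval_C, map_pow, eval_X, hx, pt_some,
        inv_mul_cancel₀ (pow_ne_zero M hk), sub_self]
    obtain ⟨w, hw⟩ := one_sub_dvd_one_sub_pow t a
    have e1 : H = t ^ a * H + C ((z k ^ M)⁻¹) * w * (X (some k) ^ M * H) := by
      have e2 : 1 - t = C ((z k ^ M)⁻¹) * X (some k) ^ M := by rw [ht]; ring
      rw [e2] at hw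
      calc H = t ^ a * H + (1 - t ^ a) * H := by ring
        _ = t ^ a * H + C ((z k ^ M)⁻¹) * w * (X (some k) ^ M * H) := by rw [hw]; ring
    rw [e1]
    exact Ideal.add_mem _ (Ideal.mem_sup_right (Ideal.mul_mem_right _ _ (Ideal.pow_mem_pow htm a)))
      (Ideal.mul_mem_left _ _ h1)
  have hmem : (Ideal.Quotient.mk I H) ∈
      (⨅ i : ℕ, mI x ^ i • ⊤ : Submodule (MvPolynomial (Option ι) ℂ)
        (MvPolynomial (Option ι) ℂ ⧸ I)) := by
    rw [Submodule.mem_iInf]
    intro i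
    obtain ⟨j, hj, f', hf', hsum⟩ := Submodule.mem_sup.1 (hstep i)
    have : Ideal.Quotient.mk I H = f' • (1 : MvPolynomial (Option ι) ℂ ⧸ I) := by
      rw [← hsum, map_add, Ideal.Quotient.eq_zero_iff_mem.2 hj, zero_add]
      change Ideal.Quotient.mk I f' = Ideal.Quotient.mk I (f' * 1)
      rw [mul_one]
    rw [this]
    exact Submodule.smul_mem_smul hf' trivial
  obtain ⟨⟨q, hq⟩, hqh⟩ := (Ideal.mem_iInf_smul_pow_eq_bot_iff (mI x) _).1 hmem
  have h2 : (1 - q) * H ∈ I := by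
    rw [← Ideal.Quotient.eq_zero_iff_mem, map_mul, map_sub, map_one, sub_mul, one_mul]
    have : (Ideal.Quotient.mk I q) * (Ideal.Quotient.mk I H) = Ideal.Quotient.mk I H := by
      rw [← map_mul]; exact hqh
    rw [this, sub_self]
  rcases h.hI.prime.mem_or_mem h2 with h3 | h3
  · exfalso
    have h4 := hxI _ h3
    rw [map_sub, map_one, mem_mI.1 hq, sub_zero] at h4
    exact one_ne_zero h4
  · exact h3

theorem dif_sq {σ : Type*} [Fintype σ] [DecidableEq σ] {Q : Ideal (MvPolynomial σ ℂ)}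
    {x : σ → ℂ} (hx : x ∈ cone Q) {F : MvPolynomial σ ℂ} (hF : F ∈ Q ^ 2) : dif F x = 0 := by
  rw [pow_two] at hF
  refine Submodule.mul_induction_on hF ?_ ?_
  · intro a ha b hb
    rw [dif_mul, hx a ha, hx b hb, zero_smul, zero_smul, add_zero]
  · intro a b ha hb
    rw [dif_add, ha, hb, add_zero]

end H94.Deg.Ext

namespace H94.Deg

open H89.Hart H94.Cubic H94.Deg.Ext

variable {ι : Type*} [Fintype ι] [DecidableEq ι]

/-- F: extension of the splitting to forms of the ideal. -/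
theorem extend {I : Ideal (MvPolynomial (Option ι) ℂ)} {r : ℕ} (hI : Smooth I r)
    {P : Ideal (MvPolynomial ι ℂ)} {c : ℕ} (hP : Smooth P c) {K : Type*} [Fintype K]
    [DecidableEq K] (f : K → MvPolynomial ι ℂ) (e : K → ℕ) (he : ∀ κ, 1 ≤ e κ)
    (hfh : ∀ κ, (f κ).IsHomogeneous (e κ)) (hPf : P = Ideal.span (Set.range f))
    (hli : ∀ z ∈ cone P, z ≠ 0 → LinearIndependent ℂ (fun κ => dif (f κ) z))
    (hne : ∃ z ∈ cone P, z ≠ 0)
    {u₀ u₁ : MvPolynomial ι ℂ} (hu₀ : u₀.IsHomogeneous 1) (hu₁ : u₁.IsHomogeneous 1)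
    (hu₀P : u₀ ∉ P) (hreg : ∀ a b, u₁ * a - u₀ * b ∈ P → ∃ c', a - u₀ * c' ∈ P)
    (hIcyl : I ≤ cyl P) (hcyl : ∀ z ∈ cone P, ∀ s, pt s z ∈ cone I)
    (θ : Fin r → K → MvPolynomial (Option ι) ℂ) (top : Fin r → K)
    (htop : ∀ i l, θ i (top l) = if i = l then 1 else 0) (E : Fin r → ℕ)
    (hE : ∀ i, (TT f θ i).IsHomogeneous (E i))
    (hspan : ∀ z ∈ cone P, z ≠ 0 → ∀ s : ℂ,
      N I (pt s z) = Submodule.span ℂ (Set.range fun i => dif (TT f θ i) (pt s z))) :
    ∃ G : Fin r → MvPolynomial (Option ι) ℂ, (∀ i, G i ∈ I) ∧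
      (∀ i, (G i).IsHomogeneous (E i)) ∧
      ∀ z ∈ cone P, z ≠ 0 → ∀ (s : ℂ) (i), dif (G i) (pt s z) = dif (TT f θ i) (pt s z) := by
  have h : Ctx I P f θ top :=
    ⟨hI, ⟨hP.prime, hP.homog⟩, hPf, hli, hne, hIcyl, hcyl, htop, hspan⟩
  have h1 := fun i => h.approx hu₀ hu₁ hu₀P hreg i (hE i) (E i)
  choose G hG hTG hO using h1
  refine ⟨G, fun i => ?_, hG, fun z hz hz0 s i => ?_⟩
  · refine h.mem_of_OO fun a => ⟨E i + 2 + a, by omega, ?_⟩
    exact h.all_orders hu₀ hu₁ hu₀P hreg (hG i) (hO i) a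
  · have h2 := dif_sq (pt_mem_cone_cyl.2 hz : pt s z ∈ cone (cyl P)) (hTG i)
    rw [dif_sub, sub_eq_zero] at h2
    exact h2.symm

end H94.Deg
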