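import Pool.Agent.H94.Deg.Theta
import Pool.Agent.H94.Deg.Extend
import Pool.Agent.H94.Deg.Cm

/-!
# From the staircase basis to the complete intersection
-/

open MvPolynomial

set_option linter.unusedSectionVars false
set_option linter.unusedVariables false

namespace H94.Deg

open H89.Hart H94.Cubic H18.Sparse

variable {ι : Type*} [Fintype ι] [DecidableEq ι]

theorem li_of_span_eq {V : Type*} [AddCommGroup V] [Module ℂ V] {α : Type*} [Fintype α]
    {v : α → V} {W : Submodule ℂ V} (h : W = Submodule.span ℂ (Set.range v))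
    (hr : Module.finrank ℂ W = Fintype.card α) : LinearIndependent ℂ v := by
  rw [linearIndependent_iff_card_le_finrank_span, Set.finrank, ← h, hr]

/-- From the staircase basis to the complete intersection. -/
theorem main_core {I : Ideal (MvPolynomial (Option ι) ℂ)} {r : ℕ} (hI : Smooth I r)
    (h0 : pt 1 0 ∈ cone I) (F : Fin r → MvPolynomial (Option ι) ℂ) (hF : ∀ i, F i ∈ I)
    (hli : LinearIndependent ℂ (fun i => dif (F i) (pt 1 0)))
    {P : Ideal (MvPolynomial ι ℂ)} {c : ℕ} (hP : Smooth P c) (hJP : J I ≤ P)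
    (hst : ∀ z ∈ cone P, z ≠ 0 → StarT I z) (a : Fin r → ℕ)
    (hbas : ∀ z ∈ cone P, z ≠ 0 →
      LinearIndependent ℂ (fun κ : (Σ i : Fin r, Fin (a i + 1)) =>
        dif (tc ((κ.2 : ℕ) + 1) (F κ.1)) z) ∧
      Submodule.span ℂ (Set.range fun κ : (Σ i : Fin r, Fin (a i + 1)) =>
        dif (tc ((κ.2 : ℕ) + 1) (F κ.1)) z) = N P z)
    (hne : ∃ z ∈ cone P, z ≠ 0) (hr : 1 ≤ r)
    (hn : 2 * c < Fintype.card ι) (hn2 : c + r + 1 < Fintype.card ι) :
    ∃ G : Fin r → MvPolynomial (Option ι) ℂ,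
      (∀ i, (G i).IsHomogeneous (a i + 1)) ∧ I = Ideal.span (Set.range G) ∧
      ∀ x ∈ cone I, x ≠ 0 → LinearIndependent ℂ (fun i => dif (G i) x) := by
  classical
  have hline : ∀ z ∈ cone P, ∀ s, pt s z ∈ cone I := by
    intro z hz s
    have := (mem_cone_J hI h0).1 (cone_anti hJP hz : z ∈ cone (J I)) s 1
    rwa [one_smul] at this
  set f : (Σ i : Fin r, Fin (a i + 1)) → MvPolynomial ι ℂ :=
    fun κ => tc ((κ.2 : ℕ) + 1) (F κ.1) with hf
  obtain ⟨z₁, hz₁, hz₁0⟩ := hne
  have hK : Fintype.card (Σ i : Fin r, Fin (a i + 1)) = c := by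
    have h1 := finrank_span_eq_card (hbas z₁ hz₁ hz₁0).1
    rw [(hbas z₁ hz₁ hz₁0).2, hP.rank z₁ hz₁ hz₁0] at h1
    exact h1.symm
  have hrc : r ≤ c := by
    rw [← hK, Fintype.card_sigma]
    calc r = ∑ i : Fin r, 1 := by simp
      _ ≤ ∑ i, Fintype.card (Fin (a i + 1)) := Finset.sum_le_sum fun i _ => by simp
  have hfP : ∀ κ, f κ ∈ P := fun κ => hJP (tc_mem_J (hF κ.1) _)
  obtain ⟨hPf, u₀, u₁, hu₀, hu₁, hu₀P, hreg⟩ := cm hP f (fun κ => (κ.2 : ℕ) + 1)
    (fun κ => Nat.le_add_left _ _) hfP (fun κ => tc_homog _ _) hK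
    (fun z hz hz0 => (hbas z hz hz0).1) hn (by omega) ⟨z₁, hz₁, hz₁0⟩
  obtain ⟨θ, hθtop, hθh, hθN⟩ := exists_theta hI h0 F hF hli hP hJP hst a hbas hPf
  obtain ⟨G, hGI, hGh, hGd⟩ := extend hI hP f (fun κ => (κ.2 : ℕ) + 1)
    (fun κ => Nat.le_add_left _ _) (fun κ => tc_homog _ _) hPf
    (fun z hz hz0 => (hbas z hz hz0).1) ⟨z₁, hz₁, hz₁0⟩ hu₀ hu₁ hu₀P hreg
    ((le_cyl hI).trans (cyl_mono hJP)) hline
    θ (fun l => ⟨l, Fin.last (a l)⟩) hθtop (fun i => a i + 1) hθh hθN
  -- independence at `(0, z)`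
  have hli0 : ∀ z ∈ cone P, z ≠ 0 → LinearIndependent ℂ (fun i => dif (G i) (pt 0 z)) := by
    intro z hz hz0
    refine li_of_span_eq (W := N I (pt 0 z)) ?_ ?_
    · rw [hθN z hz hz0 0]
      congr 2
      funext i
      exact (hGd z hz hz0 0 i).symm
    · rw [Fintype.card_fin]
      exact hI.rank _ (hline z hz 0) (pt_ne_zero_right hz0 _)
  have hliI : ∀ x ∈ cone I, x ≠ 0 → LinearIndependent ℂ (fun i => dif (G i) x) := by
    intro x hx hx0
    by_contra hdep
    obtain ⟨Q, hQ, hQh, hIQ, hQd, hQdim⟩ := exists_degenerate hI G hGI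
      (fun i => ⟨_, hGh i⟩) hx hx0 hdep
    have hQ' : HP Q := ⟨hQ, hQh⟩
    have hQdm : Fintype.card ι + 1 ≤ dm Q + (r + 1) := by
      rw [dm_eq hQ, Fintype.card_option] at hQdim
      exact_mod_cast hQdim
    obtain ⟨y, hy, hy0, hyl⟩ := ne_zero_of_dm hQ'
      (fun o : Option (Σ i : Fin r, Fin (a i + 1)) =>
        (o.elim (X none) (fun κ => rename some (f κ)) : MvPolynomial (Option ι) ℂ))
      (by
        rintro (_ | κ)
        · simp
        · simp only [Option.elim_some]
          rw [eval_rename]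
          have h1 : ((0 : Option ι → ℂ) ∘ some) = (0 : ℂ) • (0 : ι → ℂ) := by
            funext i; simp
          rw [h1]
          simp only [hf]
          rw [eval_smul_tc, zero_pow (by omega), zero_mul])
      (by rw [Fintype.card_option, hK]; omega)
    have hynone : y none = 0 := by simpa using hyl none
    have hz : (fun i => y (some i)) ∈ cone P := by
      rw [hPf]
      intro g hg
      have : Ideal.span (Set.range f) ≤ RingHom.ker (eval fun i => y (some i)) := by
        rw [Ideal.span_le]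
        rintro _ ⟨κ, rfl⟩
        have h1 := hyl (some κ)
        simp only [Option.elim_some] at h1
        rw [eval_rename] at h1
        exact h1
      exact this hg
    have hyz : y = pt 0 (fun i => y (some i)) := by
      rw [← hynone, pt_eta]
    have hz0 : (fun i => y (some i)) ≠ 0 := by
      intro h
      apply hy0
      rw [hyz, h]
      funext o; cases o <;> rfl
    refine hQd y hy ?_
    rw [hyz]
    exact hli0 _ hz hz0
  refine ⟨G, hGh, ?_, hliI⟩
  exact (cm hI G (fun i => a i + 1) (fun i => Nat.le_add_left _ _) hGI hGh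
    (Fintype.card_fin r) hliI (by rw [Fintype.card_option]; omega)
    (by rw [Fintype.card_option]; omega) ⟨_, h0, pt_ne_zero_left one_ne_zero 0⟩).1

end H94.Deg
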