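import Pool.Agent.H94.Deg.TwoCones
import Pool.Agent.H94.Cubic.Bun

/-!
# The two-cones argument: a relation of top degree holds everywhere if it holds somewhere
-/

open MvPolynomial

set_option linter.unusedSectionVars false
set_option linter.unusedSimpArgs false
set_option linter.unusedVariables false

namespace H94.Deg

open H89.Hart H94.Cubic

variable {ι : Type*} [Fintype ι] [DecidableEq ι]

/-- the gradient. -/
noncomputable def grad (f : MvPolynomial ι ℂ) : ι → MvPolynomial ι ℂ := fun k => pderiv k f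

theorem ev_grad (f : MvPolynomial ι ℂ) (x : ι → ℂ) : ev x (grad f) = dif f x := rfl

theorem grad_homog {f : MvPolynomial ι ℂ} {d : ℕ} (hf : f.IsHomogeneous d) (k : ι) :
    (grad f k).IsHomogeneous (d - 1) := hf.pderiv

theorem exists_form {z : ι → ℂ} (hz : z ≠ 0) (d : ℕ) (c : ℂ) :
    ∃ L : MvPolynomial ι ℂ, L.IsHomogeneous d ∧ eval z L = c := by
  obtain ⟨k, hk⟩ := exists_coord hz
  refine ⟨C (c / z k ^ d) * X k ^ d, ?_, ?_⟩
  · have := (isHomogeneous_C ι (c / z k ^ d)).mul ((isHomogeneous_X ℂ k).pow d)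
    simpa using this
  · simp only [map_mul, eval_C, map_pow, eval_X]
    exact div_mul_cancel₀ _ (pow_ne_zero _ hk)

/-- a family of `c'` elements of a space of dimension `c'`, independent by a nonzero pairing
determinant, spans. -/
theorem span_eq_of_pm {m : Type*} [Fintype m] [DecidableEq m] (G l : m → ι → ℂ)
    (h : (pm G l).det ≠ 0) (S : Submodule ℂ (ι → ℂ)) (hG : ∀ i, G i ∈ S)
    (hS : Module.finrank ℂ S = Fintype.card m) : Submodule.span ℂ (Set.range G) = S := by
  apply Submodule.eq_of_le_of_finrank_eq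
  · rw [Submodule.span_le]
    rintro _ ⟨i, rfl⟩
    exact hG i
  · rw [finrank_span_eq_card (li_of_pm G l h), hS]

/-- The vanishing locus of a section of a bundle of rank `c'`. -/
theorem exists_zero_cone {P : Ideal (MvPolynomial ι ℂ)} (hP : HP P) {γ : Type*}
    (f : γ → MvPolynomial ι ℂ) (c' : ℕ)
    (hrank : ∀ z ∈ cone P, z ≠ 0 →
      Module.finrank ℂ (Submodule.span ℂ (Set.range fun a => dif (f a) z)) = c')
    {g : MvPolynomial ι ℂ} {d : ℕ} (hg : g.IsHomogeneous d)
    (hgs : ∀ z ∈ cone P, dif g z ∈ Submodule.span ℂ (Set.range fun a => dif (f a) z))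
    {z₀ : ι → ℂ} (hz₀ : z₀ ∈ cone P) (hz₀0 : z₀ ≠ 0) (h0 : dif g z₀ = 0) :
    ∃ Q : Ideal (MvPolynomial ι ℂ), HP Q ∧ P ≤ Q ∧ dm P ≤ dm Q + c' ∧
      ∀ z ∈ cone Q, dif g z = 0 := by
  have h1 := Submodule.exists_fun_fin_finrank_span_eq ℂ (Set.range fun a => dif (f a) z₀)
  rw [hrank z₀ hz₀ hz₀0] at h1
  obtain ⟨b, hb1, -, hb3⟩ := h1
  choose σ hσ using hb1
  have hbσ : (fun i => dif (f (σ i)) z₀) = b := funext hσ
  have hli : LinearIndependent ℂ (fun i => dif (f (σ i)) z₀) := by rw [hbσ]; exact hb3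
  obtain ⟨l, hl⟩ := exists_dual_gen _ hli
  obtain ⟨Q, hQ, hPQ, hgQ, hqQ, hdQ⟩ := comp_rel hP (fun j : Fin c' => dd (l j) g)
    (fun j => ⟨d - 1, dd_homog' hg (l j)⟩) (q := z₀) hz₀
    (fun j => by rw [eval_dd, h0, zero_dotProduct])
  rw [Fintype.card_fin] at hdQ
  obtain ⟨k, hk⟩ := exists_coord hz₀0
  have hQp := hQ.prime
  set Δ : MvPolynomial ι ℂ := (pmat (fun i => grad (f (σ i))) l).det with hΔ
  have hΔQ : Δ ∉ Q := det_not_mem hqQ (fun i => grad (f (σ i))) l hl
  have hX : (X k : MvPolynomial ι ℂ) ∉ Q := fun hm => hk (by simpa using hqQ _ hm)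
  have hdF : ∀ v, dd v g ∈ Q := by
    intro v
    have key : X k * Δ * dd v g ∈ Q := by
      apply mem_of_cone hQp
      intro z hz
      rw [map_mul]
      by_cases h2 : eval z (X k * Δ) = 0
      · rw [h2, zero_mul]
      · rw [map_mul, eval_X] at h2
        have h3 : z k ≠ 0 := left_ne_zero_of_mul h2
        have h4 : eval z Δ ≠ 0 := right_ne_zero_of_mul h2
        have hz0 : z ≠ 0 := by rintro rfl; exact h3 rfl
        have hzP := cone_anti hPQ hz
        rw [hΔ, eval_det_pmat] at h4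
        have h5 := span_eq_of_pm _ l h4 (Submodule.span ℂ (Set.range fun a => dif (f a) z))
          (fun i => Submodule.subset_span ⟨σ i, rfl⟩)
          (by rw [hrank z hzP hz0, Fintype.card_fin])
        have h6 := hgs z hzP
        rw [← h5] at h6
        have h7 := cramer_gen _ l h6
        have h8 : (fun j => dif g z ⬝ᵥ l j) = 0 := by
          funext j
          rw [← eval_dd]
          exact hz _ (hgQ j)
        rw [h8] at h7
        simp only [map_zero, Pi.zero_apply, zero_smul, Finset.sum_const_zero] at h7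
        have h9 : dif g z = 0 := (smul_eq_zero.1 h7).resolve_left h4
        rw [eval_dd, h9, zero_dotProduct, mul_zero]
    refine (hQp.mem_or_mem key).resolve_left fun h2 => ?_
    rcases hQp.mem_or_mem h2 with h3 | h3
    · exact hX h3
    · exact hΔQ h3
  refine ⟨Q, hQ, hPQ, hdQ, fun z hz => ?_⟩
  funext i
  have h3 := hz _ (hdF (Pi.single i 1))
  rw [dd_single] at h3
  exact h3

/-- the family `f, h (σ i)`. -/
noncomputable def Gf {α m : Type*} (h : α → MvPolynomial ι ℂ) (σ : m → α)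
    (f : MvPolynomial ι ℂ) (o : Option m) : ι → MvPolynomial ι ℂ :=
  o.elim (grad f) (fun i => grad (h (σ i)))

section Gf

variable {α m : Type*} (h : α → MvPolynomial ι ℂ) (σ : m → α)

theorem ev_Gf_none (f : MvPolynomial ι ℂ) (y : ι → ℂ) : ev y (Gf h σ f none) = dif f y := rfl

theorem ev_Gf_some (f : MvPolynomial ι ℂ) (y : ι → ℂ) (i : m) :
    ev y (Gf h σ f (some i)) = dif (h (σ i)) y := rfl

theorem Gf_li (f : MvPolynomial ι ℂ) (y : ι → ℂ) :
    LinearIndependent ℂ (fun o => ev y (Gf h σ f o)) ↔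
      LinearIndependent ℂ (fun i => dif (h (σ i)) y) ∧
      dif f y ∉ Submodule.span ℂ (Set.range fun i => dif (h (σ i)) y) := by
  rw [linearIndependent_option]
  rfl

variable [Fintype m] [DecidableEq m]

theorem Gf_cramer (f f' : MvPolynomial ι ℂ) (y : ι → ℂ) (l : Option m → ι → ℂ) :
    (pm (fun o => ev y (Gf h σ f o)) l).cramer (fun j => dif f' y ⬝ᵥ l j) none =
      (pm (fun o => ev y (Gf h σ f' o)) l).det := by
  rw [Matrix.cramer_apply]
  congr 1
  ext j o
  cases o with
  | none => rw [Matrix.updateCol_self, pm, Matrix.of_apply, ev_Gf_none]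
  | some i =>
    rw [Matrix.updateCol_ne (by simp), pm, pm, Matrix.of_apply, Matrix.of_apply, ev_Gf_some,
      ev_Gf_some]

theorem Gf_homog {dg : α → ℕ} (hd : ∀ a, (h a).IsHomogeneous (dg a)) {f : MvPolynomial ι ℂ}
    {d : ℕ} (hf : f.IsHomogeneous d) (l : Option m → ι → ℂ) :
    ∃ D, ((pmat (Gf h σ f) l).det).IsHomogeneous D := by
  refine ⟨_, det_homog_col _ (fun o : Option m => o.elim (d - 1) (fun i => dg (σ i) - 1)) ?_⟩
  intro j o
  apply pmat_homog
  intro o k
  cases o with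
  | none => exact grad_homog hf k
  | some i => exact grad_homog (hd (σ i)) k

/-- where the bordered determinant vanishes, the covector lies in the span of the frame. -/
theorem Gf_small {f f' : MvPolynomial ι ℂ} {y : ι → ℂ} {l : Option m → ι → ℂ}
    {S : Submodule ℂ (ι → ℂ)} (hS : Module.finrank ℂ S = Fintype.card m + 1)
    (hle : ∀ o, ev y (Gf h σ f o) ∈ S) (hf' : dif f' y ∈ S)
    (hΔ : eval y (pmat (Gf h σ f) l).det ≠ 0) (hu : eval y (pmat (Gf h σ f') l).det = 0) :
    dif f' y ∈ Submodule.span ℂ (Set.range fun i => dif (h (σ i)) y) := by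
  rw [eval_det_pmat] at hΔ hu
  have h5 := span_eq_of_pm _ l hΔ S hle (by rw [hS, Fintype.card_option])
  rw [← h5] at hf'
  have h7 := cramer_gen _ l hf'
  rw [Fintype.sum_option, Gf_cramer, hu, zero_smul, zero_add] at h7
  have h9 : (pm (fun o => ev y (Gf h σ f o)) l).det • dif f' y ∈
      Submodule.span ℂ (Set.range fun i => dif (h (σ i)) y) := by
    rw [h7]
    exact Submodule.sum_mem _ fun i _ => Submodule.smul_mem _ _
      (Submodule.subset_span ⟨i, rfl⟩)
  exact (Submodule.smul_mem_iff _ hΔ).1 h9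

end Gf

/-- semicontinuity of the rank on an irreducible closed set. -/
theorem rank_le_of_generic {Q' : Ideal (MvPolynomial ι ℂ)} (hQ' : Q'.IsPrime) {α : Type*}
    (h : α → MvPolynomial ι ℂ) (m₁ : ℕ) {Δ : MvPolynomial ι ℂ} (hΔQ : Δ ∉ Q')
    (hsmall : ∀ y ∈ cone Q', y ≠ 0 → eval y Δ ≠ 0 →
      Module.finrank ℂ (Submodule.span ℂ (Set.range fun a => dif (h a) y)) ≤ m₁)
    {z : ι → ℂ} (hz : z ∈ cone Q') (hz0 : z ≠ 0) :
    Module.finrank ℂ (Submodule.span ℂ (Set.range fun a => dif (h a) z)) ≤ m₁ := by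
  by_contra hlt
  rw [not_le] at hlt
  set c' := Module.finrank ℂ (Submodule.span ℂ (Set.range fun a => dif (h a) z)) with hc'
  have h1 := Submodule.exists_fun_fin_finrank_span_eq ℂ (Set.range fun a => dif (h a) z)
  rw [← hc'] at h1
  obtain ⟨b', hb1', -, hb3'⟩ := h1
  choose τ hτ using hb1'
  have hbτ : (fun i => dif (h (τ i)) z) = b' := funext hτ
  have hli' : LinearIndependent ℂ (fun i => dif (h (τ i)) z) := by rw [hbτ]; exact hb3'
  obtain ⟨l', hl'⟩ := exists_dual_gen _ hli'
  have hD : (pmat (fun i => grad (h (τ i))) l').det ∉ Q' :=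
    det_not_mem hz (fun i => grad (h (τ i))) l' hl'
  obtain ⟨k, hk⟩ := exists_coord hz0
  have hX : (X k : MvPolynomial ι ℂ) ∉ Q' := fun hm => hk (by simpa using hz _ hm)
  have hall : X k * (Δ * (pmat (fun i => grad (h (τ i))) l').det) ∉ Q' := by
    intro hm
    rcases hQ'.mem_or_mem hm with h2 | h2
    · exact hX h2
    · rcases hQ'.mem_or_mem h2 with h3 | h3
      · exact hΔQ h3
      · exact hD h3
  apply hall
  apply mem_of_cone hQ'
  intro y hy
  by_contra hne
  rw [map_mul, map_mul, eval_X] at hne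
  have hy1 : y k ≠ 0 := left_ne_zero_of_mul hne
  have hy2 : eval y Δ ≠ 0 := left_ne_zero_of_mul (right_ne_zero_of_mul hne)
  have hy3 := right_ne_zero_of_mul (right_ne_zero_of_mul hne)
  have hy0 : y ≠ 0 := by rintro rfl; exact hy1 rfl
  rw [eval_det_pmat] at hy3
  have h4 := li_of_pm _ l' hy3
  have h5 : Submodule.span ℂ (Set.range fun i => ev y (grad (h (τ i)))) ≤
      Submodule.span ℂ (Set.range fun a => dif (h a) y) := by
    rw [Submodule.span_le]
    rintro _ ⟨i, rfl⟩
    exact Submodule.subset_span ⟨τ i, rfl⟩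
  have h6 := Submodule.finrank_mono h5
  rw [finrank_span_eq_card h4, Fintype.card_fin] at h6
  have h7 := hsmall y hy hy0 hy2
  omega

theorem finrank_span_range_le {m : Type*} [Fintype m] (G : m → ι → ℂ) :
    Module.finrank ℂ (Submodule.span ℂ (Set.range G)) ≤ Fintype.card m :=
  finrank_range_le_card (R := ℂ) G

/-- Local equations of the locus where the covectors `dif (h a)` have small rank. -/
theorem exists_rank_eqs {P : Ideal (MvPolynomial ι ℂ)} {α : Type*} [Fintype α] [DecidableEq α]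
    (h : α → MvPolynomial ι ℂ) (dg : α → ℕ) (hd : ∀ a, (h a).IsHomogeneous (dg a))
    (h₀ : MvPolynomial ι ℂ) (c' : ℕ)
    (hrank : ∀ z ∈ cone P, z ≠ 0 → Module.finrank ℂ (Submodule.span ℂ
      (insert (dif h₀ z) (Set.range fun a => dif (h a) z))) = c')
    {z₁ : ι → ℂ} (hz₁ : z₁ ∈ cone P) (hz₁0 : z₁ ≠ 0)
    (hnot : dif h₀ z₁ ∉ Submodule.span ℂ (Set.range fun a => dif (h a) z₁)) :
    ∃ (B : Finset α) (u : α → MvPolynomial ι ℂ), B.card + c' = Fintype.card α + 1 ∧
      (∀ a, ∃ d, (u a).IsHomogeneous d) ∧ (∀ a, eval z₁ (u a) = 0) ∧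
      ∀ Q' : Ideal (MvPolynomial ι ℂ), Q'.IsPrime → P ≤ Q' → (∀ a ∈ B, u a ∈ Q') →
        z₁ ∈ cone Q' → ∀ z ∈ cone Q', z ≠ 0 →
          dif h₀ z ∉ Submodule.span ℂ (Set.range fun a => dif (h a) z) := by
  classical
  set m₁ := Module.finrank ℂ (Submodule.span ℂ (Set.range fun a => dif (h a) z₁)) with hm₁
  have h1 := Submodule.exists_fun_fin_finrank_span_eq ℂ (Set.range fun a => dif (h a) z₁)
  rw [← hm₁] at h1
  obtain ⟨b, hb1, hb2, hb3⟩ := h1
  choose σ hσ using hb1
  have hbσ : (fun i => dif (h (σ i)) z₁) = b := funext hσ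
  have hli : LinearIndependent ℂ (fun i => dif (h (σ i)) z₁) := by rw [hbσ]; exact hb3
  have hsp : Submodule.span ℂ (Set.range fun i => dif (h (σ i)) z₁) =
      Submodule.span ℂ (Set.range fun a => dif (h a) z₁) := by rw [hbσ]; exact hb2
  have hσi : Function.Injective σ := by
    intro i j hij
    exact hli.injective (by simp only [hij])
  have hLI₀ : LinearIndependent ℂ (fun o => ev z₁ (Gf h σ h₀ o)) := by
    rw [Gf_li]
    exact ⟨hli, by rw [hsp]; exact hnot⟩
  have hle : ∀ y : ι → ℂ, ∀ o, ev y (Gf h σ h₀ o) ∈ Submodule.span ℂ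
      (insert (dif h₀ y) (Set.range fun a => dif (h a) y)) := by
    intro y o
    cases o with
    | none => exact Submodule.subset_span (Set.mem_insert _ _)
    | some i => exact Submodule.subset_span (Set.mem_insert_of_mem _ ⟨σ i, rfl⟩)
  have hc' : c' = m₁ + 1 := by
    have h2 : Submodule.span ℂ (Set.range fun o => ev z₁ (Gf h σ h₀ o)) = Submodule.span ℂ
        (insert (dif h₀ z₁) (Set.range fun a => dif (h a) z₁)) := by
      apply le_antisymm
      · rw [Submodule.span_le]
        rintro _ ⟨o, rfl⟩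
        exact hle z₁ o
      · rw [Submodule.span_le]
        rintro v (rfl | hv)
        · exact Submodule.subset_span ⟨none, rfl⟩
        · have h3 : v ∈ Submodule.span ℂ (Set.range fun i => dif (h (σ i)) z₁) := by
            rw [hsp]; exact Submodule.subset_span hv
          refine Submodule.span_mono ?_ h3
          rintro _ ⟨i, rfl⟩
          exact ⟨some i, rfl⟩
    have h4 := hrank z₁ hz₁ hz₁0
    rw [← h2, finrank_span_eq_card hLI₀, Fintype.card_option, Fintype.card_fin] at h4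
    exact h4.symm
  obtain ⟨l, hl⟩ := exists_dual_gen _ hLI₀
  refine ⟨(Finset.univ.image σ)ᶜ, fun a => (pmat (Gf h σ (h a)) l).det, ?_, ?_, ?_, ?_⟩
  · rw [Finset.card_compl, Finset.card_image_of_injective _ hσi, Finset.card_univ,
      Fintype.card_fin, hc']
    have : m₁ ≤ Fintype.card α := by
      have := Fintype.card_le_of_injective σ hσi
      rwa [Fintype.card_fin] at this
    omega
  · intro a
    exact Gf_homog h σ hd (hd a) l
  · intro a
    rw [eval_det_pmat]
    by_contra hc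
    have h2 := li_of_pm _ l hc
    rw [Gf_li] at h2
    apply h2.2
    rw [hsp]
    exact Submodule.subset_span ⟨a, rfl⟩
  · intro Q' hQ' hPQ' huQ' hz₁Q' z hz hz0 hmem
    have hΔQ : (pmat (Gf h σ h₀) l).det ∉ Q' := det_not_mem hz₁Q' (Gf h σ h₀) l hl
    have hT : Module.finrank ℂ (Submodule.span ℂ (Set.range fun a => dif (h a) z)) = c' := by
      rw [← hrank z (cone_anti hPQ' hz) hz0, Submodule.span_insert_eq_span hmem]
    have hlast : Module.finrank ℂ (Submodule.span ℂ (Set.range fun a => dif (h a) z)) ≤ m₁ := by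
      refine rank_le_of_generic hQ' h m₁ hΔQ (fun y hy hy0 hyΔ => ?_) hz hz0
      have h3 : Submodule.span ℂ (Set.range fun a => dif (h a) y) ≤
          Submodule.span ℂ (Set.range fun i => dif (h (σ i)) y) := by
        rw [Submodule.span_le]
        rintro _ ⟨a, rfl⟩
        by_cases ha : a ∈ Finset.univ.image σ
        · obtain ⟨i, -, rfl⟩ := Finset.mem_image.1 ha
          exact Submodule.subset_span ⟨i, rfl⟩
        · exact Gf_small h σ (by rw [hrank y (cone_anti hPQ' hy) hy0, Fintype.card_fin, hc'])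
            (hle y) (Submodule.subset_span (Set.mem_insert_of_mem _ ⟨a, rfl⟩)) hyΔ
            (hy _ (huQ' a (Finset.mem_compl.2 ha)))
      have h4 := Submodule.finrank_mono h3
      have h5 := finrank_span_range_le (fun i => dif (h (σ i)) y)
      rw [Fintype.card_fin] at h5
      omega
    omega

/-- D1a: a relation of top degree holds everywhere if it holds somewhere. -/
theorem fn_one {P : Ideal (MvPolynomial ι ℂ)} {c : ℕ} (hP : Smooth P c)
    (hdm : dm P + c = Fintype.card ι) {α : Type*} [Fintype α] [DecidableEq α]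
    (h : α → MvPolynomial ι ℂ) (dg : α → ℕ) (hh : ∀ a, h a ∈ P)
    (hd : ∀ a, (h a).IsHomogeneous (dg a)) (h₀ : MvPolynomial ι ℂ) (d₀ : ℕ) (hh₀ : h₀ ∈ P)
    (hd₀ : h₀.IsHomogeneous d₀) (hle : ∀ a, dg a ≤ d₀) (c' : ℕ)
    (hrank : ∀ z ∈ cone P, z ≠ 0 → Module.finrank ℂ (Submodule.span ℂ
      (insert (dif h₀ z) (Set.range fun a => dif (h a) z))) = c')
    (hn : 2 * c + Fintype.card α + 1 < Fintype.card ι) {z₀ z₁ : ι → ℂ} (hz₀ : z₀ ∈ cone P)
    (hz₀0 : z₀ ≠ 0) (hz₁ : z₁ ∈ cone P) (hz₁0 : z₁ ≠ 0)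
    (hrel : dif h₀ z₀ ∈ Submodule.span ℂ (Set.range fun a => dif (h a) z₀)) :
    dif h₀ z₁ ∈ Submodule.span ℂ (Set.range fun a => dif (h a) z₁) := by
  by_contra hnot
  obtain ⟨lam, hlam⟩ := (Submodule.mem_span_range_iff_exists_fun ℂ).1 hrel
  choose L hLh hLe using fun a => exists_form hz₀0 (d₀ - dg a) (lam a)
  set g : MvPolynomial ι ℂ := h₀ - ∑ a, L a * h a with hg
  have hgh : g.IsHomogeneous d₀ := by
    rw [hg]
    refine hd₀.sub (IsHomogeneous.sum _ _ _ fun a _ => ?_)
    have h1 := (hLh a).mul (hd a)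
    rwa [Nat.sub_add_cancel (hle a)] at h1
  have hdg : ∀ z ∈ cone P, dif g z = dif h₀ z - ∑ a, eval z (L a) • dif (h a) z := by
    intro z hz
    rw [hg, dif_sub, dif_sum]
    congr 1
    refine Finset.sum_congr rfl fun a _ => ?_
    rw [dif_mul, hz _ (hh a)]
    simp
  have hg0 : dif g z₀ = 0 := by
    rw [hdg z₀ hz₀, ← hlam, sub_eq_zero]
    exact Finset.sum_congr rfl fun a _ => by rw [hLe]
  have hPP : HP P := ⟨hP.prime, hP.homog⟩
  have hrange : ∀ z : ι → ℂ, (Set.range fun o : Option α => dif (o.elim h₀ h) z) =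
      insert (dif h₀ z) (Set.range fun a => dif (h a) z) := by
    intro z
    ext v
    constructor
    · rintro ⟨o, rfl⟩
      cases o with
      | none => exact Set.mem_insert _ _
      | some a => exact Set.mem_insert_of_mem _ ⟨a, rfl⟩
    · rintro (rfl | ⟨a, rfl⟩)
      · exact ⟨none, rfl⟩
      · exact ⟨some a, rfl⟩
  obtain ⟨Q, hQ, hPQ, hdQ, hgQ⟩ := exists_zero_cone hPP (fun o : Option α => o.elim h₀ h) c'
    (fun z hz hz0 => by rw [hrange]; exact hrank z hz hz0) hgh
    (fun z hz => by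
      rw [hrange, hdg z hz]
      refine Submodule.sub_mem _ (Submodule.subset_span (Set.mem_insert _ _)) ?_
      exact Submodule.sum_mem _ fun a _ => Submodule.smul_mem _ _
        (Submodule.subset_span (Set.mem_insert_of_mem _ ⟨a, rfl⟩)))
    hz₀ hz₀0 hg0
  obtain ⟨B, u, hcard, huh, hu0, hu⟩ := exists_rank_eqs h dg hd h₀ c' hrank hz₁ hz₁0 hnot
  obtain ⟨Q', hQ', hPQ', huQ', hz₁Q', z, hzQ, hz0, hzQ'⟩ := two_cones hP hQ hz₁ hz₁0
    (fun b : B => u b) (fun b => huh b) (fun b => hu0 b)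
    (by
      rw [Fintype.card_coe]
      omega)
  refine hu Q' hQ' hPQ' (fun a ha => huQ' ⟨a, ha⟩) hz₁Q' z hzQ' hz0 ?_
  have h1 := hgQ z hzQ
  rw [hdg z (cone_anti hPQ hzQ), sub_eq_zero] at h1
  rw [h1]
  exact Submodule.sum_mem _ fun a _ => Submodule.smul_mem _ _ (Submodule.subset_span ⟨a, rfl⟩)

end H94.Deg
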