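import Pool.Agent.H94.Deg.Defs
import Pool.Agent.H94.Deg.FnOne

/-!
# DEG-D1b (helper41): the greedy basis does not depend on the point
-/

open MvPolynomial

namespace H94.Deg

open H89.Hart H94.Cubic

namespace GreedyAux

section LA

variable {K V α : Type*} [Field K] [AddCommGroup V] [Module K V] [Fintype α] [LinearOrder α]

/-- the greedy family spans -/
theorem greedy_span (v : α → V) (B : Finset α)
    (hB : ∀ a, a ∈ B ↔ v a ∉ Submodule.span K (v '' Set.Iio a)) :
    Submodule.span K (Set.range fun a : B => v a) = Submodule.span K (Set.range v) := by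
  refine le_antisymm (Submodule.span_mono ?_) (Submodule.span_le.2 ?_)
  · rintro _ ⟨a, rfl⟩
    exact ⟨a, rfl⟩
  · rintro _ ⟨a, rfl⟩
    have key : ∀ a, v a ∈ Submodule.span K (Set.range fun a : B => v a) := by
      intro a
      induction a using WellFoundedLT.induction with
      | ind a ih =>
        by_cases ha : a ∈ B
        · exact Submodule.subset_span ⟨⟨a, ha⟩, rfl⟩
        · have h1 : v a ∈ Submodule.span K (v '' Set.Iio a) := by
            by_contra hcon
            exact ha ((hB a).2 hcon)
          refine (Submodule.span_le.2 ?_) h1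
          rintro _ ⟨b, hb, rfl⟩
          exact ih b hb
    exact key a

omit [Fintype α] in
/-- the greedy family is independent -/
theorem greedy_indep (v : α → V) (B : Finset α)
    (hB : ∀ a, a ∈ B ↔ v a ∉ Submodule.span K (v '' Set.Iio a)) :
    LinearIndependent K (fun a : B => v a) := by
  classical
  rw [linearIndependent_iff']
  intro s g hs i hi
  by_contra hgi
  have hne : (s.filter (fun j => g j ≠ 0)).Nonempty := ⟨i, Finset.mem_filter.2 ⟨hi, hgi⟩⟩
  obtain ⟨m, hm, hmax⟩ := Finset.exists_max_image _ (fun j : B => (j : α)) hne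
  rw [Finset.mem_filter] at hm
  have h1 : g m • v m = - ∑ j ∈ s.erase m, g j • v j := by
    rw [← Finset.add_sum_erase s _ hm.1] at hs
    exact eq_neg_of_add_eq_zero_left hs
  have h2 : v m ∈ Submodule.span K (v '' Set.Iio (m : α)) := by
    have h3 : v m = (g m)⁻¹ • (g m • v m) := by rw [smul_smul, inv_mul_cancel₀ hm.2, one_smul]
    rw [h3, h1]
    refine Submodule.smul_mem _ _ (Submodule.neg_mem _ (Submodule.sum_mem _ fun j hj => ?_))
    rw [Finset.mem_erase] at hj
    by_cases hgj : g j = 0
    · rw [hgj, zero_smul]; exact Submodule.zero_mem _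
    · refine Submodule.smul_mem _ _ (Submodule.subset_span ⟨j, ?_, rfl⟩)
      have h4 := hmax j (Finset.mem_filter.2 ⟨hj.2, hgj⟩)
      exact lt_of_le_of_ne h4 (fun h => hj.1 (Subtype.ext h))
  exact (hB m).1 m.2 h2

/-- ranks of `S` and `insert x S` -/
theorem finrank_insert_notMem [FiniteDimensional K V] {x : V} {S : Set V}
    (hx : x ∉ Submodule.span K S) :
    Module.finrank K (Submodule.span K (insert x S)) = Module.finrank K (Submodule.span K S) + 1 := by
  refine le_antisymm ?_ ?_
  · rw [Submodule.span_insert]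
    refine (Submodule.finrank_add_le_finrank_add_finrank _ _).trans ?_
    have : Module.finrank K (Submodule.span K ({x} : Set V)) ≤ 1 := by
      rcases eq_or_ne x 0 with rfl | hx0
      · rw [Submodule.span_zero_singleton, finrank_bot]; omega
      · rw [finrank_span_singleton hx0]
    omega
  · refine Submodule.finrank_lt_finrank_of_lt (lt_of_le_of_ne
      (Submodule.span_mono (Set.subset_insert _ _)) fun h => hx ?_)
    rw [h]
    exact Submodule.subset_span (Set.mem_insert _ _)

end LA

end GreedyAux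

open GreedyAux

variable {ι : Type*} [Fintype ι] [DecidableEq ι]

/-- D1b: the greedy basis does not depend on the point. -/
theorem greedy {P : Ideal (MvPolynomial ι ℂ)} {c : ℕ} (hP : Smooth P c)
    (hdm : dm P + c = Fintype.card ι) {α : Type*} [Fintype α] [LinearOrder α]
    (h : α → MvPolynomial ι ℂ) (dg : α → ℕ) (hh : ∀ a, h a ∈ P)
    (hd : ∀ a, (h a).IsHomogeneous (dg a)) (hmono : Monotone dg)
    (hspan : ∀ z ∈ cone P, z ≠ 0 →
      Submodule.span ℂ (Set.range fun a => dif (h a) z) = N P z)
    (hn : 2 * c + Fintype.card α < Fintype.card ι) (hne : ∃ z ∈ cone P, z ≠ 0) :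
    ∃ B : Finset α, ∀ z ∈ cone P, z ≠ 0 →
      LinearIndependent ℂ (fun a : B => dif (h a) z) ∧
      Submodule.span ℂ (Set.range fun a : B => dif (h a) z) = N P z ∧
      ∀ a, a ∈ B ↔ dif (h a) z ∉ Submodule.span ℂ ((fun b => dif (h b) z) '' Set.Iio a) := by
  classical
  -- the fundamental step
  have step : ∀ a : α, (∃ c', ∀ z ∈ cone P, z ≠ 0 → Module.finrank ℂ (Submodule.span ℂ
      ((fun b => dif (h b) z) '' Set.Iic a)) = c') →
      ∀ z₀ ∈ cone P, z₀ ≠ 0 → ∀ z₁ ∈ cone P, z₁ ≠ 0 →
      dif (h a) z₀ ∈ Submodule.span ℂ ((fun b => dif (h b) z₀) '' Set.Iio a) →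
      dif (h a) z₁ ∈ Submodule.span ℂ ((fun b => dif (h b) z₁) '' Set.Iio a) := by
    rintro a ⟨c', hc'⟩ z₀ hz₀ hz₀0 z₁ hz₁ hz₁0 hrel
    have e1 : ∀ z : ι → ℂ, (Set.range fun b : Set.Iio a => dif (h b) z) =
        (fun b => dif (h b) z) '' Set.Iio a := by
      intro z
      ext w
      constructor
      · rintro ⟨b, rfl⟩; exact ⟨b, b.2, rfl⟩
      · rintro ⟨b, hb, rfl⟩; exact ⟨⟨b, hb⟩, rfl⟩
    have e2 : ∀ z : ι → ℂ, insert (dif (h a) z) (Set.range fun b : Set.Iio a => dif (h b) z) =
        (fun b => dif (h b) z) '' Set.Iic a := by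
      intro z
      rw [e1, ← Set.Iio_insert, Set.image_insert_eq]
    have hcard : Fintype.card (Set.Iio a) + 1 ≤ Fintype.card α := by
      have : Fintype.card (Set.Iio a) < Fintype.card α :=
        Fintype.card_subtype_lt (p := fun b => b ∈ Set.Iio a) (x := a) (lt_irrefl a)
      omega
    have := fn_one hP hdm (α := Set.Iio a) (fun b => h b) (fun b => dg b) (fun b => hh b)
      (fun b => hd b) (h a) (dg a) (hh a) (hd a) (fun b => hmono b.2.le) c'
      (fun z hz hz0 => by rw [e2]; exact hc' z hz hz0) (by omega) hz₀ hz₀0 hz₁ hz₁0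
      (by rw [e1]; exact hrel)
    rwa [e1] at this
  -- ranks of the initial spans are constant
  have step2 : ∀ a : α, (∃ c', ∀ z ∈ cone P, z ≠ 0 → Module.finrank ℂ (Submodule.span ℂ
      ((fun b => dif (h b) z) '' Set.Iic a)) = c') →
      (∃ c', ∀ z ∈ cone P, z ≠ 0 → Module.finrank ℂ (Submodule.span ℂ
      ((fun b => dif (h b) z) '' Set.Iio a)) = c') := by
    rintro a ⟨c', hc'⟩
    obtain ⟨z₀, hz₀, hz₀0⟩ := hne
    by_cases hin : dif (h a) z₀ ∈ Submodule.span ℂ ((fun b => dif (h b) z₀) '' Set.Iio a)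
    · refine ⟨c', fun z hz hz0 => ?_⟩
      rw [← hc' z hz hz0, ← Set.Iio_insert, Set.image_insert_eq,
        Submodule.span_insert_eq_span (step a ⟨c', hc'⟩ z₀ hz₀ hz₀0 z hz hz0 hin)]
    · refine ⟨c' - 1, fun z hz hz0 => ?_⟩
      have h1 : dif (h a) z ∉ Submodule.span ℂ ((fun b => dif (h b) z) '' Set.Iio a) :=
        fun hcon => hin (step a ⟨c', hc'⟩ z hz hz0 z₀ hz₀ hz₀0 hcon)
      rw [← hc' z hz hz0, ← Set.Iio_insert, Set.image_insert_eq, finrank_insert_notMem h1]
      rfl
  have main : ∀ n : ℕ, ∀ a : α, (Finset.univ.filter (fun b => a < b)).card = n →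
      (∃ c', ∀ z ∈ cone P, z ≠ 0 → Module.finrank ℂ (Submodule.span ℂ
      ((fun b => dif (h b) z) '' Set.Iic a)) = c') := by
    intro n
    induction n with
    | zero =>
      intro a ha
      rw [Finset.card_eq_zero, Finset.filter_eq_empty_iff] at ha
      have h1 : Set.Iic a = Set.univ := by
        ext b
        simp only [Set.mem_Iic, Set.mem_univ, iff_true]
        exact not_lt.1 (ha (Finset.mem_univ b))
      refine ⟨c, fun z hz hz0 => ?_⟩
      rw [h1, Set.image_univ, hspan z hz hz0, hP.rank z hz hz0]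
    | succ n ih =>
      intro a ha
      have hne' : (Finset.univ.filter (fun b => a < b)).Nonempty := by
        rw [← Finset.card_pos]; omega
      set b := (Finset.univ.filter (fun b => a < b)).min' hne' with hb
      have hab : a < b := (Finset.mem_filter.1 (Finset.min'_mem _ hne')).2
      have h1 : Set.Iio b = Set.Iic a := by
        ext x
        simp only [Set.mem_Iio, Set.mem_Iic]
        constructor
        · intro hx
          by_contra hcon
          have := Finset.min'_le _ x (Finset.mem_filter.2 ⟨Finset.mem_univ x, not_le.1 hcon⟩)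
          exact absurd hx (not_lt.2 this)
        · intro hx
          exact lt_of_le_of_lt hx hab
      have h2 : (Finset.univ.filter (fun x => b < x)).card = n := by
        have h3 : (Finset.univ.filter (fun x => b < x)) =
            (Finset.univ.filter (fun x => a < x)).erase b := by
          ext x
          simp only [Finset.mem_filter, Finset.mem_univ, true_and, Finset.mem_erase]
          constructor
          · intro hx
            exact ⟨hx.ne', hab.trans hx⟩
          · rintro ⟨hx1, hx2⟩
            refine lt_of_le_of_ne ?_ hx1.symm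
            exact Finset.min'_le _ x (Finset.mem_filter.2 ⟨Finset.mem_univ x, hx2⟩)
        rw [h3, Finset.card_erase_of_mem (Finset.min'_mem _ hne'), ha]
        rfl
      have h4 := step2 b (ih b h2)
      rwa [h1] at h4
  obtain ⟨z₀, hz₀, hz₀0⟩ := hne
  refine ⟨Finset.univ.filter (fun a => dif (h a) z₀ ∉
    Submodule.span ℂ ((fun b => dif (h b) z₀) '' Set.Iio a)), fun z hz hz0 => ?_⟩
  have hB : ∀ a, a ∈ Finset.univ.filter (fun a => dif (h a) z₀ ∉
      Submodule.span ℂ ((fun b => dif (h b) z₀) '' Set.Iio a)) ↔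
      dif (h a) z ∉ Submodule.span ℂ ((fun b => dif (h b) z) '' Set.Iio a) := by
    intro a
    rw [Finset.mem_filter]
    constructor
    · rintro ⟨-, h1⟩ h2
      exact h1 (step a (main _ a rfl) z hz hz0 z₀ hz₀ hz₀0 h2)
    · intro h1
      exact ⟨Finset.mem_univ _, fun h2 => h1 (step a (main _ a rfl) z₀ hz₀ hz₀0 z hz hz0 h2)⟩
  refine ⟨greedy_indep (fun a => dif (h a) z) _ hB, ?_, hB⟩
  rw [← hspan z hz hz0]
  exact greedy_span (fun a => dif (h a) z) _ hB

end H94.Deg
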