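import Pool.Agent.H94.Deg.Base
import Pool.Agent.H94.Deg.Greedy

set_option linter.unusedSectionVars false

/-!
# The staircase basis of the conormal spaces
-/

open MvPolynomial

namespace H94.Deg

open H89.Hart H94.Cubic

variable {ι : Type*} [Fintype ι] [DecidableEq ι]

namespace Stair

/-- the double annihilator in finite dimension. -/
theorem mem_of_perp (S : Submodule ℂ (ι → ℂ)) (x : ι → ℂ)
    (h : ∀ v : ι → ℂ, (∀ φ ∈ S, φ ⬝ᵥ v = 0) → x ⬝ᵥ v = 0) : x ∈ S := by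
  by_contra hx
  obtain ⟨f, hf, hfS⟩ := Submodule.exists_le_ker_of_notMem hx
  obtain ⟨v, hv⟩ : ∃ v : ι → ℂ, ∀ φ : ι → ℂ, φ ⬝ᵥ v = f φ := by
    refine ⟨fun i => f (Pi.single i 1), fun φ => ?_⟩
    have h1 : φ = ∑ i, φ i • (Pi.single i (1 : ℂ) : ι → ℂ) := by
      funext j
      simp [Finset.sum_apply, Pi.single_apply]
    conv_rhs => rw [h1]
    rw [_root_.map_sum]
    simp only [map_smul, smul_eq_mul, dotProduct]
  apply hf
  rw [← hv]
  exact h v fun φ hφ => by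
    rw [hv]
    exact hfS hφ

section

variable {I : Ideal (MvPolynomial (Option ι) ℂ)}

/-- the linear parts are independent. -/
theorem li_tc_one {r : ℕ} (hI : Smooth I r) (h0 : pt 1 0 ∈ cone I)
    (F : Fin r → MvPolynomial (Option ι) ℂ) (hF : ∀ i, F i ∈ I)
    (hli : LinearIndependent ℂ (fun i => dif (F i) (pt 1 0))) (z : ι → ℂ) :
    LinearIndependent ℂ (fun i => dif (tc 1 (F i)) z) := by
  rw [Fintype.linearIndependent_iff] at hli ⊢
  intro g hg
  apply hli g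
  funext o
  rw [Finset.sum_apply]
  cases o with
  | none =>
    refine Finset.sum_eq_zero fun i _ => ?_
    rw [Pi.smul_apply, dif_base hI h0 (hF i) z]
    simp [pt]
  | some j =>
    have h1 := congrFun hg j
    rw [Finset.sum_apply] at h1
    rw [Pi.zero_apply] at h1 ⊢
    rw [← h1]
    refine Finset.sum_congr rfl fun i _ => ?_
    rw [Pi.smul_apply, Pi.smul_apply, dif_base hI h0 (hF i) z]
    rfl

/-- the span of the members of the family before `(k, i)`. -/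
def Sp {r : ℕ} (F : Fin r → MvPolynomial (Option ι) ℂ) (d : Fin r → ℕ) (z : ι → ℂ) (k : ℕ)
    (i : Fin r) : Submodule ℂ (ι → ℂ) :=
  Submodule.span ℂ {v | ∃ k' i', k' < d i' ∧ (k' < k ∨ (k' = k ∧ i' < i)) ∧
    v = dif (tc (k' + 1) (F i')) z}

theorem Sp_mono {r : ℕ} (F : Fin r → MvPolynomial (Option ι) ℂ) (d : Fin r → ℕ) (z : ι → ℂ)
    {k k' : ℕ} {i i' : Fin r} (h : k < k' ∨ (k = k' ∧ i ≤ i')) : Sp F d z k i ≤ Sp F d z k' i' := by
  refine Submodule.span_mono ?_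
  rintro v ⟨m, j, hm, hmj, rfl⟩
  refine ⟨m, j, hm, ?_, rfl⟩
  rcases h with h | ⟨h, h'⟩
  · left
    rcases hmj with h2 | ⟨h2, -⟩
    · omega
    · omega
  · rcases hmj with h2 | ⟨h2, h3⟩
    · left; omega
    · right; exact ⟨by omega, lt_of_lt_of_le h3 h'⟩

theorem step {r : ℕ} (hI : Smooth I r) (h0 : pt 1 0 ∈ cone I)
    (F : Fin r → MvPolynomial (Option ι) ℂ) (d : Fin r → ℕ) (hF : ∀ i, F i ∈ I)
    (hli : LinearIndependent ℂ (fun i => dif (F i) (pt 1 0))) {z : ι → ℂ} (hz : z ∈ cone (J I))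
    (hst : StarT I z)
    (htop : ∀ i k, d i ≤ k → (∃ j, k < d j) → dif (tc (k + 1) (F i)) z ∈ Sp F d z k i)
    (k : ℕ) (i : Fin r) (hk : k + 1 < d i) (h : dif (tc (k + 1) (F i)) z ∈ Sp F d z k i) :
    dif (tc (k + 2) (F i)) z ∈ Sp F d z (k + 1) i := by
  have hone : ∀ i', dif (tc 1 (F i')) z ∈ Sp F d z (k + 1) i := by
    intro i'
    by_cases hi' : 0 < d i'
    · exact Submodule.subset_span ⟨0, i', hi', Or.inl (by omega), rfl⟩
    · exact Sp_mono F d z (Or.inl (by omega)) (htop i' 0 (by omega) ⟨i, by omega⟩)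
  have key : ∀ x ∈ Sp F d z k i, ∃ y ∈ Sp F d z (k + 1) i, ∀ v w : ι → ℂ,
      (∀ G ∈ I, ∀ k, dif (tc (k + 1) G) z ⬝ᵥ v + dif (tc k G) z ⬝ᵥ w = 0) →
      y ⬝ᵥ v + x ⬝ᵥ w = 0 := by
    intro x hx
    refine Submodule.span_induction (p := fun x _ => ∃ y ∈ Sp F d z (k + 1) i, ∀ v w : ι → ℂ,
      (∀ G ∈ I, ∀ k, dif (tc (k + 1) G) z ⬝ᵥ v + dif (tc k G) z ⬝ᵥ w = 0) →
      y ⬝ᵥ v + x ⬝ᵥ w = 0) ?_ ?_ ?_ ?_ hx
    · rintro x ⟨k', i', hd', hk', rfl⟩
      refine ⟨dif (tc (k' + 1 + 1) (F i')) z, ?_, fun v w hvw => hvw _ (hF i') _⟩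
      by_cases hk1 : k' + 1 < d i'
      · refine Submodule.subset_span ⟨k' + 1, i', hk1, ?_, rfl⟩
        rcases hk' with hk' | ⟨hk', hi⟩
        · exact Or.inl (by omega)
        · exact Or.inr ⟨by omega, hi⟩
      · refine Sp_mono F d z ?_ (htop i' (k' + 1) (by omega) ⟨i, ?_⟩)
        · rcases hk' with hk' | ⟨hk', hi⟩
          · exact Or.inl (by omega)
          · exact Or.inr ⟨by omega, hi.le⟩
        · rcases hk' with hk' | ⟨hk', hi⟩
          · omega
          · omega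
    · exact ⟨0, Submodule.zero_mem _, fun v w _ => by simp⟩
    · rintro x x' _ _ ⟨y, hy, hy'⟩ ⟨u, hu, hu'⟩
      refine ⟨y + u, Submodule.add_mem _ hy hu, fun v w hvw => ?_⟩
      have h1 := hy' v w hvw
      have h2 := hu' v w hvw
      rw [add_dotProduct, add_dotProduct]
      linear_combination h1 + h2
    · rintro c x _ ⟨y, hy, hy'⟩
      refine ⟨c • y, Submodule.smul_mem _ c hy, fun v w hvw => ?_⟩
      have h1 := hy' v w hvw
      rw [smul_dotProduct, smul_dotProduct, smul_eq_mul, smul_eq_mul]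
      linear_combination c * h1
  obtain ⟨y, hy, hy'⟩ := key _ h
  have hS : Submodule.span ℂ {v | ∃ G ∈ I, v = dif (tc 1 G) z} ≤ Sp F d z (k + 1) i := by
    rw [Submodule.span_le]
    rintro v ⟨G, hG, rfl⟩
    refine Submodule.span_le.2 ?_ (jet_span hI h0 F hF hli hz hG 1)
    rintro v ⟨i', j, hj, hj', rfl⟩
    have : j = 1 := by omega
    subst this
    exact hone i'
  have h1 : dif (tc (k + 2) (F i)) z - y ∈ Submodule.span ℂ {v | ∃ G ∈ I, v = dif (tc 1 G) z} := by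
    apply mem_of_perp
    intro v hv
    obtain ⟨w, hw⟩ := hst v fun G hG => hv _ (Submodule.subset_span ⟨G, hG, rfl⟩)
    have h2 := hw _ (hF i) (k + 1)
    have h3 := hy' v w hw
    rw [sub_dotProduct]
    have h4 : dif (tc (k + 1 + 1) (F i)) z = dif (tc (k + 2) (F i)) z := rfl
    rw [h4] at h2
    linear_combination h2 - h3
  have h2 := Submodule.add_mem _ (hS h1) hy
  rwa [sub_add_cancel] at h2

end

end Stair

open Stair

/-- the staircase basis: general form. `d` is arbitrary; the Taylor coefficients of the `F i` of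
order between `d i + 1` and `max d` are assumed to be in the span of the previous ones. -/
theorem stair_core {I : Ideal (MvPolynomial (Option ι) ℂ)} {r : ℕ} (hI : Smooth I r)
    (h0 : pt 1 0 ∈ cone I) (F : Fin r → MvPolynomial (Option ι) ℂ) (d : Fin r → ℕ)
    (hF : ∀ i, F i ∈ I)
    (hli : LinearIndependent ℂ (fun i => dif (F i) (pt 1 0)))
    {P : Ideal (MvPolynomial ι ℂ)} {c : ℕ} (hP : Smooth P c) (hJP : J I ≤ P)
    (hst : ∀ z ∈ cone P, z ≠ 0 → StarT I z)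
    (hN : ∀ z ∈ cone P, z ≠ 0 → N P z ≤ Submodule.span ℂ
      {v | ∃ (i : Fin r) (k : ℕ), k < d i ∧ v = dif (tc (k + 1) (F i)) z})
    (htop : ∀ z ∈ cone P, z ≠ 0 → ∀ i k, d i ≤ k → (∃ j, k < d j) →
      dif (tc (k + 1) (F i)) z ∈ Sp F d z k i)
    (hdm : dm P + c = Fintype.card ι)
    (hn : 2 * c + ∑ i, d i < Fintype.card ι) (hne : ∃ z ∈ cone P, z ≠ 0) :
    ∃ a : Fin r → ℕ, (∀ i, a i < d i) ∧ ∀ z ∈ cone P, z ≠ 0 →
      LinearIndependent ℂ (fun κ : (Σ i : Fin r, Fin (a i + 1)) =>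
        dif (tc ((κ.2 : ℕ) + 1) (F κ.1)) z) ∧
      Submodule.span ℂ (Set.range fun κ : (Σ i : Fin r, Fin (a i + 1)) =>
        dif (tc ((κ.2 : ℕ) + 1) (F κ.1)) z) = N P z := by
  classical
  obtain ⟨D, hD⟩ : ∃ D : ℕ, ∀ i, d i ≤ D :=
    ⟨∑ i, d i, fun i => Finset.single_le_sum (f := d) (fun _ _ => Nat.zero_le _) (Finset.mem_univ i)⟩
  let α := {p : Fin D ×ₗ Fin r // (ofLex p).1.val < d (ofLex p).2}
  let h : α → MvPolynomial ι ℂ := fun a => tc ((ofLex a.1).1.val + 1) (F (ofLex a.1).2)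
  let dg : α → ℕ := fun a => (ofLex a.1).1.val + 1
  let mk : ∀ (i : Fin r) (k : ℕ), k < d i → α :=
    fun i k hk => ⟨toLex (⟨k, hk.trans_le (hD i)⟩, i), hk⟩
  have hmk : ∀ a : α, ∃ (i : Fin r) (k : ℕ) (hk : k < d i), a = mk i k hk := fun a =>
    ⟨(ofLex a.1).2, (ofLex a.1).1.val, a.2, rfl⟩
  have hlt : ∀ i k hk i' k' hk', mk i k hk < mk i' k' hk' ↔ k < k' ∨ (k = k' ∧ i < i') := by
    intro i k hk i' k' hk'
    show toLex ((⟨k, hk.trans_le (hD i)⟩ : Fin D), i) <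
      toLex ((⟨k', hk'.trans_le (hD i')⟩ : Fin D), i') ↔ _
    rw [Prod.Lex.toLex_lt_toLex]
    simp [Fin.ext_iff]
  have hcard : Fintype.card α = ∑ i, d i := by
    have e : α ≃ (Σ i : Fin r, Fin (d i)) :=
      { toFun := fun a => ⟨(ofLex a.1).2, ⟨(ofLex a.1).1.val, a.2⟩⟩
        invFun := fun q => mk q.1 q.2.val q.2.isLt
        left_inv := fun a => rfl
        right_inv := fun q => rfl }
    rw [Fintype.card_congr e, Fintype.card_sigma]
    simp
  have hmono : Monotone dg := by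
    intro a b hab
    rcases hab.lt_or_eq with hab | hab
    · obtain ⟨i, k, hk, rfl⟩ := hmk a
      obtain ⟨i', k', hk', rfl⟩ := hmk b
      rw [hlt] at hab
      show k + 1 ≤ k' + 1
      omega
    · rw [hab]
  have hcJ : ∀ z ∈ cone P, z ∈ cone (J I) := fun z hz => cone_anti hJP hz
  have hspan : ∀ z ∈ cone P, z ≠ 0 →
      Submodule.span ℂ (Set.range fun a => dif (h a) z) = N P z := by
    intro z hz hz0
    apply le_antisymm
    · rw [Submodule.span_le]
      rintro _ ⟨a, rfl⟩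
      exact mem_N.2 ⟨h a, hJP (tc_mem_J (hF _) _), rfl⟩
    · refine (hN z hz hz0).trans (Submodule.span_mono ?_)
      rintro _ ⟨i, k, hk, rfl⟩
      exact ⟨mk i k hk, rfl⟩
  obtain ⟨B, hB⟩ := greedy hP hdm h dg (fun a => hJP (tc_mem_J (hF _) _)) (fun a => tc_homog _ _)
    hmono hspan (by rw [hcard]; exact hn) hne
  obtain ⟨z, hz, hz0⟩ := hne
  have hSp : ∀ i k hk, Submodule.span ℂ ((fun b => dif (h b) z) '' Set.Iio (mk i k hk)) =
      Sp F d z k i := by
    intro i k hk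
    apply le_antisymm
    · rw [Submodule.span_le]
      rintro _ ⟨b, hb, rfl⟩
      obtain ⟨i', k', hk', rfl⟩ := hmk b
      exact Submodule.subset_span ⟨k', i', hk', (hlt _ _ _ _ _ _).1 hb, rfl⟩
    · refine Submodule.span_le.2 ?_
      rintro _ ⟨k', i', hkd, hk', rfl⟩
      exact Submodule.subset_span ⟨mk i' k' hkd, (hlt _ _ _ _ _ _).2 hk', rfl⟩
  have hmem : ∀ i k hk, mk i k hk ∈ B ↔ dif (tc (k + 1) (F i)) z ∉ Sp F d z k i := by
    intro i k hk
    rw [(hB z hz hz0).2.2, hSp]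
    exact Iff.rfl
  -- the base of the staircase
  have hli1 := li_tc_one hI h0 F hF hli z
  have hbase : ∀ i, dif (tc 1 (F i)) z ∉ Sp F d z 0 i := by
    intro i hi
    have h2 := hli1.notMem_span_image (s := Set.Iio i) (x := i) (by simp)
    apply h2
    refine Submodule.span_le.2 ?_ hi
    rintro _ ⟨k', i', -, hk', rfl⟩
    rcases hk' with hk' | ⟨hk', hi'⟩
    · omega
    · subst hk'
      exact Submodule.subset_span ⟨i', hi', rfl⟩
  have hd : ∀ i, 0 < d i := by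
    intro i
    by_contra hcon
    by_cases hj : ∃ j, 0 < d j
    · exact hbase i (htop z hz hz0 i 0 (by omega) hj)
    · push Not at hj
      have h1 : dif (tc 1 (F i)) z ∈ N P z := mem_N.2 ⟨_, hJP (tc_mem_J (hF _) _), rfl⟩
      have h2 := hN z hz hz0 h1
      have h3 : {v | ∃ (i : Fin r) (k : ℕ), k < d i ∧ v = dif (tc (k + 1) (F i)) z} = ∅ := by
        ext v
        simp only [Set.mem_ofPred_eq, Set.mem_empty_iff_false, iff_false]
        rintro ⟨i', k', hk', -⟩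
        have := hj i'
        omega
      rw [h3, Submodule.span_empty, Submodule.mem_bot] at h2
      exact hli1.ne_zero i h2
  -- downward closedness
  have hdown : ∀ i k, dif (tc (k + 1) (F i)) z ∈ Sp F d z k i → ∀ m, k ≤ m → m < d i →
      dif (tc (m + 1) (F i)) z ∈ Sp F d z m i := by
    intro i k hk m hkm
    induction m, hkm using Nat.le_induction with
    | base => exact fun _ => hk
    | succ m _ ih =>
      exact fun hm => step hI h0 F d hF hli (hcJ z hz) (hst z hz hz0) (htop z hz hz0) m i hm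
        (ih (by omega))
  let Q : Fin r → ℕ → Prop := fun i k => k < d i ∧ dif (tc (k + 1) (F i)) z ∉ Sp F d z k i
  obtain ⟨a, ha⟩ : ∃ a : Fin r → ℕ, ∀ i, Q i (a i) ∧ ∀ k, Q i k → k ≤ a i := by
    refine ⟨fun i => Nat.findGreatest (Q i) (d i), fun i => ⟨?_, fun k hk => ?_⟩⟩
    · exact Nat.findGreatest_spec (P := Q i) (Nat.zero_le _) ⟨hd i, hbase i⟩
    · exact Nat.le_findGreatest hk.1.le hk
  have hQ : ∀ i k, k ≤ a i → Q i k := by
    intro i k hk
    refine ⟨lt_of_le_of_lt hk (ha i).1.1, fun hcon => ?_⟩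
    exact (ha i).1.2 (hdown i k hcon _ hk (ha i).1.1)
  refine ⟨a, fun i => (ha i).1.1, ?_⟩
  let e : (Σ i : Fin r, Fin (a i + 1)) → B := fun κ =>
    ⟨mk κ.1 κ.2.val (hQ κ.1 κ.2.val (by omega)).1, (hmem _ _ _).2 (hQ κ.1 κ.2.val (by omega)).2⟩
  have hmkinj : ∀ i k hk i' k' hk', mk i k hk = mk i' k' hk' → i = i' ∧ k = k' := by
    intro i k hk i' k' hk' heq
    have h1 := congrArg (fun a : α => (ofLex a.1).1.val) heq
    have h2 := congrArg (fun a : α => (ofLex a.1).2) heq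
    exact ⟨h2, h1⟩
  have he : Function.Injective e := by
    rintro ⟨i, k⟩ ⟨i', k'⟩ heq
    have h1 := congrArg Subtype.val heq
    obtain ⟨h2, h3⟩ := hmkinj _ _ _ _ _ _ h1
    simp only at h2 h3
    subst h2
    have h4 : k = k' := Fin.ext h3
    rw [h4]
  have hes : Function.Surjective e := by
    rintro ⟨b, hb⟩
    obtain ⟨i, k, hk, rfl⟩ := hmk b
    have h1 := (ha i).2 k ⟨hk, (hmem _ _ _).1 hb⟩
    exact ⟨⟨i, ⟨k, by omega⟩⟩, rfl⟩
  intro y hy hy0
  obtain ⟨h1, h2, -⟩ := hB y hy hy0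
  constructor
  · exact h1.comp e he
  · rw [← h2]
    congr 1
    exact hes.range_comp (fun b : B => dif (h b) y)

/-- the staircase basis with a uniform bound `K` instead of the degrees of the `F i`. -/
theorem staircase' {I : Ideal (MvPolynomial (Option ι) ℂ)} {r : ℕ} (hI : Smooth I r)
    (h0 : pt 1 0 ∈ cone I) (F : Fin r → MvPolynomial (Option ι) ℂ) (K : ℕ)
    (hF : ∀ i, F i ∈ I)
    (hli : LinearIndependent ℂ (fun i => dif (F i) (pt 1 0)))
    {P : Ideal (MvPolynomial ι ℂ)} {c : ℕ} (hP : Smooth P c) (hJP : J I ≤ P)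
    (hst : ∀ z ∈ cone P, z ≠ 0 → StarT I z)
    (hN : ∀ z ∈ cone P, z ≠ 0 → N P z ≤ Submodule.span ℂ
      {v | ∃ (i : Fin r) (k : ℕ), k < K ∧ v = dif (tc (k + 1) (F i)) z})
    (hdm : dm P + c = Fintype.card ι)
    (hn : 2 * c + r * K < Fintype.card ι) (hne : ∃ z ∈ cone P, z ≠ 0) :
    ∃ a : Fin r → ℕ, (∀ i, a i < K) ∧ ∀ z ∈ cone P, z ≠ 0 →
      LinearIndependent ℂ (fun κ : (Σ i : Fin r, Fin (a i + 1)) =>
        dif (tc ((κ.2 : ℕ) + 1) (F κ.1)) z) ∧
      Submodule.span ℂ (Set.range fun κ : (Σ i : Fin r, Fin (a i + 1)) =>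
        dif (tc ((κ.2 : ℕ) + 1) (F κ.1)) z) = N P z := by
  refine stair_core hI h0 F (fun _ => K) hF hli hP hJP hst hN ?_ hdm (by simpa using hn) hne
  rintro z - - i k hk ⟨j, hj⟩
  exact absurd hj (by simpa using hk)

/-- D2: the staircase basis of the conormal spaces. -/
theorem staircase {I : Ideal (MvPolynomial (Option ι) ℂ)} {r : ℕ} (hI : Smooth I r)
    (h0 : pt 1 0 ∈ cone I) (F : Fin r → MvPolynomial (Option ι) ℂ) (d : Fin r → ℕ)
    (hF : ∀ i, F i ∈ I) (hFh : ∀ i, (F i).IsHomogeneous (d i))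
    (hli : LinearIndependent ℂ (fun i => dif (F i) (pt 1 0)))
    {P : Ideal (MvPolynomial ι ℂ)} {c : ℕ} (hP : Smooth P c) (hJP : J I ≤ P)
    (hst : ∀ z ∈ cone P, z ≠ 0 → StarT I z)
    (hN : ∀ z ∈ cone P, z ≠ 0 → N P z = N (J I) z) (hdm : dm P + c = Fintype.card ι)
    (hn : 2 * c + ∑ i, d i < Fintype.card ι) (hne : ∃ z ∈ cone P, z ≠ 0) :
    ∃ a : Fin r → ℕ, (∀ i, a i < d i) ∧ ∀ z ∈ cone P, z ≠ 0 →
      LinearIndependent ℂ (fun κ : (Σ i : Fin r, Fin (a i + 1)) =>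
        dif (tc ((κ.2 : ℕ) + 1) (F κ.1)) z) ∧
      Submodule.span ℂ (Set.range fun κ : (Σ i : Fin r, Fin (a i + 1)) =>
        dif (tc ((κ.2 : ℕ) + 1) (F κ.1)) z) = N P z := by
  refine stair_core hI h0 F d hF hli hP hJP hst ?_ ?_ hdm hn hne
  · intro z hz hz0
    have hzJ : z ∈ cone (J I) := cone_anti hJP hz
    rw [hN z hz hz0, N_J hzJ, Submodule.span_le]
    rintro _ ⟨G, hG, k, rfl⟩
    refine Submodule.span_le.2 ?_ (jet_span hI h0 F hF hli hzJ hG k)
    rintro _ ⟨i, j, hj, -, rfl⟩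
    by_cases hjd : j ≤ d i
    · refine Submodule.subset_span ⟨i, j - 1, by omega, ?_⟩
      rw [Nat.sub_add_cancel hj]
    · rw [tc_eq_zero (hFh i) (by omega : d i < j), dif_zero]
      exact Submodule.zero_mem _
  · intro z hz hz0 i k hk _
    rw [tc_eq_zero (hFh i) (by omega : d i < k + 1), dif_zero]
    exact Submodule.zero_mem _

end H94.Deg
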