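import Pool.Agent.H94.Deg.TT

/-!
# Taylor coefficients at the base point
-/

open MvPolynomial

set_option linter.unusedSectionVars false

namespace H94.Deg

open H89.Hart H94.Cubic

/-- coordinate free form of `StarT`. -/
def StarAt {σ : Type*} [Fintype σ] [DecidableEq σ] (I : Ideal (MvPolynomial σ ℂ))
    (y z : σ → ℂ) : Prop :=
  ∀ v : σ → ℂ, (∀ φ ∈ N I y, φ ⬝ᵥ v = 0) →
    ∃ w : σ → ℂ, ∀ G ∈ I, ∀ s t : ℂ, dif G (s • y + t • z) ⬝ᵥ (s • v + t • w) = 0

variable {ι : Type*} [Fintype ι] [DecidableEq ι]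

theorem hc_mul {σ : Type*} (k : ℕ) (p q : MvPolynomial σ ℂ) :
    homogeneousComponent k (p * q) = ∑ a ∈ Finset.HasAntidiagonal.antidiagonal k,
      homogeneousComponent a.1 p * homogeneousComponent a.2 q := by
  classical
  ext d
  rw [coeff_homogeneousComponent, coeff_mul, coeff_sum]
  simp_rw [coeff_mul, coeff_homogeneousComponent]
  rw [Finset.sum_comm]
  split_ifs with h
  · refine Finset.sum_congr rfl fun x hx => ?_
    rw [Finset.HasAntidiagonal.mem_antidiagonal] at hx
    have hxk : x.1.degree + x.2.degree = k := by rw [← map_add, hx, h]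
    rw [Finset.sum_eq_single (x.1.degree, x.2.degree)]
    · simp
    · rintro ⟨i, j⟩ hij hne
      rw [Finset.HasAntidiagonal.mem_antidiagonal] at hij
      simp only at hij
      by_cases h1 : x.1.degree = i
      · by_cases h2 : x.2.degree = j
        · exact absurd (by rw [h1, h2]) hne
        · simp [h2]
      · simp [h1]
    · intro hn
      exact absurd (Finset.HasAntidiagonal.mem_antidiagonal.2 hxk) hn
  · symm
    refine Finset.sum_eq_zero fun x hx => Finset.sum_eq_zero fun a ha => ?_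
    rw [Finset.HasAntidiagonal.mem_antidiagonal] at hx ha
    by_cases h1 : x.1.degree = a.1
    · by_cases h2 : x.2.degree = a.2
      · exfalso
        apply h
        rw [← hx, map_add, h1, h2, ha]
      · simp [h2]
    · simp [h1]

section Base

variable {I : Ideal (MvPolynomial (Option ι) ℂ)} {r : ℕ}

theorem pt_none (s : ℂ) (z : ι → ℂ) : pt s z none = s := rfl

theorem pt_some (s : ℂ) (z : ι → ℂ) (i : ι) : pt s z (some i) = z i := rfl

theorem pt_eta (x : Option ι → ℂ) : pt (x none) (fun i => x (some i)) = x := by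
  funext o; cases o <;> rfl

theorem pt_ne_zero_right {z : ι → ℂ} (hz : z ≠ 0) (s : ℂ) : pt s z ≠ 0 := by
  intro h
  apply hz
  funext i
  exact congrFun h (some i)

theorem pt_ne_zero_left {s : ℂ} (hs : s ≠ 0) (z : ι → ℂ) : pt s z ≠ 0 := by
  intro h
  exact hs (congrFun h none)

theorem pt_dot (a s : ℂ) (v z : ι → ℂ) : pt a v ⬝ᵥ pt s z = a * s + v ⬝ᵥ z := by
  simp [dotProduct, pt, Fintype.sum_option]

theorem tc_homog (k : ℕ) (F : MvPolynomial (Option ι) ℂ) : (tc k F).IsHomogeneous k :=
  homogeneousComponent_isHomogeneous _ _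

theorem tc_add (k : ℕ) (F G : MvPolynomial (Option ι) ℂ) : tc k (F + G) = tc k F + tc k G := by
  simp [tc]

theorem tc_sum (k : ℕ) {α : Type*} (s : Finset α) (F : α → MvPolynomial (Option ι) ℂ) :
    tc k (∑ a ∈ s, F a) = ∑ a ∈ s, tc k (F a) := by
  simp [tc]

theorem tc_mul (k : ℕ) (F G : MvPolynomial (Option ι) ℂ) :
    tc k (F * G) = ∑ p ∈ Finset.HasAntidiagonal.antidiagonal k, tc p.1 F * tc p.2 G := by
  rw [tc, map_mul, hc_mul]
  rfl

theorem eval_dh (F : MvPolynomial (Option ι) ℂ) (z : ι → ℂ) :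
    eval z (dh F) = eval (pt 1 z) F := by
  have h : ((aeval z : MvPolynomial ι ℂ →ₐ[ℂ] ℂ).comp dh) =
      (aeval (pt 1 z) : MvPolynomial (Option ι) ℂ →ₐ[ℂ] ℂ) := by
    apply MvPolynomial.algHom_ext
    intro o
    cases o <;> simp [dh, pt]
  have := congrArg (fun φ : MvPolynomial (Option ι) ℂ →ₐ[ℂ] ℂ => φ F) h
  simpa [aeval_eq_eval] using this

theorem tc_zero_order (F : MvPolynomial (Option ι) ℂ) : tc 0 F = C (eval (pt 1 0) F) := by
  rw [tc, homogeneousComponent_zero, ← eval_dh]
  congr 1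
  rw [← constantCoeff_eq, ← MvPolynomial.eval_zero']
  rfl

theorem dh_monomial (m : Option ι →₀ ℕ) (c : ℂ) : dh (monomial m c) = monomial m.some c := by
  rw [dh, aeval_monomial, monomial_eq, Finsupp.prod_option_index]
  · simp [Finsupp.some_apply]
  · intro o; simp
  · intro o a b; rw [pow_add]

theorem degree_option (m : Option ι →₀ ℕ) : m.degree = m none + m.some.degree := by
  rw [Finsupp.degree_eq_sum, Finsupp.degree_eq_sum, Fintype.sum_option]
  simp [Finsupp.some_apply]

theorem tc_monomial (k : ℕ) (m : Option ι →₀ ℕ) (c : ℂ) :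
    tc k (monomial m c) = if m.some.degree = k then monomial m.some c else 0 := by
  classical
  rw [tc, dh_monomial]
  ext d
  rw [coeff_homogeneousComponent, coeff_monomial]
  split_ifs with h1 h2 h3 h4 h5
  · simp [h2]
  · exact absurd (h2 ▸ h1) h3
  · simp [coeff_monomial, h2]
  · simp
  · subst_vars
    rw [coeff_monomial, if_neg]
    rintro rfl
    exact h1 rfl
  · simp

/-- forms of degree `e` have no Taylor coefficients of order `> e`. -/
theorem tc_eq_zero {F : MvPolynomial (Option ι) ℂ} {e k : ℕ} (hF : F.IsHomogeneous e)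
    (hk : e < k) : tc k F = 0 := by
  rw [F.as_sum, tc_sum]
  refine Finset.sum_eq_zero fun m hm => ?_
  rw [tc_monomial, if_neg]
  have h1 := hF.degree_eq_sum_deg_support hm
  rw [← Finsupp.degree_apply] at h1
  have h2 := degree_option m
  omega

/-- the expansion of a form. -/
theorem eq_sum_tc {F : MvPolynomial (Option ι) ℂ} {e : ℕ} (hF : F.IsHomogeneous e) :
    F = ∑ k ∈ Finset.range (e + 1), X none ^ (e - k) * rename some (tc k F) := by
  conv_lhs => rw [F.as_sum]
  have h1 : ∀ k, tc k F = ∑ m ∈ F.support, tc k (monomial m (coeff m F)) := by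
    intro k
    conv_lhs => rw [F.as_sum]
    rw [tc_sum]
  simp_rw [h1, map_sum, Finset.mul_sum]
  rw [Finset.sum_comm]
  refine Finset.sum_congr rfl fun m hm => ?_
  have h2 := hF.degree_eq_sum_deg_support hm
  rw [← Finsupp.degree_apply] at h2
  have h3 := degree_option m
  rw [Finset.sum_eq_single m.some.degree]
  · rw [tc_monomial, if_pos rfl, show e - m.some.degree = m none by omega, rename_monomial,
      monomial_eq, monomial_eq, Finsupp.prod_option_index]
    · rw [Finsupp.prod_mapDomain_index_inj (Option.some_injective _)]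
      ring
    · intro o; simp
    · intro o a b; rw [pow_add]
  · intro k _ hk
    rw [tc_monomial, if_neg (Ne.symm hk)]
    simp
  · intro h
    exfalso
    apply h
    rw [Finset.mem_range]
    omega

theorem eval_pt {F : MvPolynomial (Option ι) ℂ} {e : ℕ} (hF : F.IsHomogeneous e) (s : ℂ)
    (z : ι → ℂ) :
    eval (pt s z) F = ∑ k ∈ Finset.range (e + 1), s ^ (e - k) * eval z (tc k F) := by
  conv_lhs => rw [eq_sum_tc hF]
  rw [map_sum]
  refine Finset.sum_congr rfl fun k _ => ?_
  rw [map_mul, map_pow, eval_X, eval_rename]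
  rfl

theorem dif_rename (q : MvPolynomial ι ℂ) (s : ℂ) (z : ι → ℂ) :
    dif (rename some q) (pt s z) = pt 0 (dif q z) := by
  funext o
  cases o with
  | none =>
    simp only [dif, pt_none]
    rw [pderiv_eq_zero_of_notMem_vars, map_zero]
    intro h
    have := vars_rename _ _ h
    simp at this
  | some i =>
    simp only [dif, pt_some]
    rw [pderiv_rename (Option.some_injective _), eval_rename]
    rfl

/-- differentials along the lines through the base point. -/
theorem dif_pt {F : MvPolynomial (Option ι) ℂ} {e : ℕ} (hF : F.IsHomogeneous e) (s : ℂ)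
    {z : ι → ℂ} (hz : ∀ k, eval z (tc k F) = 0) :
    dif F (pt s z) = ∑ k ∈ Finset.range (e + 1), s ^ (e - k) • pt 0 (dif (tc k F) z) := by
  conv_lhs => rw [eq_sum_tc hF]
  rw [dif_sum]
  refine Finset.sum_congr rfl fun k _ => ?_
  rw [dif_mul, eval_rename, show pt s z ∘ some = z from rfl, hz k, zero_smul, add_zero, map_pow,
    eval_X, dif_rename]
  rfl

theorem tc_smul (k : ℕ) (c : ℂ) (F : MvPolynomial (Option ι) ℂ) : tc k (c • F) = c • tc k F := by
  simp [tc]

theorem eval_smul_tc (k : ℕ) (F : MvPolynomial (Option ι) ℂ) (t : ℂ) (z : ι → ℂ) :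
    eval (t • z) (tc k F) = t ^ k * eval z (tc k F) :=
  eval_smul_homog (tc_homog k F) t z

theorem tc_mem_J {F : MvPolynomial (Option ι) ℂ} (hF : F ∈ I) (k : ℕ) : tc k F ∈ J I :=
  Ideal.subset_span ⟨F, hF, k, rfl⟩

theorem tc_decomp (k : ℕ) (F : MvPolynomial (Option ι) ℂ) :
    tc k F = ∑ e ∈ Finset.range (F.totalDegree + 1), tc k (homogeneousComponent e F) := by
  rw [← tc_sum, sum_homogeneousComponent]

theorem mem_cone_J_iff {z : ι → ℂ} :
    z ∈ cone (J I) ↔ ∀ F ∈ I, ∀ k, eval z (tc k F) = 0 := by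
  constructor
  · intro h F hF k
    exact h _ (tc_mem_J hF k)
  · intro h f hf
    have : J I ≤ RingHom.ker (eval z) := by
      rw [J, Ideal.span_le]
      rintro q ⟨F, hF, k, rfl⟩
      exact h F hF k
    exact this hf

theorem sum_pow_eq_zero {e : ℕ} {c : ℕ → ℂ}
    (h : ∀ t : ℂ, ∑ k ∈ Finset.range (e + 1), t ^ k * c k = 0) : ∀ k ≤ e, c k = 0 := by
  intro k hk
  have h1 : (∑ k ∈ Finset.range (e + 1), Polynomial.C (c k) * Polynomial.X ^ k) = 0 := by
    apply Polynomial.funext
    intro t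
    rw [Polynomial.eval_finsetSum, Polynomial.eval_zero, ← h t]
    refine Finset.sum_congr rfl fun k _ => ?_
    rw [Polynomial.eval_mul, Polynomial.eval_C, Polynomial.eval_pow, Polynomial.eval_X, mul_comm]
  have h2 := congrArg (fun p => Polynomial.coeff p k) h1
  simp only [Polynomial.finsetSum_coeff, Polynomial.coeff_C_mul_X_pow,
    Polynomial.coeff_zero] at h2
  rw [Finset.sum_eq_single k] at h2
  · simpa using h2
  · intro b _ hb
    rw [if_neg (Ne.symm hb)]
  · intro h'
    exact absurd (Finset.mem_range.2 (by omega)) h'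

theorem mem_cone_J (hI : Smooth I r) (_h0 : pt 1 0 ∈ cone I) {z : ι → ℂ} :
    z ∈ cone (J I) ↔ ∀ s t : ℂ, pt s (t • z) ∈ cone I := by
  rw [mem_cone_J_iff]
  constructor
  · intro h s t F hF
    rw [← sum_homogeneousComponent F, map_sum]
    refine Finset.sum_eq_zero fun e _ => ?_
    rw [eval_pt (homogeneousComponent_isHomogeneous e F)]
    refine Finset.sum_eq_zero fun k _ => ?_
    rw [eval_smul_tc, h _ (hI.homog F hF e) k, mul_zero, mul_zero]
  · intro h F hF k
    rw [tc_decomp, map_sum]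
    refine Finset.sum_eq_zero fun e _ => ?_
    have hFe := homogeneousComponent_isHomogeneous e F
    rcases lt_or_ge e k with hk | hk
    · rw [tc_eq_zero hFe hk, map_zero]
    · have h1 : ∀ t : ℂ, ∑ k ∈ Finset.range (e + 1),
          t ^ k * eval z (tc k (homogeneousComponent e F)) = 0 := by
        intro t
        have h2 := h 1 t _ (hI.homog F hF e)
        rw [eval_pt hFe] at h2
        rw [← h2]
        refine Finset.sum_congr rfl fun k _ => ?_
        rw [one_pow, one_mul, eval_smul_tc]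
      exact sum_pow_eq_zero h1 k hk

attribute [local instance] MvPolynomial.gradedAlgebra in
theorem J_homog (I : Ideal (MvPolynomial (Option ι) ℂ)) :
    ∀ f ∈ J I, ∀ d, homogeneousComponent d f ∈ J I := by
  intro f hf d
  refine homogeneousComponent_mem_of_mem ?_ hf d
  apply Ideal.homogeneous_span
  rintro q ⟨F, _, k, rfl⟩
  exact ⟨k, (mem_homogeneousSubmodule _ _).2 (tc_homog k F)⟩

theorem mem_cyl_of {P : Ideal (MvPolynomial ι ℂ)} {q : MvPolynomial ι ℂ} (hq : q ∈ P) :
    rename some q ∈ cyl P :=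
  Ideal.mem_map_of_mem (rename some : MvPolynomial ι ℂ →ₐ[ℂ] MvPolynomial (Option ι) ℂ) hq

theorem le_cyl (hI : Smooth I r) : I ≤ cyl (J I) := by
  intro F hF
  rw [← sum_homogeneousComponent F]
  refine Ideal.sum_mem _ fun e _ => ?_
  rw [eq_sum_tc (homogeneousComponent_isHomogeneous e F)]
  refine Ideal.sum_mem _ fun k _ => Ideal.mul_mem_left _ _ ?_
  exact mem_cyl_of (tc_mem_J (hI.homog F hF e) k)

theorem cyl_mono {P Q : Ideal (MvPolynomial ι ℂ)} (h : P ≤ Q) : cyl P ≤ cyl Q :=
  Ideal.map_mono h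

theorem dif_smul_pt {σ : Type*} [Fintype σ] [DecidableEq σ] {q : MvPolynomial σ ℂ} {k : ℕ}
    (hq : q.IsHomogeneous k) (t : ℂ) (z : σ → ℂ) : dif q (t • z) = t ^ (k - 1) • dif q z := by
  funext i
  simp only [dif, Pi.smul_apply, smul_eq_mul]
  exact eval_smul_homog (IsHomogeneous.pderiv hq) t z

theorem dif_const_of_deg_one {σ : Type*} [Fintype σ] [DecidableEq σ] {q : MvPolynomial σ ℂ}
    (hq : q.IsHomogeneous 1) (z z' : σ → ℂ) : dif q z = dif q z' := by
  funext i
  have h : (pderiv i q).IsHomogeneous 0 := IsHomogeneous.pderiv hq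
  have h1 := (totalDegree_eq_zero_iff_eq_C (p := pderiv i q)).1
    ((totalDegree_zero_iff_isHomogeneous _).2 h)
  simp only [dif]
  rw [h1]
  simp

theorem dif_C {σ : Type*} [Fintype σ] [DecidableEq σ] (c : ℂ) (z : σ → ℂ) :
    dif (C c : MvPolynomial σ ℂ) z = 0 := by
  funext i; simp [dif]

theorem dif_tc_zero (F : MvPolynomial (Option ι) ℂ) (z : ι → ℂ) : dif (tc 0 F) z = 0 := by
  rw [tc_zero_order, dif_C]

theorem pt_zero_add (v w : ι → ℂ) : (pt 0 (v + w) : Option ι → ℂ) = pt 0 v + pt 0 w := by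
  funext o; cases o <;> simp [pt]

theorem pt_zero_smul (c : ℂ) (v : ι → ℂ) : (pt 0 (c • v) : Option ι → ℂ) = c • pt 0 v := by
  funext o; cases o <;> simp [pt]

theorem smul_add_pt (s t : ℂ) (z : ι → ℂ) :
    s • (pt 1 0 : Option ι → ℂ) + t • pt 0 z = pt s (t • z) := by
  funext o; cases o <;> simp [pt]

/-- conormal vectors at the base point. -/
theorem dif_base (hI : Smooth I r) (h0 : pt 1 0 ∈ cone I) {G : MvPolynomial (Option ι) ℂ}
    (hG : G ∈ I) (z : ι → ℂ) : dif G (pt 1 0) = pt 0 (dif (tc 1 G) z) := by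
  have key : ∀ e, dif (homogeneousComponent e G) (pt 1 0) =
      pt 0 (dif (tc 1 (homogeneousComponent e G)) z) := by
    intro e
    have hGe := homogeneousComponent_isHomogeneous e G
    have hm := hI.homog G hG e
    rw [dif_pt hGe]
    · rw [show (∑ k ∈ Finset.range (e + 1), (1 : ℂ) ^ (e - k) •
          pt 0 (dif (tc k (homogeneousComponent e G)) (0 : ι → ℂ)) : Option ι → ℂ) =
          ∑ k ∈ Finset.range (e + 1), if k = 1 then
            pt 0 (dif (tc 1 (homogeneousComponent e G)) z) else 0 from ?_]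
      · rw [Finset.sum_ite_eq' ]
        split_ifs with h
        · rfl
        · rw [tc_eq_zero hGe (by rw [Finset.mem_range] at h; omega), dif_zero]
          funext o; cases o <;> rfl
      · refine Finset.sum_congr rfl fun k _ => ?_
        rw [one_pow, one_smul]
        split_ifs with h
        · subst h
          rw [dif_const_of_deg_one (tc_homog 1 _) 0 z]
        · rcases Nat.eq_zero_or_pos k with h1 | h1
          · subst h1
            rw [dif_tc_zero]
            funext o; cases o <;> rfl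
          · have h2 : (0 : ι → ℂ) = (0 : ℂ) • (0 : ι → ℂ) := by simp
            rw [h2, dif_smul_pt (tc_homog k _), zero_pow (by omega), zero_smul]
            funext o; cases o <;> rfl
    · intro k
      rcases Nat.eq_zero_or_pos k with h1 | h1
      · subst h1
        rw [tc_zero_order, eval_C]
        exact h0 _ hm
      · have h2 : (0 : ι → ℂ) = (0 : ℂ) • (0 : ι → ℂ) := by simp
        rw [h2, eval_smul_tc, zero_pow (by omega), zero_mul]
  have h1 : dif G (pt 1 0) = ∑ e ∈ Finset.range (G.totalDegree + 1),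
      dif (homogeneousComponent e G) (pt 1 0) := by
    rw [← dif_sum, sum_homogeneousComponent]
  rw [h1, tc_decomp, dif_sum]
  simp_rw [key]
  funext o
  cases o <;> simp [pt, Finset.sum_apply]

theorem starT_of_starAt (hI : Smooth I r) (h0 : pt 1 0 ∈ cone I) {z : ι → ℂ}
    (hz : z ∈ cone (J I)) (h : StarAt I (pt 1 0) (pt 0 z)) : StarT I z := by
  intro v hv
  obtain ⟨w, hw⟩ := h (pt 0 v) (by
    intro φ hφ
    obtain ⟨G, hG, rfl⟩ := mem_N.1 hφ
    rw [dif_base hI h0 hG z, pt_dot, zero_mul, zero_add]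
    exact hv G hG)
  refine ⟨fun i => w (some i), ?_⟩
  have key : ∀ e k, ∀ G ∈ I, G.IsHomogeneous e →
      dif (tc (k + 1) G) z ⬝ᵥ v + dif (tc k G) z ⬝ᵥ (fun i => w (some i)) = 0 := by
    intro e k G hG hGe
    rcases lt_or_ge e k with hk | hk
    · rw [tc_eq_zero hGe (by omega : e < k + 1), tc_eq_zero hGe hk, dif_zero]
      simp
    refine sum_pow_eq_zero (e := e) (c := fun k => dif (tc (k + 1) G) z ⬝ᵥ v +
      dif (tc k G) z ⬝ᵥ (fun i => w (some i))) ?_ k hk
    intro t
    have h1 := hw G hG 1 t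
    rw [smul_add_pt, dif_pt hGe _ (fun k => by
      rw [eval_smul_tc, mem_cone_J_iff.1 hz G hG k, mul_zero])] at h1
    rw [← pt_eta ((1 : ℂ) • pt 0 v + t • w), sum_dotProduct] at h1
    simp only [pt_dot, zero_mul, zero_add, one_pow, one_smul] at h1
    have h2 : ∀ k, dif (tc k G) (t • z) ⬝ᵥ (fun i => ((pt 0 v + t • w : Option ι → ℂ)) (some i)) =
        t ^ (k - 1) * (dif (tc k G) z ⬝ᵥ v) +
          t ^ k * (dif (tc k G) z ⬝ᵥ (fun i => w (some i))) := by
      intro k
      rw [dif_smul_pt (tc_homog k G), smul_dotProduct]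
      have : (fun i => ((pt 0 v + t • w : Option ι → ℂ)) (some i)) =
          v + t • (fun i => w (some i)) := by
        funext i; simp [pt]
      rw [this, dotProduct_add, dotProduct_smul]
      rcases Nat.eq_zero_or_pos k with h3 | h3
      · subst h3
        rw [dif_tc_zero]; simp
      · obtain ⟨m, rfl⟩ : ∃ m, k = m + 1 := ⟨k - 1, by omega⟩
        simp only [Nat.add_sub_cancel, smul_eq_mul]
        ring
    rw [Finset.sum_congr rfl fun k _ => h2 k, Finset.sum_add_distrib] at h1
    have h3 : ∑ k ∈ Finset.range (e + 1), t ^ (k - 1) * (dif (tc k G) z ⬝ᵥ v) =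
        ∑ k ∈ Finset.range (e + 1), t ^ k * (dif (tc (k + 1) G) z ⬝ᵥ v) := by
      rw [Finset.sum_range_succ', Finset.sum_range_succ]
      rw [dif_tc_zero, tc_eq_zero hGe (by omega : e < e + 1), dif_zero]
      simp
    rw [h3, ← Finset.sum_add_distrib] at h1
    rw [← h1]
    refine Finset.sum_congr rfl fun k _ => ?_
    ring
  intro G hG k
  rw [tc_decomp (k + 1), tc_decomp k, dif_sum, dif_sum, sum_dotProduct, sum_dotProduct,
    ← Finset.sum_add_distrib]
  exact Finset.sum_eq_zero fun e _ => key e k _ (hI.homog G hG e)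
    (homogeneousComponent_isHomogeneous e G)

theorem N_J {z : ι → ℂ} (hz : z ∈ cone (J I)) :
    N (J I) z = Submodule.span ℂ {v | ∃ G ∈ I, ∃ k, v = dif (tc k G) z} := by
  apply le_antisymm
  · intro φ hφ
    obtain ⟨q, hq, rfl⟩ := mem_N.1 hφ
    have : q ∈ Submodule.span (MvPolynomial ι ℂ) {q | ∃ F ∈ I, ∃ k, q = tc k F} := hq
    clear hφ hq
    suffices h : q ∈ J I ∧ dif q z ∈ Submodule.span ℂ {v | ∃ G ∈ I, ∃ k, v = dif (tc k G) z} from
      h.2
    induction this using Submodule.span_induction with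
    | mem x hx =>
      obtain ⟨F, hF, k, rfl⟩ := hx
      exact ⟨tc_mem_J hF k, Submodule.subset_span ⟨F, hF, k, rfl⟩⟩
    | zero => exact ⟨Ideal.zero_mem _, by rw [dif_zero]; exact Submodule.zero_mem _⟩
    | add x y _ _ hx hy =>
      exact ⟨Ideal.add_mem _ hx.1 hy.1, by rw [dif_add]; exact Submodule.add_mem _ hx.2 hy.2⟩
    | smul a x _ hx =>
      refine ⟨Ideal.mul_mem_left _ _ hx.1, ?_⟩
      rw [smul_eq_mul, dif_mul, hz _ hx.1, zero_smul, add_zero]
      exact Submodule.smul_mem _ _ hx.2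
  · rw [Submodule.span_le]
    rintro v ⟨G, hG, k, rfl⟩
    exact mem_N.2 ⟨_, tc_mem_J hG k, rfl⟩

/-- the differentials of Taylor coefficients of order `≤ k` are spanned by those of the `F i`. -/
theorem jet_span (hI : Smooth I r) (h0 : pt 1 0 ∈ cone I)
    (F : Fin r → MvPolynomial (Option ι) ℂ) (hF : ∀ i, F i ∈ I)
    (hli : LinearIndependent ℂ (fun i => dif (F i) (pt 1 0))) {z : ι → ℂ} (hz : z ∈ cone (J I))
    {G : MvPolynomial (Option ι) ℂ} (hG : G ∈ I) (k : ℕ) :
    dif (tc k G) z ∈ Submodule.span ℂ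
      {v | ∃ i, ∃ j, 1 ≤ j ∧ j ≤ k ∧ v = dif (tc j (F i)) z} := by
  obtain ⟨u, hu, hmem⟩ := L0 hI F hF h0 (pt_ne_zero_left one_ne_zero 0) hli hG
  obtain ⟨c, hc⟩ := (Ideal.mem_span_range_iff_exists_fun).1 hmem
  have hzz := mem_cone_J_iff.1 hz
  induction k using Nat.strong_induction_on with
  | _ k ih =>
    set U := Submodule.span ℂ {v | ∃ i, ∃ j, 1 ≤ j ∧ j ≤ k ∧ v = dif (tc j (F i)) z} with hU
    have h1 : dif (tc k (u * G)) z = dif (tc k (∑ i, c i * F i)) z := by rw [hc]
    rw [tc_mul, tc_sum, dif_sum, dif_sum] at h1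
    have h2 : ∑ i, dif (tc k (c i * F i)) z ∈ U := by
      refine Submodule.sum_mem _ fun i _ => ?_
      rw [tc_mul, dif_sum]
      refine Submodule.sum_mem _ fun p hp => ?_
      rw [Finset.HasAntidiagonal.mem_antidiagonal] at hp
      rw [dif_mul, hzz _ (hF i), zero_smul, add_zero]
      refine Submodule.smul_mem _ _ ?_
      rcases Nat.eq_zero_or_pos p.2 with h3 | h3
      · rw [h3, dif_tc_zero]; exact Submodule.zero_mem _
      · exact Submodule.subset_span ⟨i, p.2, h3, by omega, rfl⟩
    rw [← h1] at h2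
    have h4 : ∀ p ∈ Finset.HasAntidiagonal.antidiagonal k, dif (tc p.1 u * tc p.2 G) z =
        eval z (tc p.1 u) • dif (tc p.2 G) z := by
      intro p _
      rw [dif_mul, hzz _ hG, zero_smul, add_zero]
    rw [Finset.sum_congr rfl h4] at h2
    have h5 : (0, k) ∈ Finset.HasAntidiagonal.antidiagonal k :=
      Finset.HasAntidiagonal.mem_antidiagonal.2 (zero_add k)
    rw [← Finset.add_sum_erase _ _ h5] at h2
    have h6 : ∑ p ∈ (Finset.HasAntidiagonal.antidiagonal k).erase (0, k),
        eval z (tc p.1 u) • dif (tc p.2 G) z ∈ U := by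
      refine Submodule.sum_mem _ fun p hp => Submodule.smul_mem _ _ ?_
      rw [Finset.mem_erase, Finset.HasAntidiagonal.mem_antidiagonal] at hp
      have hlt : p.2 < k := by
        rcases Nat.eq_zero_or_pos p.1 with h7 | h7
        · exfalso
          apply hp.1
          ext
          · exact h7
          · simp only; omega
        · omega
      refine Submodule.span_mono ?_ (ih p.2 hlt)
      rintro v ⟨i, j, hj1, hj2, rfl⟩
      exact ⟨i, j, hj1, by omega, rfl⟩
    have h7 := (Submodule.add_mem_iff_left U h6).1 h2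
    simp only at h7
    rw [tc_zero_order, eval_C] at h7
    exact (Submodule.smul_mem_iff U hu).1 h7

end Base

end H94.Deg
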