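import Pool.Agent.H94.Deg.Defs
import Mathlib.RingTheory.Smooth.Field
import Mathlib.Algebra.TrivSqZeroExt.Basic

/-!
# Extension of derivations of subrings of `ℂ` to `ℂ`
-/

open MvPolynomial

namespace H94.Deg

open H89.Hart H94.Cubic

theorem smooth_of_charZero (K L : Type*) [Field K] [CharZero K] [Field L] [Algebra K L] :
    Algebra.FormallySmooth K L := by
  obtain ⟨ι, x, hx⟩ := exists_isTranscendenceBasis' K L
  have := hx.isAlgebraic_field
  exact .of_algebraicIndependent_of_isSeparable hx.1

/-- lifting of homomorphisms through square zero extensions. -/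
theorem exists_section {A B : Type*} [CommRing A] [IsDomain A] [CommRing B] (i : A →+* ℂ)
    (hi : Function.Injective i) (φ : A →+* B) (π : B →+* ℂ) (hπ : Function.Surjective π)
    (hker : IsNilpotent (RingHom.ker π)) (h : ∀ a, π (φ a) = i a) :
    ∃ s : ℂ →+* B, (∀ x, π (s x) = x) ∧ ∀ a, s (i a) = φ a := by
  have hunit : ∀ b : B, π b ≠ 0 → IsUnit b := by
    intro b hb
    obtain ⟨c, hc⟩ := hπ (π b)⁻¹
    have h1 : b * c - 1 ∈ RingHom.ker π := by
      rw [RingHom.mem_ker, map_sub, map_mul, hc, map_one, mul_inv_cancel₀ hb, sub_self]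
    have h2 : IsNilpotent (b * c - 1) := by
      obtain ⟨n, hn⟩ := hker
      refine ⟨n, ?_⟩
      have := Ideal.pow_mem_pow h1 n
      rw [hn] at this
      exact this
    have h3 : IsUnit (b * c) := by
      have := h2.isUnit_add_one
      simpa using this
    exact isUnit_of_mul_isUnit_left h3
  have hA : ∀ a : nonZeroDivisors A, i a ≠ 0 := fun a ha =>
    nonZeroDivisors.coe_ne_zero a (hi (by rw [ha, map_zero]))
  have hφ : ∀ a : nonZeroDivisors A, IsUnit (φ a) := fun a => hunit _ (by rw [h]; exact hA a)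
  have hi' : ∀ a : nonZeroDivisors A, IsUnit (i a) := fun a => isUnit_iff_ne_zero.2 (hA a)
  let K := FractionRing A
  let _ : Algebra K B := (IsLocalization.lift (S := K) hφ).toAlgebra
  let _ : Algebra K ℂ := (IsLocalization.lift (S := K) hi').toAlgebra
  have e1 : ∀ a : A, algebraMap K B (algebraMap A K a) = φ a := fun a =>
    IsLocalization.lift_eq (S := K) hφ a
  have e2 : ∀ a : A, algebraMap K ℂ (algebraMap A K a) = i a := fun a =>
    IsLocalization.lift_eq (S := K) hi' a
  have e3 : π.comp (algebraMap K B) = algebraMap K ℂ := by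
    apply IsLocalization.ringHom_ext (nonZeroDivisors A)
    ext a
    simp only [RingHom.comp_apply, e1, e2, h]
  have : CharZero K := (algebraMap K ℂ).charZero
  have := smooth_of_charZero K ℂ
  have e4 : ∀ r : K, π (algebraMap K B r) = algebraMap K ℂ r := fun r => by
    have := congrArg (fun f => f r) e3
    exact this
  let π' : B →ₐ[K] ℂ := { π with commutes' := e4 }
  have hk : IsNilpotent (RingHom.ker (π' : B →+* ℂ)) := by
    exact hker
  refine ⟨(Algebra.FormallySmooth.liftOfSurjective (AlgHom.id K ℂ) π' hπ hk : ℂ →ₐ[K] B),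
    fun x => ?_, fun a => ?_⟩
  · exact Algebra.FormallySmooth.liftOfSurjective_apply (AlgHom.id K ℂ) π' hπ hk x
  · rw [← e2, ← e1]
    exact AlgHom.commutes _ _

section

variable {σ : Type*} [Fintype σ] [DecidableEq σ]

theorem dif_map_mul (y : σ → ℂ) (f g : MvPolynomial σ ℂ) (v : σ → ℂ) :
    dif (f * g) y ⬝ᵥ v = eval y f * (dif g y ⬝ᵥ v) + eval y g * (dif f y ⬝ᵥ v) := by
  rw [dif_mul]
  simp [add_dotProduct, smul_dotProduct]

theorem aeval_eps (k : Subfield ℂ) (y v : σ → ℂ) (g : MvPolynomial σ k) :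
    aeval (fun i => (TrivSqZeroExt.inl (y i) + TrivSqZeroExt.inr (v i) : TrivSqZeroExt ℂ ℂ)) g =
      TrivSqZeroExt.inl (eval y (map k.subtype g)) +
        TrivSqZeroExt.inr (dif (map k.subtype g) y ⬝ᵥ v) := by
  induction g using MvPolynomial.induction_on with
  | C a =>
    have h1 : dif (map k.subtype (C a : MvPolynomial σ k)) y ⬝ᵥ v = 0 := by
      have : dif (map k.subtype (C a : MvPolynomial σ k)) y = 0 := by
        funext i
        simp [dif]
      rw [this, zero_dotProduct]
    rw [h1, aeval_C, map_C, eval_C]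
    ext
    · simp [TrivSqZeroExt.algebraMap_eq_inl']
      rfl
    · simp [TrivSqZeroExt.algebraMap_eq_inl']
  | add p q hp hq =>
    rw [map_add, hp, hq, map_add, map_add, dif_add, add_dotProduct]
    ext <;> simp
  | mul_X p i hp =>
    rw [map_mul, hp, map_mul, map_mul, dif_map_mul, aeval_X, map_X, dif_X, eval_X,
      single_one_dotProduct]
    ext
    · simp
    · simp [mul_comm, add_comm]

/-- A2 -/
theorem exists_derivation (k : Subfield ℂ) (y v : σ → ℂ)
    (h : ∀ g : MvPolynomial σ k, eval y (map k.subtype g) = 0 →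
      dif (map k.subtype g) y ⬝ᵥ v = 0) :
    ∃ D : Derivation k ℂ ℂ, ∀ i, D (y i) = v i := by
  have hev : ∀ g : MvPolynomial σ k, aeval y g = eval y (map k.subtype g) := by
    intro g
    rw [eval_map, aeval_def]
    rfl
  let ev : MvPolynomial σ k →ₐ[k] ℂ := aeval y
  let eve : MvPolynomial σ k →ₐ[k] TrivSqZeroExt ℂ ℂ :=
    aeval (fun i => (TrivSqZeroExt.inl (y i) + TrivSqZeroExt.inr (v i) : TrivSqZeroExt ℂ ℂ))
  have hker : RingHom.ker ev.toRingHom ≤ RingHom.ker eve.toRingHom := by
    intro g hg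
    have h0 : eval y (map k.subtype g) = 0 := by rw [← hev]; exact hg
    have h1 : eve g = 0 := by
      rw [show eve g = _ from aeval_eps k y v g, h0, h g h0]
      simp
    exact h1
  obtain ⟨φ, hφ⟩ : ∃ φ : ev.toRingHom.range →+* TrivSqZeroExt ℂ ℂ,
      ∀ g, φ ⟨ev g, ⟨g, rfl⟩⟩ = eve g := by
    refine ⟨RingHom.liftOfSurjective ev.toRingHom.rangeRestrict
      ev.toRingHom.rangeRestrict_surjective ⟨eve.toRingHom, ?_⟩, fun g => ?_⟩
    · intro g hg
      refine hker ?_
      have h1 : ev.toRingHom.rangeRestrict g = 0 := hg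
      have h2 := congrArg Subtype.val h1
      exact h2
    · exact RingHom.liftOfSurjective_comp_apply ev.toRingHom.rangeRestrict
        ev.toRingHom.rangeRestrict_surjective _ g
  obtain ⟨s, hs1, hs2⟩ := exists_section (A := ev.toRingHom.range) (B := TrivSqZeroExt ℂ ℂ)
    (ev.toRingHom.range.subtype) Subtype.val_injective φ
    (TrivSqZeroExt.fstHom ℂ ℂ ℂ).toRingHom (fun x => ⟨TrivSqZeroExt.inl x, by simp⟩) (by
      refine ⟨2, ?_⟩
      rw [pow_two, Ideal.zero_eq_bot, eq_bot_iff, Ideal.mul_le]
      intro a ha b hb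
      have ha' : a.fst = 0 := ha
      have hb' : b.fst = 0 := hb
      rw [Ideal.mem_bot]
      ext
      · simp [ha']
      · simp [ha', hb']) (by
      rintro ⟨_, g, rfl⟩
      have h1 : φ ⟨ev g, ⟨g, rfl⟩⟩ = eve g := hφ g
      have h2 : (eve g).fst = ev g := by
        rw [show eve g = _ from aeval_eps k y v g]
        simp [hev, ev]
      change (φ ⟨ev g, ⟨g, rfl⟩⟩).fst = ev g
      rw [h1, h2])
  have hs1' : ∀ x, (s x).fst = x := hs1
  have hs3 : ∀ g, s (ev g) = eve g := by
    intro g
    rw [← hφ g, ← hs2]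
    rfl
  have hs4 : ∀ a : k, s (a : ℂ) = TrivSqZeroExt.inl (a : ℂ) := by
    intro a
    have h1 := hs3 (C a)
    have h2 : ev (C a) = (a : ℂ) := by
      simp only [ev, aeval_C]
      rfl
    have h3 : eve (C a) = TrivSqZeroExt.inl (a : ℂ) := by
      simp only [eve, aeval_C]
      ext
      · simp [TrivSqZeroExt.algebraMap_eq_inl']
        rfl
      · simp [TrivSqZeroExt.algebraMap_eq_inl']
    rw [h2, h3] at h1
    exact h1
  refine ⟨Derivation.mk' { toFun := fun x => (s x).snd
                           map_add' := fun a b => by simp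
                           map_smul' := fun a b => ?_ } fun a b => ?_, fun i => ?_⟩
  · have : s (a • b) = s (a : ℂ) * s b := by
      rw [← map_mul]; rfl
    rw [this, hs4, TrivSqZeroExt.snd_mul]
    simp
    rfl
  · change (s (a * b)).snd = a • (s b).snd + b • (s a).snd
    rw [map_mul, TrivSqZeroExt.snd_mul, hs1', hs1']
    simp [mul_comm]
  · change (s (y i)).snd = v i
    have h1 := hs3 (X i)
    have h2 : ev (X i) = y i := by simp [ev]
    have h3 : eve (X i) = TrivSqZeroExt.inl (y i) + TrivSqZeroExt.inr (v i) := by simp [eve]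
    rw [h2, h3] at h1
    rw [h1]
    simp

end

end H94.Deg
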