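import Pool.Agent.H94.Deg.PointA1
import Pool.Agent.H94.Deg.PointA2
import Pool.Agent.H94.Deg.Base

/-!
# A3: a very general point: lines through it are free
-/

open MvPolynomial

namespace H94.Deg

open H89.Hart H94.Cubic

variable {σ : Type*} [Fintype σ] [DecidableEq σ]

namespace GenPt

theorem der_eval (k : Subfield ℂ) (D : Derivation k ℂ ℂ) (x : σ → ℂ) (g : MvPolynomial σ k) :
    D (eval x (map k.subtype g)) = dif (map k.subtype g) x ⬝ᵥ fun i => D (x i) := by
  induction g using MvPolynomial.induction_on with
  | C a =>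
    have h1 : dif (map k.subtype (C a : MvPolynomial σ k)) x = 0 := by
      funext i
      simp [dif]
    rw [h1, zero_dotProduct, map_C, eval_C]
    exact D.map_algebraMap a
  | add p q hp hq =>
    rw [map_add, map_add, map_add, hp, hq, dif_add, add_dotProduct]
  | mul_X p i hp =>
    rw [map_mul, map_mul, D.leibniz, hp, dif_map_mul, map_X, dif_X, eval_X,
      single_one_dotProduct]
    simp [smul_eq_mul]

theorem line_dot {I : Ideal (MvPolynomial σ ℂ)} {x u : σ → ℂ}
    (h : ∀ ε : ℂ, x + ε • u ∈ cone I) {f : MvPolynomial σ ℂ} (hf : f ∈ I) :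
    dif f x ⬝ᵥ u = 0 := by
  rw [← coeff_one_ln]
  have : ln x u f = 0 := by
    apply Polynomial.funext
    intro t
    rw [eval_ln, Polynomial.eval_zero]
    exact h t f hf
  rw [this, Polynomial.coeff_zero]

end GenPt

/-- A3 -/
theorem exists_very_general {I : Ideal (MvPolynomial σ ℂ)} {r : ℕ} (hI : Smooth I r)
    (F : Fin r → MvPolynomial σ ℂ) (hF : ∀ i, F i ∈ I) {p : σ → ℂ} (hp : p ∈ cone I)
    (hp0 : p ≠ 0) (hli : LinearIndependent ℂ (fun i => dif (F i) p)) :
    ∃ y ∈ cone I, y ≠ 0 ∧ LinearIndependent ℂ (fun i => dif (F i) y) ∧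
      ∀ z : σ → ℂ, (∀ s t : ℂ, s • y + t • z ∈ cone I) → StarAt I y z := by
  classical
  obtain ⟨l, hl⟩ := exists_dual _ hli
  have hΔp : eval p (mat F l).det ≠ 0 := by
    rw [eval_det_mat]
    have : matAt F l p = 1 := by
      ext i j
      rw [Matrix.one_apply]
      exact hl i j
    rw [this, Matrix.det_one]
    exact one_ne_zero
  obtain ⟨s, hs⟩ : I.FG := IsNoetherian.noetherian I
  let C0 : Finset ℂ := (insert (mat F l).det s).biUnion fun g => g.coeffs
  let k : Subfield ℂ := Subfield.closure (C0 : Set ℂ)
  have hk : Countable k := by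
    rw [← Cardinal.mk_le_aleph0_iff]
    refine (Subfield.cardinalMk_closure_le_max _).trans (max_le ?_ le_rfl)
    exact Cardinal.mk_le_aleph0
  have hlift : ∀ g ∈ insert (mat F l).det s, ∃ g' : MvPolynomial σ k, map k.subtype g' = g := by
    intro g hg
    have : g ∈ Set.range (MvPolynomial.map (σ := σ) k.subtype) := by
      rw [mem_range_map_iff_coeffs_subset]
      intro c hc
      have hc' : c ∈ C0 := Finset.mem_biUnion.2 ⟨g, hg, hc⟩
      exact ⟨⟨c, Subfield.subset_closure hc'⟩, rfl⟩
    exact this
  obtain ⟨y, hy, hyg⟩ := exists_generic_point hI.prime k hk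
  have hy0 : y ≠ 0 := by
    rintro rfl
    apply hp0
    funext i
    have h1 := hyg (X i) (by simp)
    have h2 := hp _ h1
    simpa using h2
  refine ⟨y, hy, hy0, ?_, ?_⟩
  · apply li_of_det F l y
    rw [← eval_det_mat]
    intro h0
    obtain ⟨g', hg'⟩ := hlift _ (Finset.mem_insert_self _ _)
    have := hyg g' (by rw [hg']; exact h0)
    rw [hg'] at this
    exact hΔp (hp _ this)
  · intro z hz v hv
    obtain ⟨D, hD⟩ := exists_derivation k y v (by
      intro g hg
      exact hv _ (mem_N.2 ⟨_, hyg g hg, rfl⟩))
    refine ⟨fun i => D (z i), ?_⟩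
    intro G hG a b
    have hx := hz a b
    have hind : ∀ G ∈ Ideal.span (s : Set (MvPolynomial σ ℂ)),
        dif G (a • y + b • z) ⬝ᵥ (a • v + b • fun i => D (z i)) = 0 := by
      intro G hG
      induction hG using Submodule.span_induction with
      | mem g hg =>
        have hgI : g ∈ I := hs ▸ Ideal.subset_span hg
        obtain ⟨g', rfl⟩ := hlift g (Finset.mem_insert_of_mem hg)
        have h1 := GenPt.der_eval k D (a • y + b • z) g'
        rw [hx _ hgI, map_zero] at h1
        have h2 : (fun i => D ((a • y + b • z) i)) =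
            (a • v + b • fun i => D (z i)) + (D a • y + D b • z) := by
          funext i
          simp only [Pi.add_apply, Pi.smul_apply, smul_eq_mul, map_add, D.leibniz, hD]
          ring
        rw [h2, dotProduct_add, dotProduct_add (v := D a • y), dotProduct_smul (x := D a),
          dotProduct_smul (x := D b)] at h1
        have h3 : dif (map k.subtype g') (a • y + b • z) ⬝ᵥ y = 0 := by
          apply GenPt.line_dot (I := I) (fun ε => ?_) hgI
          have := hz (a + ε) b
          rwa [show a • y + b • z + ε • y = (a + ε) • y + b • z from by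
            rw [add_smul]; abel]
        have h4 : dif (map k.subtype g') (a • y + b • z) ⬝ᵥ z = 0 := by
          apply GenPt.line_dot (I := I) (fun ε => ?_) hgI
          have := hz a (b + ε)
          rwa [show a • y + b • z + ε • z = a • y + (b + ε) • z from by
            rw [add_smul]; abel]
        rw [h3, h4, smul_zero, smul_zero, add_zero, add_zero] at h1
        exact h1.symm
      | zero => rw [dif_zero, zero_dotProduct]
      | add f g _ _ hf hg => rw [dif_add, add_dotProduct, hf, hg, add_zero]
      | smul c f hf ih =>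
        have hfI : f ∈ I := hs ▸ hf
        rw [smul_eq_mul, dif_map_mul, ih, hx _ hfI, mul_zero, zero_mul, add_zero]
    exact hind G (hs ▸ hG)

end H94.Deg
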