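import Pool.Agent.H94.Cubic.Dm

/-!
# The two-cones lemma

Two cones in `ℂ^ι`, the second one given by few equations near a point, meet outside the origin.
-/

open MvPolynomial

namespace H94.Deg

open H89.Hart H94.Cubic

variable {ι : Type*} [Fintype ι] [DecidableEq ι]

/-- Two cones: `V(Q)` and the zero set of the forms `g` near `z₁`. The component `V(P₁)` of the
product `V(Q) × {g = 0}` through `(0, z₁)` meets the diagonal outside the origin. -/
theorem prod_cones {Q : Ideal (MvPolynomial ι ℂ)} (hQ : HP Q) {α : Type*} [Fintype α]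
    (g : α → MvPolynomial ι ℂ) (hg : ∀ a, ∃ d, (g a).IsHomogeneous d) {z₁ : ι → ℂ}
    (hz₁ : ∀ a, eval z₁ (g a) = 0) (hcard : Fintype.card α < dm Q) :
    ∃ P₁ : Ideal (MvPolynomial (ι ⊕ ι) ℂ), HP P₁ ∧ (∀ f ∈ Q, rename Sum.inl f ∈ P₁) ∧
      (∀ a, rename Sum.inr (g a) ∈ P₁) ∧ (Sum.elim 0 z₁ : ι ⊕ ι → ℂ) ∈ cone P₁ ∧
      dm Q + Fintype.card ι ≤ dm P₁ + Fintype.card α ∧
      ∃ z : ι → ℂ, z ≠ 0 ∧ Sum.elim z z ∈ cone P₁ := by
  obtain ⟨z₀, hz₀⟩ := exists_mem_cone hQ.prime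
  have h0Q := zero_mem_of_homog hQ.homog hz₀
  obtain ⟨P₁, hP₁, hQP, hgP, hqP, hd⟩ := comp_rel (ext_HP (κ := ι) hQ)
    (fun a => (rename Sum.inr (g a) : MvPolynomial (ι ⊕ ι) ℂ))
    (fun a => by
      obtain ⟨e, he⟩ := hg a
      exact ⟨e, he.rename_isHomogeneous⟩)
    (q := Sum.elim 0 z₁)
    (by
      rw [mem_cone_ext]
      exact h0Q)
    (fun a => by
      simp only [eval_rename, Sum.elim_comp_inr]
      exact hz₁ a)
  rw [dm_ext hQ] at hd
  refine ⟨P₁, hP₁, fun f hf => hQP (rename_mem_ext hf), hgP, hqP, hd, ?_⟩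
  obtain ⟨z, hz, hz0, hzl⟩ := ne_zero_of_dm hP₁
    (fun i : ι => (X (Sum.inl i) - X (Sum.inr i) : MvPolynomial (ι ⊕ ι) ℂ)) (by simp)
    (by omega)
  have hzz : ∀ i, z (Sum.inl i) = z (Sum.inr i) := by
    intro i
    have := hzl i
    simpa [sub_eq_zero] using this
  have hze : Sum.elim (fun i => z (Sum.inl i)) (fun i => z (Sum.inl i)) = z := by
    funext s
    rcases s with i | i
    · rfl
    · exact hzz i
  refine ⟨fun i => z (Sum.inl i), ?_, ?_⟩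
  · intro h0
    apply hz0
    rw [← hze, h0]
    funext s
    rcases s with i | i <;> rfl
  · rw [hze]
    exact hz

/-- The contraction of an ideal of the product to the second factor. -/
noncomputable def snd (P₁ : Ideal (MvPolynomial (ι ⊕ ι) ℂ)) : Ideal (MvPolynomial ι ℂ) :=
  P₁.comap (rename Sum.inr : MvPolynomial ι ℂ →ₐ[ℂ] MvPolynomial (ι ⊕ ι) ℂ)

omit [Fintype ι] [DecidableEq ι] in
theorem mem_snd {P₁ : Ideal (MvPolynomial (ι ⊕ ι) ℂ)} {f : MvPolynomial ι ℂ} :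
    f ∈ snd P₁ ↔ rename Sum.inr f ∈ P₁ := Iff.rfl

omit [Fintype ι] [DecidableEq ι] in
theorem snd_isPrime {P₁ : Ideal (MvPolynomial (ι ⊕ ι) ℂ)} (h : P₁.IsPrime) :
    (snd P₁).IsPrime := Ideal.comap_isPrime _ _

omit [Fintype ι] [DecidableEq ι] in
theorem mem_cone_snd {P₁ : Ideal (MvPolynomial (ι ⊕ ι) ℂ)} {x y : ι → ℂ}
    (h : Sum.elim x y ∈ cone P₁) : y ∈ cone (snd P₁) := by
  intro f hf
  have := h _ (mem_snd.1 hf)
  rwa [eval_rename, Sum.elim_comp_inr] at this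

/-- Two cones, in the form used most often: there is a common point `z ≠ 0` of `V(Q)` and of a
prime `P'` containing the `g a` and vanishing at `z₁`. -/
theorem prod_cones' {Q : Ideal (MvPolynomial ι ℂ)} (hQ : HP Q) {α : Type*} [Fintype α]
    (g : α → MvPolynomial ι ℂ) (hg : ∀ a, ∃ d, (g a).IsHomogeneous d) {z₁ : ι → ℂ}
    (hz₁ : ∀ a, eval z₁ (g a) = 0) (hcard : Fintype.card α < dm Q) :
    ∃ P' : Ideal (MvPolynomial ι ℂ), P'.IsPrime ∧ (∀ a, g a ∈ P') ∧ z₁ ∈ cone P' ∧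
      ∃ z ∈ cone Q, z ≠ 0 ∧ z ∈ cone P' := by
  obtain ⟨P₁, hP₁, h1, h2, h3, -, z, hz0, hz⟩ := prod_cones hQ g hg hz₁ hcard
  refine ⟨snd P₁, snd_isPrime hP₁.prime, fun a => mem_snd.2 (h2 a), mem_cone_snd h3, z, ?_, hz0,
    mem_cone_snd hz⟩
  intro f hf
  have := hz _ (h1 f hf)
  rwa [eval_rename, Sum.elim_comp_inl] at this

end H94.Deg
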