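import Pool.Agent.H94.Deg.Base
import Pool.Agent.H94.Cubic.Bun

/-!
# The conormal bundle along the lines through the base point splits
-/

open MvPolynomial

set_option linter.unusedSectionVars false
set_option linter.unusedSimpArgs false
set_option linter.unusedVariables false

namespace H94.Deg

open H89.Hart H94.Cubic

variable {ι : Type*} [Fintype ι] [DecidableEq ι]

namespace Theta

/-! ### homogeneous expansions -/

theorem comp_mul {σ : Type*} {f : MvPolynomial σ ℂ} {k : ℕ} (hf : f.IsHomogeneous k)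
    (g : MvPolynomial σ ℂ) (m : ℕ) :
    homogeneousComponent m (g * f) =
      (if k ≤ m then homogeneousComponent (m - k) g else 0) * f := by
  conv_lhs => rw [← sum_homogeneousComponent g, Finset.sum_mul, map_sum]
  have h1 : ∀ i, homogeneousComponent m (homogeneousComponent i g * f) =
      if i + k = m then homogeneousComponent i g * f else 0 := by
    intro i
    have h2 : (homogeneousComponent i g * f).IsHomogeneous (i + k) :=
      (homogeneousComponent_isHomogeneous i g).mul hf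
    rw [homogeneousComponent_of_mem ((mem_homogeneousSubmodule _ _).2 h2)]
    by_cases h : i + k = m
    · rw [if_pos h.symm, if_pos h]
    · rw [if_neg (fun h' => h h'.symm), if_neg h]
  rw [Finset.sum_congr rfl (fun i _ => h1 i)]
  by_cases hkm : k ≤ m
  · rw [if_pos hkm]
    by_cases hm : m - k ≤ g.totalDegree
    · rw [Finset.sum_eq_single (m - k)]
      · rw [if_pos (by omega)]
      · intro b _ hb
        rw [if_neg (by omega)]
      · intro hh
        exact absurd (Finset.mem_range.2 (by omega)) hh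
    · rw [homogeneousComponent_eq_zero (m - k) g (by omega), zero_mul]
      refine Finset.sum_eq_zero fun i hi => ?_
      rw [if_neg]
      have := Finset.mem_range.1 hi
      omega
  · rw [if_neg hkm, zero_mul]
    refine Finset.sum_eq_zero fun i _ => ?_
    rw [if_neg (by omega)]

theorem exists_expansion {σ K : Type*} [Fintype K] {P : Ideal (MvPolynomial σ ℂ)}
    (f : K → MvPolynomial σ ℂ) (e : K → ℕ) (hfh : ∀ κ, (f κ).IsHomogeneous (e κ))
    (hPf : P = Ideal.span (Set.range f)) {p : MvPolynomial σ ℂ} (hp : p ∈ P) {m : ℕ}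
    (hpm : p.IsHomogeneous m) :
    ∃ h : K → MvPolynomial σ ℂ, (∀ κ, h κ = 0 ∨ (e κ ≤ m ∧ (h κ).IsHomogeneous (m - e κ))) ∧
      p = ∑ κ, h κ * f κ := by
  rw [hPf] at hp
  obtain ⟨g, hg⟩ := (Ideal.mem_span_range_iff_exists_fun).1 hp
  refine ⟨fun κ => if e κ ≤ m then homogeneousComponent (m - e κ) (g κ) else 0, ?_, ?_⟩
  · intro κ
    by_cases h : e κ ≤ m
    · right
      refine ⟨h, ?_⟩
      simp only [if_pos h]
      exact homogeneousComponent_isHomogeneous _ _
    · left
      simp only [if_neg h]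
  · have h1 : homogeneousComponent m p = p := by
      rw [homogeneousComponent_of_mem ((mem_homogeneousSubmodule _ _).2 hpm), if_pos rfl]
    rw [← h1, ← hg, map_sum]
    exact Finset.sum_congr rfl fun κ _ => comp_mul (hfh κ) (g κ) m

/-! ### the point `pt` -/

theorem pt_comp_some (s : ℂ) (z : ι → ℂ) : pt s z ∘ some = z := rfl

theorem pt_zero_zero : pt 0 (0 : ι → ℂ) = 0 := by
  funext o; cases o <;> simp [pt]

theorem pt_zero_sum {α : Type*} (s : Finset α) (u : α → ι → ℂ) :
    pt 0 (∑ a ∈ s, u a) = ∑ a ∈ s, pt 0 (u a) := by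
  classical
  induction s using Finset.induction_on with
  | empty => simp [pt_zero_zero]
  | insert a s ha ih => rw [Finset.sum_insert ha, Finset.sum_insert ha, pt_zero_add, ih]

theorem eval_rename_pt (s : ℂ) (z : ι → ℂ) (f : MvPolynomial ι ℂ) :
    eval (pt s z) (rename some f) = eval z f := by
  rw [eval_rename, pt_comp_some]

theorem pderiv_none_rename (f : MvPolynomial ι ℂ) :
    pderiv (none : Option ι) (rename some f) = 0 := by
  induction f using MvPolynomial.induction_on with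
  | C c => simp
  | add p q hp hq => rw [map_add, map_add, hp, hq, add_zero]
  | mul_X p j hp =>
    rw [map_mul, Derivation.leibniz, hp, rename_X, pderiv_X]
    simp

theorem dif_rename_pt (s : ℂ) (z : ι → ℂ) (f : MvPolynomial ι ℂ) :
    dif (rename some f) (pt s z) = pt 0 (dif f z) := by
  funext o
  cases o with
  | none => simp [dif, pt, pderiv_none_rename]
  | some i =>
    simp only [dif, pt, Option.elim]
    rw [pderiv_rename (Option.some_injective ι)]
    exact eval_rename_pt s z _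

theorem pt_ne_zero {s : ℂ} {z : ι → ℂ} (hz : z ≠ 0) : pt s z ≠ 0 := by
  intro h
  apply hz
  funext i
  have := congrFun h (some i)
  simpa [pt] using this

theorem dif_TT {r : ℕ} {K : Type*} [Fintype K] {f : K → MvPolynomial ι ℂ}
    (θ : Fin r → K → MvPolynomial (Option ι) ℂ) (i : Fin r) {z : ι → ℂ}
    (hz : ∀ κ, eval z (f κ) = 0) (s : ℂ) :
    dif (TT f θ i) (pt s z) = pt 0 (∑ κ, eval (pt s z) (θ i κ) • dif (f κ) z) := by
  rw [TT, dif_sum, pt_zero_sum]
  refine Finset.sum_congr rfl fun κ _ => ?_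
  rw [dif_mul, eval_rename_pt, hz, zero_smul, add_zero, dif_rename_pt, pt_zero_smul]

/-! ### conormal vectors along a line kill the vectors `s v + w` -/

theorem dot_telescope {I : Ideal (MvPolynomial (Option ι) ℂ)}
    {G : MvPolynomial (Option ι) ℂ} (hG : G ∈ I) {d : ℕ} (hGd : G.IsHomogeneous d)
    {z v w : ι → ℂ}
    (hw : ∀ G ∈ I, ∀ k, dif (tc (k + 1) G) z ⬝ᵥ v + dif (tc k G) z ⬝ᵥ w = 0) (s : ℂ) :
    (∑ k ∈ Finset.range (d + 1), s ^ (d - k) • dif (tc k G) z) ⬝ᵥ (s • v + w) = 0 := by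
  rw [sum_dotProduct]
  have h1 : ∀ k ∈ Finset.range (d + 1), (s ^ (d - k) • dif (tc k G) z) ⬝ᵥ (s • v + w) =
      s ^ (d + 1 - k) * (dif (tc k G) z ⬝ᵥ v) -
        s ^ (d + 1 - (k + 1)) * (dif (tc (k + 1) G) z ⬝ᵥ v) := by
    intro k hk
    have hk' : k ≤ d := by have := Finset.mem_range.1 hk; omega
    rw [smul_dotProduct, dotProduct_add, dotProduct_smul, smul_eq_mul, smul_eq_mul]
    have h2 : dif (tc k G) z ⬝ᵥ w = - (dif (tc (k + 1) G) z ⬝ᵥ v) := by
      have := hw G hG k
      linear_combination this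
    rw [h2, show d + 1 - k = (d - k) + 1 by omega, show d + 1 - (k + 1) = d - k by omega]
    ring
  rw [Finset.sum_congr rfl h1, Finset.sum_range_sub']
  have h3 : dif (tc (d + 1) G) z = 0 := by
    rw [tc_eq_zero hGd (Nat.lt_succ_self d), dif_zero]
  have h4 : dif (tc 0 G) z = 0 := by
    rw [tc_zero_order]
    funext i
    simp [dif]
  rw [h3, h4]
  simp

/-! ### the recursion -/

section rec

variable {r : ℕ} (a : Fin r → ℕ) (H : Fin r → (Σ i : Fin r, Fin (a i + 1)) → MvPolynomial ι ℂ)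

/-- the coefficients of the splitting. -/
noncomputable def th (i : Fin r) (κ : Σ i : Fin r, Fin (a i + 1)) :
    MvPolynomial (Option ι) ℂ :=
  Fin.reverseInduction (motive := fun _ => MvPolynomial (Option ι) ℂ) (if i = κ.1 then 1 else 0)
    (fun j t => X none * t - rename some (H i ⟨κ.1, j.succ⟩)) κ.2

theorem th_last (i l : Fin r) : th a H i ⟨l, Fin.last (a l)⟩ = if i = l then 1 else 0 := by
  simp [th]

theorem th_castSucc (i l : Fin r) (j : Fin (a l)) :
    th a H i ⟨l, j.castSucc⟩ = X none * th a H i ⟨l, j.succ⟩ - rename some (H i ⟨l, j.succ⟩) := by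
  simp [th]

theorem th_homog (hH : ∀ i κ, H i κ = 0 ∨
      ((κ.2 : ℕ) + 1 ≤ a i + 2 ∧ (H i κ).IsHomogeneous (a i + 2 - ((κ.2 : ℕ) + 1))))
    (i l : Fin r) (j : Fin (a l + 1)) (q : MvPolynomial (Option ι) ℂ)
    (hq : q.IsHomogeneous ((j : ℕ) + 1)) :
    (th a H i ⟨l, j⟩ * q).IsHomogeneous (a i + 1) := by
  induction j using Fin.reverseInduction generalizing q with
  | last =>
    rw [th_last]
    by_cases h : i = l
    · subst h
      rw [if_pos rfl, one_mul]
      simpa using hq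
    · rw [if_neg h, zero_mul]
      exact isHomogeneous_zero _ _ _
  | cast j ih =>
    rw [th_castSucc, sub_mul]
    apply IsHomogeneous.sub
    · have : X none * th a H i ⟨l, j.succ⟩ * q = th a H i ⟨l, j.succ⟩ * (X none * q) := by ring
      rw [this]
      apply ih
      have h1 := (isHomogeneous_X ℂ (none : Option ι)).mul hq
      rw [Fin.val_succ]
      rw [Fin.val_castSucc] at h1
      rwa [add_comm 1] at h1
    · rcases hH i ⟨l, j.succ⟩ with h | ⟨h1, h2⟩
      · rw [h, map_zero, zero_mul]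
        exact isHomogeneous_zero _ _ _
      · have h3 := (h2.rename_isHomogeneous (f := (some : ι → Option ι))).mul hq
        simp only [Fin.val_succ, Fin.val_castSucc] at h1 h3
        have h4 : a i + 2 - ((j : ℕ) + 1 + 1) + ((j : ℕ) + 1) = a i + 1 := by omega
        rwa [h4] at h3

/-- solutions of the recursion are combinations of the `th`. -/
theorem th_unique (s : ℂ) (z : ι → ℂ) (c : (Σ i : Fin r, Fin (a i + 1)) → ℂ)
    (hc : ∀ (l : Fin r) (j : Fin (a l)), s * c ⟨l, j.succ⟩ = c ⟨l, j.castSucc⟩ +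
      ∑ i, c ⟨i, Fin.last (a i)⟩ * eval z (H i ⟨l, j.succ⟩)) (l : Fin r) (j : Fin (a l + 1)) :
    c ⟨l, j⟩ = ∑ i, c ⟨i, Fin.last (a i)⟩ * eval (pt s z) (th a H i ⟨l, j⟩) := by
  induction j using Fin.reverseInduction with
  | last =>
    simp only [th_last]
    rw [Finset.sum_eq_single l]
    · simp
    · intro b _ hb
      rw [if_neg hb]; simp
    · intro h; exact absurd (Finset.mem_univ l) h
  | cast j ih =>
    have h1 := hc l j
    have h2 : ∀ i, c ⟨i, Fin.last (a i)⟩ * eval (pt s z) (th a H i ⟨l, j.castSucc⟩) =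
        s * (c ⟨i, Fin.last (a i)⟩ * eval (pt s z) (th a H i ⟨l, j.succ⟩)) -
          c ⟨i, Fin.last (a i)⟩ * eval z (H i ⟨l, j.succ⟩) := by
      intro i
      rw [th_castSucc, map_sub, map_mul, eval_X, eval_rename_pt]
      simp only [pt, Option.elim]
      ring
    rw [Finset.sum_congr rfl (fun i _ => h2 i), Finset.sum_sub_distrib, ← Finset.mul_sum, ← ih]
    linear_combination (-1 : ℂ) * h1

end rec

/-! ### the coefficients of a conormal vector satisfy the recursion -/

theorem rec_of_mem {I : Ideal (MvPolynomial (Option ι) ℂ)} {r : ℕ} (hI : Smooth I r)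
    (h0 : pt 1 0 ∈ cone I) (F : Fin r → MvPolynomial (Option ι) ℂ)
    (hF : ∀ i, F i ∈ I) (hli : LinearIndependent ℂ (fun i => dif (F i) (pt 1 0)))
    {z : ι → ℂ} (hz : z ∈ cone (J I)) (hst : StarT I z) (a : Fin r → ℕ)
    (hbas : LinearIndependent ℂ (fun κ : (Σ i : Fin r, Fin (a i + 1)) =>
        dif (tc ((κ.2 : ℕ) + 1) (F κ.1)) z))
    (H : Fin r → (Σ i : Fin r, Fin (a i + 1)) → MvPolynomial ι ℂ)
    (hH : ∀ l, dif (tc (a l + 2) (F l)) z =
      ∑ κ : (Σ i : Fin r, Fin (a i + 1)), eval z (H l κ) • dif (tc ((κ.2 : ℕ) + 1) (F κ.1)) z)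
    {G : MvPolynomial (Option ι) ℂ} (hG : G ∈ I) {d : ℕ} (hGd : G.IsHomogeneous d) (s : ℂ)
    (c : (Σ i : Fin r, Fin (a i + 1)) → ℂ)
    (hc : ∑ k ∈ Finset.range (d + 1), s ^ (d - k) • dif (tc k G) z =
      ∑ κ : (Σ i : Fin r, Fin (a i + 1)), c κ • dif (tc ((κ.2 : ℕ) + 1) (F κ.1)) z)
    (l : Fin r) (j : Fin (a l)) : s * c ⟨l, j.succ⟩ = c ⟨l, j.castSucc⟩ +
      ∑ i, c ⟨i, Fin.last (a i)⟩ * eval z (H i ⟨l, j.succ⟩) := by
  obtain ⟨u, hu⟩ := exists_dual_gen _ hbas
  set v := u ⟨l, j.succ⟩ with hv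
  have hv1 : ∀ κ : (Σ i : Fin r, Fin (a i + 1)), dif (tc ((κ.2 : ℕ) + 1) (F κ.1)) z ⬝ᵥ v =
      if κ = ⟨l, j.succ⟩ then 1 else 0 := fun κ => hu κ ⟨l, j.succ⟩
  have hvT : ∀ G ∈ I, dif (tc 1 G) z ⬝ᵥ v = 0 := by
    intro G hG
    have h1 := jet_span hI h0 F hF hli hz hG 1
    refine Submodule.span_induction (p := fun x _ => x ⬝ᵥ v = 0) ?_ ?_ ?_ ?_ h1
    · rintro x ⟨i, k, hk1, hk2, rfl⟩
      obtain rfl : k = 1 := by omega
      have h2 := hv1 ⟨i, 0⟩
      simp only [Fin.val_zero, zero_add] at h2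
      rw [h2, if_neg]
      intro h3
      obtain ⟨rfl, h4⟩ := Sigma.mk.inj_iff.1 h3
      exact (Fin.succ_ne_zero j) (eq_of_heq h4).symm
    · simp
    · intro x y _ _ hx hy
      rw [add_dotProduct, hx, hy, add_zero]
    · intro b x _ hx
      rw [smul_dotProduct, hx, smul_zero]
  obtain ⟨w, hw⟩ := hst v hvT
  have h1 := dot_telescope hG hGd hw s
  rw [hc, sum_dotProduct] at h1
  have h2 : ∀ κ : (Σ i : Fin r, Fin (a i + 1)),
      (c κ • dif (tc ((κ.2 : ℕ) + 1) (F κ.1)) z) ⬝ᵥ (s • v + w) =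
      (if κ = ⟨l, j.succ⟩ then s * c κ else 0) -
        c κ * (dif (tc ((κ.2 : ℕ) + 2) (F κ.1)) z ⬝ᵥ v) := by
    intro κ
    rw [smul_dotProduct, dotProduct_add, dotProduct_smul, hv1, smul_eq_mul, smul_eq_mul]
    have h3 := hw (F κ.1) (hF κ.1) ((κ.2 : ℕ) + 1)
    have h4 : dif (tc ((κ.2 : ℕ) + 1) (F κ.1)) z ⬝ᵥ w =
        - (dif (tc ((κ.2 : ℕ) + 2) (F κ.1)) z ⬝ᵥ v) := by
      linear_combination h3
    rw [h4]
    split_ifs <;> ring
  rw [Finset.sum_congr rfl (fun κ _ => h2 κ), Finset.sum_sub_distrib,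
    Finset.sum_ite_eq' Finset.univ, if_pos (Finset.mem_univ _)] at h1
  have h5 : ∑ κ : (Σ i : Fin r, Fin (a i + 1)),
      c κ * (dif (tc ((κ.2 : ℕ) + 2) (F κ.1)) z ⬝ᵥ v) = c ⟨l, j.castSucc⟩ +
      ∑ i, c ⟨i, Fin.last (a i)⟩ * eval z (H i ⟨l, j.succ⟩) := by
    rw [Fintype.sum_sigma]
    have h6 : ∀ i, ∑ y : Fin (a i + 1),
        c ⟨i, y⟩ * (dif (tc (((⟨i, y⟩ : (Σ i : Fin r, Fin (a i + 1))).2 : ℕ) + 2)
          (F (⟨i, y⟩ : (Σ i : Fin r, Fin (a i + 1))).1)) z ⬝ᵥ v) =
        (if h : i = l then c ⟨l, j.castSucc⟩ else 0) +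
          c ⟨i, Fin.last (a i)⟩ * eval z (H i ⟨l, j.succ⟩) := by
      intro i
      rw [Fin.sum_univ_castSucc]
      congr 1
      · by_cases h : i = l
        · subst h
          rw [dif_pos rfl, Finset.sum_eq_single j]
          · have h7 := hv1 ⟨i, j.succ⟩
            simp only [Fin.val_succ] at h7
            simp only [Fin.val_castSucc]
            rw [show (j : ℕ) + 2 = (j : ℕ) + 1 + 1 from rfl, h7, if_pos trivial, mul_one]
          · intro b _ hb
            have h7 := hv1 ⟨i, b.succ⟩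
            simp only [Fin.val_succ] at h7
            simp only [Fin.val_castSucc]
            rw [show (b : ℕ) + 2 = (b : ℕ) + 1 + 1 from rfl, h7, if_neg, mul_zero]
            intro h8
            apply hb
            have h9 := eq_of_heq (Sigma.mk.inj_iff.1 h8).2
            exact Fin.succ_injective _ h9
          · intro h; exact absurd (Finset.mem_univ j) h
        · rw [dif_neg h]
          refine Finset.sum_eq_zero fun b _ => ?_
          have h7 := hv1 ⟨i, b.succ⟩
          simp only [Fin.val_succ] at h7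
          simp only [Fin.val_castSucc]
          rw [show (b : ℕ) + 2 = (b : ℕ) + 1 + 1 from rfl, h7, if_neg, mul_zero]
          intro h8
          exact h (Sigma.mk.inj_iff.1 h8).1
      · congr 1
        simp only [Fin.val_last]
        rw [hH i, sum_dotProduct]
        rw [Finset.sum_eq_single ⟨l, j.succ⟩]
        · rw [smul_dotProduct, hv1, if_pos rfl, smul_eq_mul, mul_one]
        · intro b _ hb
          rw [smul_dotProduct, hv1, if_neg hb, smul_zero]
        · intro h; exact absurd (Finset.mem_univ _) h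
    rw [Finset.sum_congr rfl (fun i _ => h6 i), Finset.sum_add_distrib]
    congr 1
    simp
  rw [h5] at h1
  linear_combination h1

end Theta

open Theta

/-- E: the conormal bundle along the lines through the base point splits. -/
theorem exists_theta {I : Ideal (MvPolynomial (Option ι) ℂ)} {r : ℕ} (hI : Smooth I r)
    (h0 : pt 1 0 ∈ cone I) (F : Fin r → MvPolynomial (Option ι) ℂ)
    (hF : ∀ i, F i ∈ I) (hli : LinearIndependent ℂ (fun i => dif (F i) (pt 1 0)))
    {P : Ideal (MvPolynomial ι ℂ)} {c : ℕ} (hP : Smooth P c) (hJP : J I ≤ P)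
    (hst : ∀ z ∈ cone P, z ≠ 0 → StarT I z) (a : Fin r → ℕ)
    (hbas : ∀ z ∈ cone P, z ≠ 0 →
      LinearIndependent ℂ (fun κ : (Σ i : Fin r, Fin (a i + 1)) =>
        dif (tc ((κ.2 : ℕ) + 1) (F κ.1)) z) ∧
      Submodule.span ℂ (Set.range fun κ : (Σ i : Fin r, Fin (a i + 1)) =>
        dif (tc ((κ.2 : ℕ) + 1) (F κ.1)) z) = N P z)
    (hPf : P = Ideal.span (Set.range fun κ : (Σ i : Fin r, Fin (a i + 1)) =>
        tc ((κ.2 : ℕ) + 1) (F κ.1))) :
    ∃ θ : Fin r → (Σ i : Fin r, Fin (a i + 1)) → MvPolynomial (Option ι) ℂ,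
      (∀ i l, θ i ⟨l, Fin.last (a l)⟩ = if i = l then 1 else 0) ∧
      (∀ i, (TT (fun κ : (Σ i : Fin r, Fin (a i + 1)) => tc ((κ.2 : ℕ) + 1) (F κ.1)) θ
        i).IsHomogeneous (a i + 1)) ∧
      ∀ z ∈ cone P, z ≠ 0 → ∀ s : ℂ, N I (pt s z) = Submodule.span ℂ (Set.range fun i =>
        dif (TT (fun κ : (Σ i : Fin r, Fin (a i + 1)) => tc ((κ.2 : ℕ) + 1) (F κ.1)) θ i)
          (pt s z)) := by
  set f : (Σ i : Fin r, Fin (a i + 1)) → MvPolynomial ι ℂ :=
    fun κ => tc ((κ.2 : ℕ) + 1) (F κ.1) with hf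
  have hfh : ∀ κ, (f κ).IsHomogeneous ((κ.2 : ℕ) + 1) := fun κ => tc_homog _ _
  have hex : ∀ i : Fin r, ∃ h : (Σ i : Fin r, Fin (a i + 1)) → MvPolynomial ι ℂ,
      (∀ κ, h κ = 0 ∨ ((κ.2 : ℕ) + 1 ≤ a i + 2 ∧
        (h κ).IsHomogeneous (a i + 2 - ((κ.2 : ℕ) + 1)))) ∧
      tc (a i + 2) (F i) = ∑ κ, h κ * f κ := fun i =>
    exists_expansion f (fun κ => (κ.2 : ℕ) + 1) hfh hPf (hJP (tc_mem_J (hF i) (a i + 2)))
      (tc_homog _ _)
  choose H hH1 hH2 using hex
  have hfP : ∀ κ, f κ ∈ P := fun κ => hJP (tc_mem_J (hF κ.1) _)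
  refine ⟨th a H, fun i l => th_last a H i l, ?_, ?_⟩
  · intro i
    apply IsHomogeneous.sum
    rintro ⟨l, j⟩ _
    exact th_homog a H hH1 i l j _ ((hfh ⟨l, j⟩).rename_isHomogeneous)
  · intro z hz hz0 s
    have hfz : ∀ κ, eval z (f κ) = 0 := fun κ => hz _ (hfP κ)
    have hzJ : z ∈ cone (J I) := cone_anti hJP hz
    have hHz : ∀ l, dif (tc (a l + 2) (F l)) z = ∑ κ, eval z (H l κ) • dif (f κ) z := by
      intro l
      rw [hH2 l, dif_sum]
      refine Finset.sum_congr rfl fun κ _ => ?_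
      rw [dif_mul, hfz, zero_smul, add_zero]
    have hle : N I (pt s z) ≤ Submodule.span ℂ (Set.range fun i => dif (TT f (th a H) i)
        (pt s z)) := by
      intro ν hν
      obtain ⟨G, hG, rfl⟩ := mem_N.1 hν
      rw [← sum_homogeneousComponent G, dif_sum]
      refine Submodule.sum_mem _ fun d _ => ?_
      have hGI : homogeneousComponent d G ∈ I := hI.homog G hG d
      have hGd := homogeneousComponent_isHomogeneous d G
      set G' := homogeneousComponent d G with hG'
      have hvan : ∀ k, eval z (tc k G') = 0 := fun k => hzJ _ (tc_mem_J hGI k)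
      rw [dif_pt hGd s hvan]
      have h1 : ∑ k ∈ Finset.range (d + 1), s ^ (d - k) • dif (tc k G') z ∈ N P z := by
        refine Submodule.sum_mem _ fun k _ => Submodule.smul_mem _ _ ?_
        exact mem_N.2 ⟨_, hJP (tc_mem_J hGI k), rfl⟩
      rw [← (hbas z hz hz0).2, Submodule.mem_span_range_iff_exists_fun] at h1
      obtain ⟨c, hc⟩ := h1
      have h2 := rec_of_mem hI h0 F hF hli hzJ (hst z hz hz0) a (hbas z hz hz0).1 H hHz hGI hGd s
        c hc.symm
      have h3 := th_unique a H s z c h2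
      have h4 : ∑ k ∈ Finset.range (d + 1), s ^ (d - k) • pt 0 (dif (tc k G') z) =
          ∑ i, c ⟨i, Fin.last (a i)⟩ • dif (TT f (th a H) i) (pt s z) := by
        have h5 : ∑ k ∈ Finset.range (d + 1), s ^ (d - k) • pt 0 (dif (tc k G') z) =
            pt 0 (∑ k ∈ Finset.range (d + 1), s ^ (d - k) • dif (tc k G') z) := by
          rw [pt_zero_sum]
          exact Finset.sum_congr rfl fun k _ => (pt_zero_smul _ _).symm
        rw [h5, ← hc]
        have h6 : ∀ i, dif (TT f (th a H) i) (pt s z) =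
            pt 0 (∑ κ, eval (pt s z) (th a H i κ) • dif (f κ) z) := fun i => dif_TT _ i hfz s
        have h7 : ∑ κ, c κ • dif (f κ) z =
            ∑ i, c ⟨i, Fin.last (a i)⟩ • ∑ κ, eval (pt s z) (th a H i κ) • dif (f κ) z := by
          simp only [Finset.smul_sum, smul_smul]
          rw [Finset.sum_comm]
          refine Finset.sum_congr rfl fun κ _ => ?_
          rw [← Finset.sum_smul]
          congr 1
          exact h3 κ.1 κ.2
        rw [h7, pt_zero_sum]
        refine Finset.sum_congr rfl fun i _ => ?_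
        rw [h6, pt_zero_smul]
      rw [h4]
      refine Submodule.sum_mem _ fun i _ => Submodule.smul_mem _ _ ?_
      exact Submodule.subset_span ⟨i, rfl⟩
    apply Submodule.eq_of_le_of_finrank_le hle
    have hx : pt s z ∈ cone I := by
      have := (mem_cone_J hI h0).1 hzJ s 1
      rwa [one_smul] at this
    rw [hI.rank _ hx (pt_ne_zero hz0)]
    have := finrank_range_le_card (R := ℂ) (fun i => dif (TT f (th a H) i) (pt s z))
    rwa [Set.finrank, Fintype.card_fin] at this

end H94.Deg
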