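import Pool.Agent.H94.Deg.Base

/-!
# The ideal of the cylinder
-/

open MvPolynomial

set_option linter.unusedSectionVars false
set_option linter.unusedSimpArgs false
set_option linter.unusedVariables false

namespace H94.Deg

open H89.Hart H94.Cubic

variable {ι : Type*} [Fintype ι] [DecidableEq ι]

theorem eval_rename_some (x : Option ι → ℂ) (f : MvPolynomial ι ℂ) :
    eval x (rename some f) = eval (fun i => x (some i)) f := by
  rw [eval_rename]
  rfl

theorem eval_pt_rename (s : ℂ) (z : ι → ℂ) (f : MvPolynomial ι ℂ) :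
    eval (pt s z) (rename some f) = eval z f := eval_rename_some _ _

theorem optionEquivLeft_rename (f : MvPolynomial ι ℂ) :
    optionEquivLeft ℂ ι (rename some f) = Polynomial.C f := by
  induction f using MvPolynomial.induction_on with
  | C a => rw [rename_C, optionEquivLeft_C]
  | add p q hp hq => rw [map_add, map_add, hp, hq, map_add]
  | mul_X p i hp => rw [map_mul, map_mul, hp, rename_X, optionEquivLeft_X_some, map_mul]

theorem rename_mem_cyl {P : Ideal (MvPolynomial ι ℂ)} {f : MvPolynomial ι ℂ} (hf : f ∈ P) :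
    rename some f ∈ cyl P := Ideal.mem_map_of_mem _ hf

theorem cyl_eq_comap (P : Ideal (MvPolynomial ι ℂ)) :
    cyl P = (P.map (Polynomial.C : MvPolynomial ι ℂ →+* Polynomial (MvPolynomial ι ℂ))).comap
      (optionEquivLeft ℂ ι : MvPolynomial (Option ι) ℂ →+* Polynomial (MvPolynomial ι ℂ)) := by
  apply le_antisymm
  · refine Ideal.map_le_iff_le_comap.2 fun f hf => ?_
    rw [Ideal.mem_comap, Ideal.mem_comap]
    change optionEquivLeft ℂ ι (rename some f) ∈ _
    rw [optionEquivLeft_rename]
    exact Ideal.mem_map_of_mem _ hf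
  · intro F hF
    rw [Ideal.mem_comap] at hF
    have h1 : P.map (Polynomial.C : MvPolynomial ι ℂ →+* Polynomial (MvPolynomial ι ℂ)) ≤
        (cyl P).comap ((optionEquivLeft ℂ ι).symm :
          Polynomial (MvPolynomial ι ℂ) →+* MvPolynomial (Option ι) ℂ) := by
      refine Ideal.map_le_iff_le_comap.2 fun f hf => ?_
      rw [Ideal.mem_comap, Ideal.mem_comap]
      change (optionEquivLeft ℂ ι).symm (Polynomial.C f) ∈ _
      rw [← optionEquivLeft_rename, AlgEquiv.symm_apply_apply]
      exact rename_mem_cyl hf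
    have h2 := h1 hF
    rw [Ideal.mem_comap] at h2
    change (optionEquivLeft ℂ ι).symm (optionEquivLeft ℂ ι F) ∈ _ at h2
    rwa [AlgEquiv.symm_apply_apply] at h2

/-- `F` lies in the ideal of the cylinder iff all its coefficients with respect to `X none` lie
in `P`. -/
theorem mem_cyl {P : Ideal (MvPolynomial ι ℂ)} {F : MvPolynomial (Option ι) ℂ} :
    F ∈ cyl P ↔ ∀ n, (optionEquivLeft ℂ ι F).coeff n ∈ P := by
  rw [cyl_eq_comap, Ideal.mem_comap]
  exact Ideal.mem_map_C_iff

theorem cyl_isPrime {P : Ideal (MvPolynomial ι ℂ)} (hP : P.IsPrime) : (cyl P).IsPrime := by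
  rw [cyl_eq_comap]
  exact Ideal.comap_isPrime _ _

theorem mem_cone_cyl {P : Ideal (MvPolynomial ι ℂ)} {x : Option ι → ℂ} :
    x ∈ cone (cyl P) ↔ (fun i => x (some i)) ∈ cone P := by
  constructor
  · intro h f hf
    have := h _ (rename_mem_cyl hf)
    rwa [eval_rename_some] at this
  · intro h F hF
    have h1 : cyl P ≤ RingHom.ker (eval x) := by
      refine Ideal.map_le_iff_le_comap.2 fun f hf => ?_
      rw [Ideal.mem_comap, RingHom.mem_ker]
      change eval x (rename some f) = 0
      rw [eval_rename_some]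
      exact h f hf
    exact RingHom.mem_ker.1 (h1 hF)

theorem pt_mem_cone_cyl {P : Ideal (MvPolynomial ι ℂ)} {s : ℂ} {z : ι → ℂ} :
    pt s z ∈ cone (cyl P) ↔ z ∈ cone P := mem_cone_cyl

theorem cyl_HP {P : Ideal (MvPolynomial ι ℂ)} (hP : P.IsPrime)
    (h : ∀ f ∈ P, ∀ d, homogeneousComponent d f ∈ P) : HP (cyl P) := by
  refine ⟨cyl_isPrime hP, homog_of_smul (cyl_isPrime hP) ?_⟩
  intro z hz c
  rw [mem_cone_cyl] at hz ⊢
  exact smul_mem_of_homog h hz c

/-- the elements of the ideal of the cylinder are the polynomials vanishing at all points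
`pt s z` with `z ≠ 0` in the cone of `P`. -/
theorem mem_cyl_of_vanish {P : Ideal (MvPolynomial ι ℂ)} (hP : P.IsPrime)
    (hne : ∃ z ∈ cone P, z ≠ 0) {F : MvPolynomial (Option ι) ℂ}
    (h : ∀ z ∈ cone P, z ≠ 0 → ∀ s, eval (pt s z) F = 0) : F ∈ cyl P := by
  obtain ⟨z, hz, hz0⟩ := hne
  obtain ⟨k, hk⟩ : ∃ k, z k ≠ 0 := by
    by_contra hc; push Not at hc; exact hz0 (funext hc)
  have hX : (X (some k) : MvPolynomial (Option ι) ℂ) ∉ cyl P := by
    intro hm
    have h1 : pt 0 z ∈ cone (cyl P) := pt_mem_cone_cyl.2 hz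
    have h2 := h1 _ hm
    rw [eval_X] at h2
    exact hk h2
  have hmul : (X (some k) : MvPolynomial (Option ι) ℂ) * F ∈ cyl P := by
    apply mem_of_cone (cyl_isPrime hP)
    intro x hx
    rw [map_mul, eval_X]
    rw [mem_cone_cyl] at hx
    by_cases h0 : (fun i => x (some i)) = 0
    · have : x (some k) = 0 := congrFun h0 k
      rw [this, zero_mul]
    · have h1 := h _ hx h0 (x none)
      rw [pt_eta] at h1
      rw [h1, mul_zero]
  exact ((cyl_isPrime hP).mem_or_mem hmul).resolve_left hX

theorem cyl_span {K : Type*} (f : K → MvPolynomial ι ℂ) :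
    cyl (Ideal.span (Set.range f)) =
      Ideal.span (Set.range fun κ => (rename some (f κ) : MvPolynomial (Option ι) ℂ)) := by
  rw [cyl, Ideal.map_span, ← Set.range_comp]
  rfl

theorem pderiv_rename_some (i : ι) (f : MvPolynomial ι ℂ) :
    pderiv (some i) (rename some f : MvPolynomial (Option ι) ℂ) = rename some (pderiv i f) := by
  induction f using MvPolynomial.induction_on with
  | C a => simp
  | add p q hp hq => simp only [map_add, hp, hq]
  | mul_X p j hp =>
    rw [map_mul, rename_X, Derivation.leibniz, Derivation.leibniz, hp]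
    simp only [smul_eq_mul, map_add, map_mul, rename_X, pderiv_X]
    by_cases h : i = j
    · subst h; simp
    · simp [Pi.single_apply, h, Ne.symm h]

theorem pderiv_rename_none (f : MvPolynomial ι ℂ) :
    pderiv none (rename some f : MvPolynomial (Option ι) ℂ) = 0 := by
  induction f using MvPolynomial.induction_on with
  | C a => simp
  | add p q hp hq => simp only [map_add, hp, hq, add_zero]
  | mul_X p j hp =>
    rw [map_mul, rename_X, Derivation.leibniz, hp, pderiv_X]
    simp

/-- the differential of a polynomial in the last variables. -/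
theorem dif_rename_some (f : MvPolynomial ι ℂ) (x : Option ι → ℂ) :
    dif (rename some f : MvPolynomial (Option ι) ℂ) x = pt 0 (dif f fun i => x (some i)) := by
  funext o
  cases o with
  | none => simp only [dif, pderiv_rename_none, map_zero]; rfl
  | some i => simp only [dif, pderiv_rename_some, eval_rename_some]; rfl

end H94.Deg
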