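import Pool.Agent.H94.Cubic.Dm
import Pool.Agent.H18.Sparse.Crit

/-!
# Smooth varieties with equations of bounded degree, linear bound: definitions

Coordinates: `Option ι`, the base point is `pt 1 0`; `S = ℂ[x_none, x_some i]`, `R = ℂ[x_i]`.
-/

open MvPolynomial

namespace H94.Deg

open H89.Hart

section

variable {ι : Type*} [Fintype ι] [DecidableEq ι]

/-- The point with coordinates `(s, z)`. -/
def pt (s : ℂ) (z : ι → ℂ) : Option ι → ℂ := fun o => o.elim s z

/-- Restriction to the affine chart `x_none = 1`. -/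
noncomputable def dh : MvPolynomial (Option ι) ℂ →ₐ[ℂ] MvPolynomial ι ℂ :=
  aeval (fun o => o.elim 1 X)

/-- The Taylor coefficient of order `k` at the point `(1, 0)`. -/
noncomputable def tc (k : ℕ) (F : MvPolynomial (Option ι) ℂ) : MvPolynomial ι ℂ :=
  homogeneousComponent k (dh F)

/-- The ideal of the union of the lines of `V(I)` through the base point. -/
noncomputable def J (I : Ideal (MvPolynomial (Option ι) ℂ)) : Ideal (MvPolynomial ι ℂ) :=
  Ideal.span {q | ∃ F ∈ I, ∃ k, q = tc k F}

/-- Free lines: every tangent direction at the base point can be followed by the line in the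
direction `z`. -/
def StarT (I : Ideal (MvPolynomial (Option ι) ℂ)) (z : ι → ℂ) : Prop :=
  ∀ v : ι → ℂ, (∀ G ∈ I, dif (tc 1 G) z ⬝ᵥ v = 0) →
    ∃ w : ι → ℂ, ∀ G ∈ I, ∀ k, dif (tc (k + 1) G) z ⬝ᵥ v + dif (tc k G) z ⬝ᵥ w = 0

/-- the ideal of the cylinder over `V(P)`. -/
noncomputable def cyl (P : Ideal (MvPolynomial ι ℂ)) : Ideal (MvPolynomial (Option ι) ℂ) :=
  P.map (rename some : MvPolynomial ι ℂ →ₐ[ℂ] MvPolynomial (Option ι) ℂ)

end

end H94.Deg
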