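import Mathlib

/-!
# Part F: commutative algebra
-/

open MvPolynomial

set_option linter.unusedSectionVars false
set_option linter.unusedSimpArgs false
set_option linter.unusedVariables false

namespace H94.Deg.Ext

variable {A K : Type*} [CommRing A]

/-! ### evaluation of forms in the elements of an ideal -/

theorem split_deg {m : K →₀ ℕ} {n : ℕ} (h : m.degree = n + 1) :
    ∃ κ m', m = Finsupp.single κ 1 + m' ∧ m'.degree = n := by
  classical
  have hm : m ≠ 0 := by
    rintro rfl
    simp at h
  obtain ⟨κ, hκ⟩ := Finsupp.ne_iff.1 hm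
  rw [Finsupp.zero_apply] at hκ
  have hle : Finsupp.single κ 1 ≤ m := by
    intro j
    rw [Finsupp.single_apply]
    split_ifs with hj
    · subst hj; omega
    · exact Nat.zero_le _
  refine ⟨κ, m - Finsupp.single κ 1, (add_tsub_cancel_of_le hle).symm, ?_⟩
  have h1 := congrArg Finsupp.degree (add_tsub_cancel_of_le hle)
  rw [map_add, Finsupp.degree_single, h] at h1
  omega

/-- the value of a monomial. -/
noncomputable def mon (x : K → A) (m : K →₀ ℕ) : A := m.prod fun κ e => x κ ^ e

theorem mon_add (x : K → A) (κ : K) (m : K →₀ ℕ) :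
    mon x (Finsupp.single κ 1 + m) = x κ * mon x m := by
  unfold mon
  rw [Finsupp.prod_add_index']
  · rw [Finsupp.prod_single_index]
    · rw [pow_one]
    · rw [pow_zero]
  · intro a; rw [pow_zero]
  · intro a b c; rw [pow_add]

theorem eval_eq_mon (x : K → A) (p : MvPolynomial K A) :
    eval x p = ∑ m ∈ p.support, coeff m p * mon x m := by
  rw [eval_eq]
  rfl

theorem mon_mem {PP : Ideal A} {x : K → A} (hx : ∀ κ, x κ ∈ PP) (n : ℕ) :
    ∀ m : K →₀ ℕ, m.degree = n → mon x m ∈ PP ^ n := by
  induction n with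
  | zero => intro m _; rw [pow_zero, Ideal.one_eq_top]; trivial
  | succ n ih =>
    intro m hm
    obtain ⟨κ, m', rfl, hm'⟩ := split_deg hm
    rw [mon_add, pow_succ']
    exact Ideal.mul_mem_mul (hx κ) (ih m' hm')

theorem mon_sub_mem {PP TI : Ideal A} {x y : K → A} (hx : ∀ κ, x κ ∈ PP) (hy : ∀ κ, y κ ∈ PP)
    (hxy : ∀ κ, x κ - y κ ∈ TI) (n : ℕ) :
    ∀ m : K →₀ ℕ, m.degree = n + 1 → mon x m - mon y m ∈ TI * PP ^ n := by
  induction n with
  | zero =>
    intro m hm
    obtain ⟨κ, m', rfl, hm'⟩ := split_deg hm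
    have h0 : m' = 0 := (Finsupp.degree_eq_zero_iff m').1 hm'
    subst h0
    rw [mon_add, mon_add, pow_zero, Ideal.one_eq_top, Ideal.mul_top]
    simpa [mon] using hxy κ
  | succ n ih =>
    intro m hm
    obtain ⟨κ, m', rfl, hm'⟩ := split_deg hm
    have h1 : mon x (Finsupp.single κ 1 + m') - mon y (Finsupp.single κ 1 + m') =
        (x κ - y κ) * mon x m' + y κ * (mon x m' - mon y m') := by
      rw [mon_add, mon_add]; ring
    rw [h1]
    refine Ideal.add_mem _ (Ideal.mul_mem_mul (hxy κ) (mon_mem hx _ m' hm')) ?_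
    have h2 := Ideal.mul_mem_mul (hy κ) (ih m' hm')
    rw [pow_succ', mul_left_comm]
    exact h2

theorem eval_mem_mul {Q PP : Ideal A} {x : K → A} (hx : ∀ κ, x κ ∈ PP) {n : ℕ}
    {p : MvPolynomial K A} (hp : p.IsHomogeneous n) (hc : ∀ m, coeff m p ∈ Q) :
    eval x p ∈ Q * PP ^ n := by
  rw [eval_eq_mon]
  refine Ideal.sum_mem _ fun m hm => ?_
  refine Ideal.mul_mem_mul (hc m) (mon_mem hx n m ?_)
  by_contra h
  exact (mem_support_iff.1 hm) (hp.coeff_eq_zero h)

theorem eval_mem_pow {PP : Ideal A} {x : K → A} (hx : ∀ κ, x κ ∈ PP) {n : ℕ}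
    {p : MvPolynomial K A} (hp : p.IsHomogeneous n) : eval x p ∈ PP ^ n := by
  have := eval_mem_mul (Q := ⊤) hx hp (fun m => trivial)
  rwa [Ideal.top_mul] at this

theorem eval_sub_mem {PP TI : Ideal A} {x y : K → A} (hx : ∀ κ, x κ ∈ PP) (hy : ∀ κ, y κ ∈ PP)
    (hxy : ∀ κ, x κ - y κ ∈ TI) {n : ℕ} {p : MvPolynomial K A} (hp : p.IsHomogeneous (n + 1)) :
    eval x p - eval y p ∈ TI * PP ^ n := by
  rw [eval_eq_mon, eval_eq_mon, ← Finset.sum_sub_distrib]
  refine Ideal.sum_mem _ fun m hm => ?_
  rw [← mul_sub]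
  refine Ideal.mul_mem_left _ _ (mon_sub_mem hx hy hxy n m ?_)
  by_contra h
  exact (mem_support_iff.1 hm) (hp.coeff_eq_zero h)

/-- scaling of the arguments of a form. -/
theorem eval_smul_form {n : ℕ} {p : MvPolynomial K A} (hp : p.IsHomogeneous n) (c : A)
    (x : K → A) : eval (fun κ => c * x κ) p = c ^ n * eval x p := by
  have key : ∀ (n : ℕ) (m : K →₀ ℕ), m.degree = n → mon (fun κ => c * x κ) m = c ^ n * mon x m := by
    intro n
    induction n with
    | zero =>
      intro m hm
      have h0 : m = 0 := (Finsupp.degree_eq_zero_iff m).1 hm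
      subst h0
      simp [mon]
    | succ n ih =>
      intro m hm
      obtain ⟨κ, m', rfl, hm'⟩ := split_deg hm
      rw [mon_add, mon_add, ih m' hm', pow_succ]
      ring
  rw [eval_eq_mon, eval_eq_mon, Finset.mul_sum]
  refine Finset.sum_congr rfl fun m hm => ?_
  rw [key n m]
  · ring
  · by_contra h
    exact (mem_support_iff.1 hm) (hp.coeff_eq_zero h)

/-! ### regular sequences of length two modulo a prime ideal -/

/-- `v` is regular modulo `Q + (u)`. -/
def Reg (Q : Ideal A) (u v : A) : Prop := ∀ a b, v * a - u * b ∈ Q → ∃ c, a - u * c ∈ Q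

theorem Reg.pow {Q : Ideal A} (hQ : Q.IsPrime) {u v : A} (hu : u ∉ Q) (h : Reg Q u v) (M : ℕ) :
    Reg Q (u ^ M) (v ^ M) := by
  have s1 : ∀ M : ℕ, ∀ a b, v ^ M * a - u * b ∈ Q → ∃ c, a - u * c ∈ Q := by
    intro M
    induction M with
    | zero => intro a b hab; exact ⟨b, by simpa using hab⟩
    | succ M ih =>
      intro a b hab
      have h1 : v * (v ^ M * a) - u * b ∈ Q := by
        rw [← mul_assoc, ← pow_succ']; exact hab
      obtain ⟨c, hc⟩ := h _ _ h1
      exact ih a c hc
  have s2 : ∀ j : ℕ, ∀ a b, v ^ M * a - u ^ j * b ∈ Q → ∃ c, a - u ^ j * c ∈ Q := by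
    intro j
    induction j with
    | zero => intro a b _; exact ⟨a, by simp⟩
    | succ j ih =>
      intro a b hab
      obtain ⟨c, hc⟩ := s1 M a (u ^ j * b) (by rw [← mul_assoc, ← pow_succ']; exact hab)
      have h1 : u * (v ^ M * c - u ^ j * b) ∈ Q := by
        have h2 := Ideal.sub_mem _ hab (Ideal.mul_mem_left _ (v ^ M) hc)
        have e : v ^ M * a - u ^ (j + 1) * b - v ^ M * (a - u * c) =
            u * (v ^ M * c - u ^ j * b) := by ring
        rwa [e] at h2
      obtain ⟨c', hc'⟩ := ih c b ((hQ.mem_or_mem h1).resolve_left hu)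
      refine ⟨c', ?_⟩
      have h3 := Ideal.add_mem _ hc (Ideal.mul_mem_left _ u hc')
      have e : a - u * c + u * (c - u ^ j * c') = a - u ^ (j + 1) * c' := by ring
      rwa [e] at h3
  exact s2 M

theorem Reg.poly {Q : Ideal A} {u v : A} (h : Reg Q u v) :
    Reg (Q.map (Polynomial.C : A →+* Polynomial A)) (Polynomial.C u) (Polynomial.C v) := by
  intro a b hab
  rw [Ideal.mem_map_C_iff] at hab
  have h1 : ∀ n, ∃ c, a.coeff n - u * c ∈ Q := by
    intro n
    have h2 := hab n
    rw [Polynomial.coeff_sub, Polynomial.coeff_C_mul, Polynomial.coeff_C_mul] at h2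
    exact h _ _ h2
  choose c hc using h1
  refine ⟨∑ n ∈ Finset.range (a.natDegree + 1), Polynomial.monomial n (c n), ?_⟩
  rw [Ideal.mem_map_C_iff]
  intro n
  rw [Polynomial.coeff_sub, Polynomial.coeff_C_mul, Polynomial.finsetSum_coeff]
  by_cases hn : n ∈ Finset.range (a.natDegree + 1)
  · have : ∑ i ∈ Finset.range (a.natDegree + 1), (Polynomial.monomial i (c i)).coeff n = c n := by
      rw [Finset.sum_eq_single n]
      · rw [Polynomial.coeff_monomial, if_pos rfl]
      · intro i _ hi; rw [Polynomial.coeff_monomial, if_neg hi]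
      · intro h'; exact absurd hn h'
    rw [this]
    exact hc n
  · have h2 : ∑ i ∈ Finset.range (a.natDegree + 1), (Polynomial.monomial i (c i)).coeff n = 0 := by
      refine Finset.sum_eq_zero fun i hi => ?_
      rw [Polynomial.coeff_monomial, if_neg]
      rintro rfl
      exact hn hi
    have h3 : a.coeff n = 0 := Polynomial.coeff_eq_zero_of_natDegree_lt (by
      rw [Finset.mem_range] at hn; omega)
    rw [h2, h3]
    simp

/-- coefficientwise division of a form. -/
theorem Reg.form {Q : Ideal A} {u v : A} (h : Reg Q u v) {n : ℕ} {a b : MvPolynomial K A}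
    (ha : a.IsHomogeneous n) (hab : ∀ m, coeff m (C v * a - C u * b) ∈ Q) :
    ∃ c : MvPolynomial K A, c.IsHomogeneous n ∧ ∀ m, coeff m (a - C u * c) ∈ Q := by
  classical
  have h1 : ∀ m, ∃ c, coeff m a - u * c ∈ Q := by
    intro m
    have h2 := hab m
    rw [coeff_sub, coeff_C_mul, coeff_C_mul] at h2
    exact h _ _ h2
  choose c hc using h1
  refine ⟨∑ m ∈ a.support, monomial m (c m), ?_, ?_⟩
  · refine IsHomogeneous.sum _ _ _ fun m hm => isHomogeneous_monomial _ ?_
    by_contra h'
    exact (mem_support_iff.1 hm) (ha.coeff_eq_zero h')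
  · intro m
    rw [coeff_sub, coeff_C_mul, coeff_sum]
    by_cases hm : m ∈ a.support
    · have : ∑ i ∈ a.support, coeff m (monomial i (c i)) = c m := by
        rw [Finset.sum_eq_single m]
        · rw [coeff_monomial, if_pos rfl]
        · intro i _ hi; rw [coeff_monomial, if_neg hi]
        · intro h'; exact absurd hm h'
      rw [this]
      exact hc m
    · have h2 : ∑ i ∈ a.support, coeff m (monomial i (c i)) = 0 := by
        refine Finset.sum_eq_zero fun i hi => ?_
        rw [coeff_monomial, if_neg]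
        rintro rfl
        exact hm hi
      rw [h2, notMem_support_iff.1 hm]
      simp

/-! ### homogeneous ideals -/

section homog

variable {σ : Type*} {k : Type*} [CommRing k]

attribute [local instance] MvPolynomial.gradedAlgebra

theorem homog_iff {I : Ideal (MvPolynomial σ k)} :
    (∀ f ∈ I, ∀ d, homogeneousComponent d f ∈ I) ↔
      I.IsHomogeneous (homogeneousSubmodule σ k) := by
  constructor
  · intro h d f hf
    have := h f hf d
    rw [← decomposition.decompose'_apply] at this
    exact this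
  · intro h f hf d
    exact homogeneousComponent_mem_of_mem h hf d

theorem homog_sup {I J : Ideal (MvPolynomial σ k)}
    (hI : ∀ f ∈ I, ∀ d, homogeneousComponent d f ∈ I)
    (hJ : ∀ f ∈ J, ∀ d, homogeneousComponent d f ∈ J) :
    ∀ f ∈ I ⊔ J, ∀ d, homogeneousComponent d f ∈ I ⊔ J := by
  intro f hf d
  obtain ⟨a, ha, b, hb, rfl⟩ := Submodule.mem_sup.1 hf
  rw [map_add]
  exact Ideal.add_mem _ (Ideal.mem_sup_left (hI a ha d)) (Ideal.mem_sup_right (hJ b hb d))

theorem homog_pow {I : Ideal (MvPolynomial σ k)}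
    (hI : ∀ f ∈ I, ∀ d, homogeneousComponent d f ∈ I) (n : ℕ) :
    ∀ f ∈ I ^ n, ∀ d, homogeneousComponent d f ∈ I ^ n := by
  rw [homog_iff] at hI ⊢
  induction n with
  | zero => rw [pow_zero, Ideal.one_eq_top]; exact Ideal.IsHomogeneous.top _
  | succ n ih => rw [pow_succ]; exact ih.mul hI

/-- multiplication by a form shifts the homogeneous components. -/
theorem homogeneousComponent_mul_form {e : ℕ} {u : MvPolynomial σ k} (hu : u.IsHomogeneous e)
    (d : ℕ) (f : MvPolynomial σ k) :
    homogeneousComponent (e + d) (u * f) = u * homogeneousComponent d f := by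
  have h1 : u * f = ∑ i ∈ Finset.range (f.totalDegree + 1), u * homogeneousComponent i f := by
    rw [← Finset.mul_sum, sum_homogeneousComponent]
  rw [h1, map_sum]
  have h2 : ∀ i, homogeneousComponent (e + d) (u * homogeneousComponent i f) =
      if i = d then u * homogeneousComponent d f else 0 := by
    intro i
    have h3 : (u * homogeneousComponent i f).IsHomogeneous (e + i) :=
      hu.mul (homogeneousComponent_isHomogeneous i f)
    rw [homogeneousComponent_of_mem h3]
    by_cases h : i = d
    · subst h; simp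
    · rw [if_neg h, if_neg (by omega)]
  rw [Finset.sum_congr rfl (fun i _ => h2 i), Finset.sum_ite_eq']
  split_ifs with h
  · rfl
  · rw [homogeneousComponent_eq_zero d f (by simpa using h), mul_zero]

end homog

end H94.Deg.Ext
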