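import Pool.Agent.H94.Deg.Defs

/-!
# Jets of curves in a smooth variety
-/

open MvPolynomial

namespace H94.Deg

open H89.Hart

section

variable {σ : Type*} [Fintype σ] [DecidableEq σ]

omit [Fintype σ] [DecidableEq σ] in
theorem coeff_zero_aeval {γ : σ → Polynomial ℂ} {x : σ → ℂ} (h : ∀ i, (γ i).coeff 0 = x i)
    (P : MvPolynomial σ ℂ) : (aeval γ P : Polynomial ℂ).coeff 0 = eval x P := by
  induction P using MvPolynomial.induction_on with
  | C c => simp
  | add p q hp hq => rw [map_add, Polynomial.coeff_add, hp, hq, map_add]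
  | mul_X p j hp => rw [map_mul, Polynomial.mul_coeff_zero, hp, map_mul, aeval_X, h, eval_X]

/-- first order Taylor expansion along a correction of order `b`. -/
theorem taylor_one {γ : σ → Polynomial ℂ} {x : σ → ℂ} (h : ∀ i, (γ i).coeff 0 = x i)
    (w : σ → ℂ) {b : ℕ} (hb : 1 ≤ b) (P : MvPolynomial σ ℂ) :
    (Polynomial.X ^ (b + 1) : Polynomial ℂ) ∣
      aeval (fun i => γ i + Polynomial.C (w i) * Polynomial.X ^ b) P - aeval γ P -
        Polynomial.X ^ b * Polynomial.C (dif P x ⬝ᵥ w) := by
  induction P using MvPolynomial.induction_on with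
  | C c =>
    have e : dif (C c : MvPolynomial σ ℂ) x = 0 := by
      funext i; simp [dif]
    simp [e]
  | add p q hp hq =>
    rw [map_add, map_add, dif_add, add_dotProduct, Polynomial.C_add]
    have := dvd_add hp hq
    convert this using 1
    ring
  | mul_X p j hp =>
    obtain ⟨r, hr⟩ := hp
    have e1 : (aeval (fun i => γ i + Polynomial.C (w i) * Polynomial.X ^ b) p : Polynomial ℂ) =
        aeval γ p + Polynomial.X ^ b * Polynomial.C (dif p x ⬝ᵥ w) +
          Polynomial.X ^ (b + 1) * r := by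
      rw [← hr]; ring
    have e2 : dif (p * X j) x ⬝ᵥ w = (dif p x ⬝ᵥ w) * x j + eval x p * w j := by
      rw [dif_mul, dif_X, add_dotProduct, smul_dotProduct, smul_dotProduct]
      simp only [eval_X, smul_eq_mul, single_dotProduct, one_mul]
      ring
    obtain ⟨r1, hr1⟩ : (Polynomial.X : Polynomial ℂ) ∣ γ j - Polynomial.C (x j) := by
      rw [Polynomial.X_dvd_iff]
      simp [h]
    obtain ⟨r2, hr2⟩ : (Polynomial.X : Polynomial ℂ) ∣ aeval γ p - Polynomial.C (eval x p) := by
      rw [Polynomial.X_dvd_iff, Polynomial.coeff_sub, coeff_zero_aeval h]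
      simp
    obtain ⟨b', rfl⟩ : ∃ b', b = b' + 1 := ⟨b - 1, by omega⟩
    have e3 : γ j = Polynomial.C (x j) + Polynomial.X * r1 := by rw [← hr1]; ring
    have e4 : (aeval γ p : Polynomial ℂ) = Polynomial.C (eval x p) + Polynomial.X * r2 := by
      rw [← hr2]; ring
    rw [map_mul, map_mul, aeval_X, aeval_X, e1, e2, Polynomial.C_add, Polynomial.C_mul,
      Polynomial.C_mul]
    refine ⟨r * (γ j + Polynomial.C (w j) * Polynomial.X ^ (b' + 1)) +
      Polynomial.C (dif p x ⬝ᵥ w) * r1 + r2 * Polynomial.C (w j) +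
      Polynomial.X ^ b' * Polynomial.C (dif p x ⬝ᵥ w) * Polynomial.C (w j), ?_⟩
    rw [e3, e4]
    ring

/-- F1: jets of curves in a smooth variety. -/
theorem exists_jet {σ : Type*} [Fintype σ] [DecidableEq σ] {I : Ideal (MvPolynomial σ ℂ)}
    {r : ℕ} (hI : Smooth I r) {x : σ → ℂ} (hx : x ∈ cone I) (hx0 : x ≠ 0) {v : σ → ℂ}
    (hv : ∀ φ ∈ N I x, φ ⬝ᵥ v = 0) (a : ℕ) :
    ∃ γ : σ → Polynomial ℂ, (∀ i, (γ i).coeff 0 = x i) ∧ (∀ i, (γ i).coeff 1 = v i) ∧
      ∀ G ∈ I, (Polynomial.X ^ (a + 1) : Polynomial ℂ) ∣ aeval γ G := by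
  obtain ⟨g, l, hg, -, hli, hmat⟩ := exists_frame hI hx hx0
  -- the curve for the frame
  have key : ∀ a : ℕ, ∃ γ : σ → Polynomial ℂ, (∀ i, (γ i).coeff 0 = x i) ∧
      (∀ i, (γ i).coeff 1 = v i) ∧
      ∀ j, (Polynomial.X ^ (a + 2) : Polynomial ℂ) ∣ aeval γ (g j) := by
    intro a
    induction a with
    | zero =>
      refine ⟨fun i => Polynomial.C (x i) + Polynomial.C (v i) * Polynomial.X, ?_, ?_, ?_⟩
      · intro i; simp
      · intro i; simp [Polynomial.coeff_C]
      · intro j
        rw [Polynomial.X_pow_dvd_iff]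
        intro k hk
        have e0 : (aeval (fun i => Polynomial.C (x i) + Polynomial.C (v i) * Polynomial.X)
          (g j) : Polynomial ℂ) = ln x v (g j) := rfl
        rw [e0]
        interval_cases k
        · rw [coeff_zero_ln]; exact hx _ (hg j)
        · rw [coeff_one_ln]; exact hv _ (mem_N.2 ⟨g j, hg j, rfl⟩)
    | succ a ih =>
      obtain ⟨γ, h0, h1, h2⟩ := ih
      choose E hE using h2
      set w : σ → ℂ := -∑ j, (E j).coeff 0 • l j with hw
      have hgw : ∀ j, dif (g j) x ⬝ᵥ w = -(E j).coeff 0 := by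
        intro j
        rw [hw, dotProduct_neg, dotProduct_sum]
        have e : ∀ k, dif (g j) x ⬝ᵥ ((E k).coeff 0 • l k) =
            if j = k then (E k).coeff 0 else 0 := by
          intro k
          have := congrFun (congrFun hmat j) k
          simp only [matAt, Matrix.of_apply, Matrix.one_apply] at this
          rw [dotProduct_smul, this]
          split_ifs <;> simp
        rw [Finset.sum_congr rfl (fun k _ => e k)]
        simp
      refine ⟨fun i => γ i + Polynomial.C (w i) * Polynomial.X ^ (a + 2), ?_, ?_, ?_⟩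
      · intro i
        simp [h0, Polynomial.coeff_X_pow]
      · intro i
        simp [h1, Polynomial.coeff_X_pow]
      · intro j
        have ht := taylor_one h0 w (b := a + 2) (by omega) (g j)
        obtain ⟨r1, hr1⟩ : (Polynomial.X : Polynomial ℂ) ∣
            E j - Polynomial.C ((E j).coeff 0) := by
          rw [Polynomial.X_dvd_iff]
          simp
        obtain ⟨r2, hr2⟩ := ht
        have e5 : (aeval (fun i => γ i + Polynomial.C (w i) * Polynomial.X ^ (a + 2)) (g j) :
            Polynomial ℂ) = aeval γ (g j) +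
            Polynomial.X ^ (a + 2) * Polynomial.C (dif (g j) x ⬝ᵥ w) +
            Polynomial.X ^ (a + 2 + 1) * r2 := by
          rw [← hr2]; ring
        have e6 : E j = Polynomial.C ((E j).coeff 0) + Polynomial.X * r1 := by
          rw [← hr1]; ring
        rw [e5, hE j, hgw, Polynomial.C_neg]
        refine ⟨r1 + r2, ?_⟩
        linear_combination (Polynomial.X ^ (a + 2)) * e6
  obtain ⟨γ, h0, h1, h2⟩ := key a
  refine ⟨γ, h0, h1, ?_⟩
  intro G hG
  obtain ⟨u, hu, hmem⟩ := L0 hI g hg hx hx0 hli hG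
  have h3 : ∀ q ∈ Ideal.span (Set.range g), (Polynomial.X ^ (a + 1) : Polynomial ℂ) ∣
      aeval γ q := by
    intro q hq
    refine Submodule.span_induction ?_ ?_ ?_ ?_ hq
    · rintro _ ⟨j, rfl⟩
      exact (pow_dvd_pow _ (by omega)).trans (h2 j)
    · simp
    · intro p q _ _ hp hq
      rw [map_add]
      exact dvd_add hp hq
    · intro c p _ hp
      rw [smul_eq_mul, map_mul]
      exact dvd_mul_of_dvd_right hp _
  have h4 := h3 _ hmem
  rw [map_mul] at h4
  refine IsCoprime.dvd_of_dvd_mul_left ?_ h4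
  apply IsCoprime.pow_left
  rw [Polynomial.irreducible_X.coprime_iff_not_dvd, Polynomial.X_dvd_iff, coeff_zero_aeval h0]
  exact hu

end

end H94.Deg
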