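import Pool.Agent.H94.Deg.Defs

/-! The forms `T i` (shared by the parts E and F). -/

open MvPolynomial

namespace H94.Deg

variable {ι : Type*} [Fintype ι] [DecidableEq ι]

/-- the forms `T i = ∑ κ, θ i κ * f κ`. -/
noncomputable def TT {r : ℕ} {K : Type*} [Fintype K] (f : K → MvPolynomial ι ℂ)
    (θ : Fin r → K → MvPolynomial (Option ι) ℂ) (i : Fin r) : MvPolynomial (Option ι) ℂ :=
  ∑ κ, θ i κ * rename some (f κ)

end H94.Deg
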