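import Pool.Agent.H94.Deg.Cyl
import Pool.Agent.H94.Deg.TT
import Pool.Agent.H94.Deg.ExtAlg
import Pool.Agent.H94.Deg.Jet
import Pool.Agent.H94.Cubic.Bun

/-!
# Part F: forms in the equations of the cylinder which lie in the ideal
-/

open MvPolynomial

set_option linter.unusedSectionVars false
set_option linter.unusedSimpArgs false
set_option linter.unusedVariables false

namespace H94.Deg.Ext

open H89.Hart H94.Cubic

theorem hom_eval {A B K : Type*} [CommRing A] [CommRing B] (φ : A →+* B) (F : K → A)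
    (p : MvPolynomial K A) : φ (eval F p) = eval (fun κ => φ (F κ)) (map φ p) := by
  induction p using MvPolynomial.induction_on with
  | C a => simp
  | add p q hp hq => simp only [map_add, hp, hq]
  | mul_X p i hp => simp only [map_mul, hp, eval_X, map_X]

section jet

variable {σ : Type*} [Fintype σ] [DecidableEq σ]

theorem coeff_zero_aeval {γ : σ → Polynomial ℂ} {x : σ → ℂ} (h0 : ∀ i, (γ i).coeff 0 = x i)
    (G : MvPolynomial σ ℂ) : (aeval γ G).coeff 0 = eval x G := by
  induction G using MvPolynomial.induction_on with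
  | C a => simp
  | add p q hp hq => rw [map_add, Polynomial.coeff_add, hp, hq, map_add]
  | mul_X p i hp => rw [map_mul, Polynomial.mul_coeff_zero, hp, aeval_X, h0, map_mul, eval_X]

theorem coeff_one_aeval {γ : σ → Polynomial ℂ} {x v : σ → ℂ} (h0 : ∀ i, (γ i).coeff 0 = x i)
    (h1 : ∀ i, (γ i).coeff 1 = v i) (G : MvPolynomial σ ℂ) :
    (aeval γ G).coeff 1 = dif G x ⬝ᵥ v := by
  induction G using MvPolynomial.induction_on with
  | C a =>
    have e : dif (C a : MvPolynomial σ ℂ) x = 0 := by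
      funext i
      simp [dif]
    rw [e, zero_dotProduct, aeval_C, Polynomial.algebraMap_apply, Polynomial.coeff_C]
    simp
  | add p q hp hq => rw [map_add, Polynomial.coeff_add, hp, hq, dif_add, add_dotProduct]
  | mul_X p i hp =>
    rw [map_mul, aeval_X, Polynomial.mul_coeff_one]
    rw [coeff_zero_aeval h0, hp, h0, h1, dif_mul, dif_X, add_dotProduct, smul_dotProduct,
      smul_dotProduct, single_dotProduct, eval_X, smul_eq_mul, smul_eq_mul, one_mul]
    ring

/-- E1: a form of degree `a` in polynomials vanishing at a point, evaluated along a jet. -/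
theorem jet_vanish {I : Ideal (MvPolynomial σ ℂ)} {K : Type*} {x v : σ → ℂ} {a : ℕ}
    {γ : σ → Polynomial ℂ} (h0 : ∀ i, (γ i).coeff 0 = x i) (h1 : ∀ i, (γ i).coeff 1 = v i)
    (hγ : ∀ G ∈ I, (Polynomial.X ^ (a + 1) : Polynomial ℂ) ∣ aeval γ G)
    {F : K → MvPolynomial σ ℂ} (hF : ∀ κ, eval x (F κ) = 0)
    {p : MvPolynomial K (MvPolynomial σ ℂ)} (hp : p.IsHomogeneous a) (hpI : eval F p ∈ I) :
    eval (fun κ => dif (F κ) x ⬝ᵥ v) (map (eval x) p) = 0 := by
  have hq : ∀ κ, ∃ q : Polynomial ℂ, aeval γ (F κ) = Polynomial.X * q := by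
    intro κ
    have h2 : (Polynomial.X : Polynomial ℂ) ∣ aeval γ (F κ) := by
      rw [Polynomial.X_dvd_iff, coeff_zero_aeval h0, hF]
    obtain ⟨q, hq⟩ := h2
    exact ⟨q, hq⟩
  choose q hq using hq
  have hq0 : ∀ κ, (q κ).coeff 0 = dif (F κ) x ⬝ᵥ v := by
    intro κ
    rw [← coeff_one_aeval h0 h1, hq κ, mul_comm, Polynomial.coeff_mul_X]
  -- evaluate along the jet
  have e1 : aeval γ (eval F p) = eval (fun κ => aeval γ (F κ))
      (map (aeval γ : MvPolynomial σ ℂ →ₐ[ℂ] Polynomial ℂ).toRingHom p) :=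
    hom_eval (aeval γ : MvPolynomial σ ℂ →ₐ[ℂ] Polynomial ℂ).toRingHom F p
  have e2 : aeval γ (eval F p) = Polynomial.X ^ a * eval q
      (map (aeval γ : MvPolynomial σ ℂ →ₐ[ℂ] Polynomial ℂ).toRingHom p) := by
    rw [e1, ← eval_smul_form (hp.map _) Polynomial.X q]
    have e : (fun κ => aeval γ (F κ)) = fun κ => Polynomial.X * q κ := funext hq
    rw [e]
  have h2 : (Polynomial.X : Polynomial ℂ) ∣ eval q
      (map (aeval γ : MvPolynomial σ ℂ →ₐ[ℂ] Polynomial ℂ).toRingHom p) := by
    have h3 := hγ _ hpI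
    rw [e2, pow_succ] at h3
    exact (mul_dvd_mul_iff_left (pow_ne_zero a Polynomial.X_ne_zero)).1 h3
  rw [Polynomial.X_dvd_iff] at h2
  have e3 : (eval q (map (aeval γ : MvPolynomial σ ℂ →ₐ[ℂ] Polynomial ℂ).toRingHom p)).coeff 0 =
      eval (fun κ => dif (F κ) x ⬝ᵥ v) (map (eval x) p) := by
    have h4 : (fun κ => dif (F κ) x ⬝ᵥ v) = fun κ => Polynomial.constantCoeff (q κ) := by
      funext κ
      rw [Polynomial.constantCoeff_apply, hq0]
    have h5 : eval x = (Polynomial.constantCoeff : Polynomial ℂ →+* ℂ).comp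
        (aeval γ : MvPolynomial σ ℂ →ₐ[ℂ] Polynomial ℂ).toRingHom := by
      ext G
      · simp
      · rw [RingHom.comp_apply]
        change _ = Polynomial.constantCoeff (aeval γ (X G))
        rw [Polynomial.constantCoeff_apply, coeff_zero_aeval h0]
    rw [h4, h5, ← MvPolynomial.map_map, ← Polynomial.constantCoeff_apply]
    exact hom_eval Polynomial.constantCoeff q _
  rw [← e3, h2]

end jet

section ctx

variable {ι K : Type*} [Fintype ι] [DecidableEq ι] [Fintype K] [DecidableEq K] {r : ℕ}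

/-- the equations of the cylinder. -/
noncomputable def FF (f : K → MvPolynomial ι ℂ) (κ : K) : MvPolynomial (Option ι) ℂ :=
  rename some (f κ)

/-- the linear forms `T i (Z)`. -/
noncomputable def TZ (θ : Fin r → K → MvPolynomial (Option ι) ℂ) (i : Fin r) :
    MvPolynomial K (MvPolynomial (Option ι) ℂ) := ∑ κ, C (θ i κ) * X κ

/-- elimination of the variables `Z (top i)`. -/
noncomputable def rho (θ : Fin r → K → MvPolynomial (Option ι) ℂ) (top : Fin r → K) :
    MvPolynomial K (MvPolynomial (Option ι) ℂ) →ₐ[MvPolynomial (Option ι) ℂ]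
      MvPolynomial K (MvPolynomial (Option ι) ℂ) :=
  aeval (fun κ => X κ - ∑ i, if κ = top i then TZ θ i else 0)

theorem rho_C (θ : Fin r → K → MvPolynomial (Option ι) ℂ) (top : Fin r → K)
    (a : MvPolynomial (Option ι) ℂ) : rho θ top (C a) = C a := by
  rw [rho, aeval_C, MvPolynomial.algebraMap_eq]

/-- the corresponding substitution of points. -/
def sb {A : Type*} [CommRing A] (t : Fin r → K → A) (top : Fin r → K) (ζ : K → A) (κ : K) : A :=
  ζ κ - ∑ i, if κ = top i then ∑ κ', t i κ' * ζ κ' else 0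

theorem eval_TZ (θ : Fin r → K → MvPolynomial (Option ι) ℂ) (ζ : K → MvPolynomial (Option ι) ℂ)
    (i : Fin r) : eval ζ (TZ θ i) = ∑ κ', θ i κ' * ζ κ' := by
  rw [TZ, map_sum]
  refine Finset.sum_congr rfl fun κ' _ => ?_
  rw [map_mul, eval_C, eval_X]

theorem eval_map_TZ (θ : Fin r → K → MvPolynomial (Option ι) ℂ) (x : Option ι → ℂ)
    (ζ : K → ℂ) (i : Fin r) :
    eval ζ (map (eval x) (TZ θ i)) = ∑ κ', eval x (θ i κ') * ζ κ' := by
  rw [TZ, map_sum, map_sum]
  refine Finset.sum_congr rfl fun κ' _ => ?_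
  rw [map_mul, map_mul, map_C, map_X, eval_C, eval_X]

theorem eval_rho_X (θ : Fin r → K → MvPolynomial (Option ι) ℂ) (top : Fin r → K)
    (ζ : K → MvPolynomial (Option ι) ℂ) (κ : K) :
    eval ζ (rho θ top (X κ)) = sb θ top ζ κ := by
  have h1 : ∀ i, eval ζ (if κ = top i then TZ θ i else 0) =
      if κ = top i then ∑ κ', θ i κ' * ζ κ' else 0 := by
    intro i
    split_ifs
    · exact eval_TZ θ ζ i
    · exact map_zero _
  rw [rho, aeval_X, map_sub, eval_X, map_sum, Finset.sum_congr rfl (fun i _ => h1 i), sb]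

theorem eval_map_rho_X (θ : Fin r → K → MvPolynomial (Option ι) ℂ) (top : Fin r → K)
    (x : Option ι → ℂ) (ζ : K → ℂ) (κ : K) :
    eval ζ (map (eval x) (rho θ top (X κ))) = sb (fun i κ => eval x (θ i κ)) top ζ κ := by
  have h1 : ∀ i, eval ζ (map (eval x) (if κ = top i then TZ θ i else 0)) =
      if κ = top i then ∑ κ', eval x (θ i κ') * ζ κ' else 0 := by
    intro i
    split_ifs
    · exact eval_map_TZ θ x ζ i
    · rw [map_zero, map_zero]
  rw [rho, aeval_X, map_sub, map_sub, map_X, eval_X, map_sum, map_sum,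
    Finset.sum_congr rfl (fun i _ => h1 i), sb]

theorem eval_rho (θ : Fin r → K → MvPolynomial (Option ι) ℂ) (top : Fin r → K)
    (ζ : K → MvPolynomial (Option ι) ℂ) (p : MvPolynomial K (MvPolynomial (Option ι) ℂ)) :
    eval ζ (rho θ top p) = eval (sb θ top ζ) p := by
  induction p using MvPolynomial.induction_on with
  | C a => rw [rho_C, eval_C, eval_C]
  | add p q hp hq => simp only [map_add, hp, hq]
  | mul_X p κ hp => rw [map_mul, map_mul, hp, map_mul, eval_X, eval_rho_X]

theorem eval_map_rho (θ : Fin r → K → MvPolynomial (Option ι) ℂ) (top : Fin r → K)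
    (x : Option ι → ℂ) (ζ : K → ℂ) (p : MvPolynomial K (MvPolynomial (Option ι) ℂ)) :
    eval ζ (map (eval x) (rho θ top p)) =
      eval (sb (fun i κ => eval x (θ i κ)) top ζ) (map (eval x) p) := by
  induction p using MvPolynomial.induction_on with
  | C a => rw [rho_C, map_C, eval_C, eval_C]
  | add p q hp hq => simp only [map_add, hp, hq]
  | mul_X p κ hp =>
    rw [map_mul, map_mul, map_mul, hp, map_mul, map_mul, map_X, eval_X, eval_map_rho_X]

theorem TZ_homog (θ : Fin r → K → MvPolynomial (Option ι) ℂ) (i : Fin r) :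
    (TZ θ i).IsHomogeneous 1 :=
  IsHomogeneous.sum _ _ _ fun κ _ => isHomogeneous_C_mul_X _ _

theorem rho_homog (θ : Fin r → K → MvPolynomial (Option ι) ℂ) (top : Fin r → K) {a : ℕ}
    {p : MvPolynomial K (MvPolynomial (Option ι) ℂ)} (hp : p.IsHomogeneous a) :
    (rho θ top p).IsHomogeneous a := by
  have h := hp.aeval (n := 1) (fun κ : K => (X κ - ∑ i, if κ = top i then TZ θ i else 0 :
    MvPolynomial K (MvPolynomial (Option ι) ℂ))) (by
      intro κ
      refine (isHomogeneous_X _ κ).sub (IsHomogeneous.sum _ _ _ fun i _ => ?_)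
      split_ifs
      · exact TZ_homog θ i
      · exact isHomogeneous_zero _ _ _)
  rw [one_mul] at h
  exact h

/-- the hypotheses of part F. -/
structure Ctx (I : Ideal (MvPolynomial (Option ι) ℂ)) (P : Ideal (MvPolynomial ι ℂ))
    (f : K → MvPolynomial ι ℂ) (θ : Fin r → K → MvPolynomial (Option ι) ℂ)
    (top : Fin r → K) : Prop where
  hI : Smooth I r
  hP : HP P
  hPf : P = Ideal.span (Set.range f)
  hli : ∀ z ∈ cone P, z ≠ 0 → LinearIndependent ℂ (fun κ => dif (f κ) z)
  hne : ∃ z ∈ cone P, z ≠ 0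
  hIcyl : I ≤ cyl P
  hcyl : ∀ z ∈ cone P, ∀ s, pt s z ∈ cone I
  htop : ∀ i l, θ i (top l) = if i = l then 1 else 0
  hspan : ∀ z ∈ cone P, z ≠ 0 → ∀ s : ℂ,
      N I (pt s z) = Submodule.span ℂ (Set.range fun i => dif (TT f θ i) (pt s z))

variable {I : Ideal (MvPolynomial (Option ι) ℂ)} {P : Ideal (MvPolynomial ι ℂ)}
    {f : K → MvPolynomial ι ℂ} {θ : Fin r → K → MvPolynomial (Option ι) ℂ} {top : Fin r → K}

theorem Ctx.f_mem (h : Ctx I P f θ top) (κ : K) : f κ ∈ P := by
  rw [h.hPf]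
  exact Ideal.subset_span ⟨κ, rfl⟩

theorem Ctx.FF_mem (h : Ctx I P f θ top) (κ : K) : FF f κ ∈ cyl P := rename_mem_cyl (h.f_mem κ)

theorem Ctx.cyl_eq (h : Ctx I P f θ top) : cyl P = Ideal.span (Set.range (FF f)) := by
  rw [h.hPf]
  exact cyl_span f

theorem dif_FF (κ : K) (s : ℂ) (z : ι → ℂ) : dif (FF f κ) (pt s z) = pt 0 (dif (f κ) z) :=
  dif_rename_some (f κ) (pt s z)

theorem pt_ne_zero {s : ℂ} {z : ι → ℂ} (hz : z ≠ 0) : pt s z ≠ 0 := by
  intro h
  apply hz
  funext i
  exact congrFun h (some i)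

theorem Ctx.dif_TT (h : Ctx I P f θ top) {z : ι → ℂ} (hz : z ∈ cone P) (s : ℂ) (i : Fin r) :
    dif (TT f θ i) (pt s z) = ∑ κ, eval (pt s z) (θ i κ) • pt 0 (dif (f κ) z) := by
  rw [TT, dif_sum]
  refine Finset.sum_congr rfl fun κ _ => ?_
  rw [dif_mul, eval_pt_rename, hz _ (h.f_mem κ), zero_smul, add_zero]
  congr 1
  exact dif_rename_some (f κ) (pt s z)

/-- the substituted point satisfies the linear equations. -/
theorem sb_rel {A : Type*} [CommRing A] {t : Fin r → K → A} {top : Fin r → K}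
    (ht : ∀ i l, t i (top l) = if i = l then 1 else 0) (ζ : K → A) (i : Fin r) :
    ∑ κ, t i κ * sb t top ζ κ = 0 := by
  simp only [sb, mul_sub, Finset.sum_sub_distrib, Finset.mul_sum]
  rw [Finset.sum_comm]
  have h1 : ∀ l : Fin r, ∑ κ, t i κ * (if κ = top l then ∑ κ', t l κ' * ζ κ' else 0) =
      if i = l then ∑ κ', t l κ' * ζ κ' else 0 := by
    intro l
    rw [Finset.sum_eq_single (top l)]
    · rw [if_pos rfl, ht]
      split_ifs
      · rw [one_mul]
      · rw [zero_mul]
    · intro κ _ hκ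
      rw [if_neg hκ, mul_zero]
    · intro h'; exact absurd (Finset.mem_univ _) h'
  rw [Finset.sum_congr rfl (fun l _ => h1 l), Finset.sum_ite_eq]
  simp

/-- forms in the equations of the cylinder which lie in the ideal. -/
theorem Ctx.rho_coeff (h : Ctx I P f θ top) {a : ℕ}
    {p : MvPolynomial K (MvPolynomial (Option ι) ℂ)} (hp : p.IsHomogeneous a)
    (hpI : eval (FF f) p ∈ I) (m : K →₀ ℕ) : coeff m (rho θ top p) ∈ cyl P := by
  apply mem_cyl_of_vanish h.hP.prime h.hne
  intro z hz hz0 s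
  have h0 : map (eval (pt s z)) (rho θ top p) = 0 := by
    apply MvPolynomial.funext
    intro ζ
    rw [eval_map_rho, map_zero]
    obtain ⟨l, hl⟩ := exists_dual_gen _ (h.hli z hz hz0)
    set ζ' := sb (fun i κ => eval (pt s z) (θ i κ)) top ζ with hζ'
    have hrel : ∀ i, ∑ κ, eval (pt s z) (θ i κ) * ζ' κ = 0 := by
      refine sb_rel ?_ ζ
      intro i j
      rw [h.htop]
      split_ifs
      · rw [map_one]
      · rw [map_zero]
    have hw : ∀ κ, dif (f κ) z ⬝ᵥ (∑ κ', ζ' κ' • l κ') = ζ' κ := by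
      intro κ
      rw [dotProduct_sum, Finset.sum_eq_single κ]
      · rw [dotProduct_smul, hl, if_pos rfl, smul_eq_mul, mul_one]
      · intro κ' _ hκ'
        rw [dotProduct_smul, hl, if_neg (Ne.symm hκ'), smul_zero]
      · intro h'; exact absurd (Finset.mem_univ _) h'
    set w := ∑ κ', ζ' κ' • l κ' with hwdef
    have hFv : ∀ κ, dif (FF f κ) (pt s z) ⬝ᵥ pt 0 w = ζ' κ := by
      intro κ
      rw [dif_FF, pt_dot, zero_mul, zero_add, hw]
    have hv : ∀ φ ∈ N I (pt s z), φ ⬝ᵥ pt 0 w = 0 := by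
      intro φ hφ
      rw [h.hspan z hz hz0 s] at hφ
      induction hφ using Submodule.span_induction with
      | mem φ hφ =>
        obtain ⟨i, rfl⟩ := hφ
        simp only
        rw [h.dif_TT hz, sum_dotProduct]
        refine Eq.trans (Finset.sum_congr rfl fun κ _ => ?_) (hrel i)
        rw [smul_dotProduct, pt_dot, zero_mul, zero_add, hw, smul_eq_mul]
      | zero => rw [zero_dotProduct]
      | add a b _ _ ha hb => rw [add_dotProduct, ha, hb, add_zero]
      | smul c a _ ha => rw [smul_dotProduct, ha, smul_zero]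
    obtain ⟨γ, g0, g1, g2⟩ := exists_jet h.hI (h.hcyl z hz s) (pt_ne_zero hz0) hv a
    have h3 := jet_vanish g0 g1 g2 (F := FF f) (fun κ => by
      rw [FF, eval_pt_rename]; exact hz _ (h.f_mem κ)) hp hpI
    rw [← h3]
    congr 2
    funext κ
    exact (hFv κ).symm
  have h1 := congrArg (coeff m) h0
  rwa [coeff_map, coeff_zero] at h1

end ctx

end H94.Deg.Ext
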