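import Pool.Agent.H94.Deg.Obs
import Pool.Agent.H94.Deg.ProdCones

/-!
# The variety of lines through the base point is smooth and irreducible
-/

open MvPolynomial

namespace H94.Deg

open H89.Hart H94.Cubic

section Local

variable {σ : Type*} [Fintype σ] [DecidableEq σ]

/-- Local equations from the absence of obstructions. -/
theorem local_eq {J : Ideal (MvPolynomial σ ℂ)} {z : σ → ℂ}
    (hobs : ∀ E : MvPolynomial σ ℂ →ₗ[ℂ] ℂ, (∀ q ∈ J, ∀ h, E (h * q) = eval z h * E q) →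
      ∃ w : σ → ℂ, ∀ q ∈ J, E q = dif q z ⬝ᵥ w)
    {c : ℕ} (g : Fin c → MvPolynomial σ ℂ) (hg : ∀ i, g i ∈ J)
    (hspan : N J z ≤ Submodule.span ℂ (Set.range fun i => dif (g i) z)) :
    ∃ b, eval z b ≠ 0 ∧ ∀ q ∈ J, b * q ∈ Ideal.span (Set.range g) := by
  classical
  set G : Ideal (MvPolynomial σ ℂ) := Ideal.span (Set.range g) with hG
  -- `J ≤ (g) + m J`
  have hle : J ≤ G ⊔ mI z * J := by
    intro q₀ hq₀
    by_contra hcon
    have hcon' : q₀ ∉ (G ⊔ mI z * J).restrictScalars ℂ := hcon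
    obtain ⟨E, hE1, hE2⟩ := Submodule.exists_dual_map_eq_bot_of_notMem hcon' inferInstance
    have hE0 : ∀ q ∈ G ⊔ mI z * J, E q = 0 := by
      intro q hq
      have : E q ∈ ((G ⊔ mI z * J).restrictScalars ℂ).map E := ⟨q, hq, rfl⟩
      rwa [hE2, Submodule.mem_bot] at this
    obtain ⟨w, hw⟩ := hobs E (by
      intro q hq h
      have h1 : (h - C (eval z h)) * q ∈ G ⊔ mI z * J := by
        refine Ideal.mem_sup_right (Ideal.mul_mem_mul ?_ hq)
        rw [mem_mI]
        simp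
      have h2 := hE0 _ h1
      rw [sub_mul, map_sub, sub_eq_zero] at h2
      rw [h2, ← smul_eq_C_mul, map_smul, smul_eq_mul])
    apply hE1
    rw [hw q₀ hq₀]
    have h3 : dif q₀ z ∈ Submodule.span ℂ (Set.range fun i => dif (g i) z) :=
      hspan (mem_N.2 ⟨q₀, hq₀, rfl⟩)
    obtain ⟨b, hb⟩ := (Submodule.mem_span_range_iff_exists_fun ℂ).1 h3
    rw [← hb, sum_dotProduct]
    refine Finset.sum_eq_zero fun i _ => ?_
    rw [smul_dotProduct, ← hw _ (hg i),
      hE0 _ (Ideal.mem_sup_left (Ideal.subset_span ⟨i, rfl⟩)), smul_zero]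
  -- Nakayama's lemma for `J/(g)`
  have hN : (Submodule.map (G.mkQ) J) ≤ mI z • (Submodule.map (G.mkQ) J) := by
    rw [← Submodule.map_smul'', Submodule.map_le_iff_le_comap]
    intro q hq
    rw [Submodule.mem_comap]
    obtain ⟨a, ha, b, hb, hab⟩ := Submodule.mem_sup.1 (hle hq)
    rw [← hab, map_add, (Submodule.Quotient.mk_eq_zero G (x := a)).2 ha |> fun h => (h : G.mkQ a = 0), zero_add]
    exact ⟨b, by simpa [smul_eq_mul] using hb, rfl⟩
  obtain ⟨b, hb1, hb2⟩ := Submodule.exists_sub_one_mem_and_smul_eq_zero_of_fg_of_le_smul (mI z)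
    (Submodule.map (G.mkQ) J) (IsNoetherian.noetherian _) hN
  refine ⟨b, ?_, ?_⟩
  · rw [mem_mI, map_sub, map_one, sub_eq_zero] at hb1
    rw [hb1]
    exact one_ne_zero
  · intro q hq
    have h := hb2 (G.mkQ q) ⟨q, hq, rfl⟩
    rw [← map_smul] at h
    exact (Submodule.Quotient.mk_eq_zero G).1 h

/-- A homogeneous prime ideal whose differentials have rank at most `c` everywhere, and rank `c`
at `z`, has local equations at `z`. -/
theorem L0_prime {Q : Ideal (MvPolynomial σ ℂ)} (hQ : Q.IsPrime) {c : ℕ}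
    (hrk : ∀ x ∈ cone Q, Module.finrank ℂ (N Q x) ≤ c) (g : Fin c → MvPolynomial σ ℂ)
    (hg : ∀ i, g i ∈ Q) {z : σ → ℂ} (hz : z ∈ cone Q)
    (hli : LinearIndependent ℂ (fun i => dif (g i) z)) {h : MvPolynomial σ ℂ} (hh : h ∈ Q) :
    ∃ u, eval z u ≠ 0 ∧ u * h ∈ Ideal.span (Set.range g) := by
  obtain ⟨l, hl⟩ := exists_dual _ hli
  have hmat : matAt g l z = 1 := by
    ext i j; rw [matAt, Matrix.of_apply, hl, Matrix.one_apply]
  have hdet : (matAt g l z).det ≠ 0 := by rw [hmat]; simp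
  have hD : (mat g l).det ∉ Q := fun hm => hdet (by rw [← eval_det_mat]; exact hz _ hm)
  refine L0_abs g hg l hz hdet (fun f hf v => ?_) hh
  refine (hQ.mem_or_mem (x := (mat g l).det) ?_).resolve_left hD
  apply mem_of_cone hQ
  intro x hx
  rw [map_mul]
  by_cases hd : (matAt g l x).det = 0
  · rw [eval_det_mat, hd, zero_mul]
  have hlix := li_of_det g l x hd
  have hspan : Submodule.span ℂ (Set.range fun i => dif (g i) x) = N Q x := by
    apply Submodule.eq_of_le_of_finrank_le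
    · rw [Submodule.span_le]
      rintro _ ⟨i, rfl⟩
      exact mem_N.2 ⟨g i, hg i, rfl⟩
    · rw [finrank_span_eq_card hlix, Fintype.card_fin]
      exact hrk x hx
  have hmem : dif f x ∈ Submodule.span ℂ (Set.range fun i => dif (g i) x) := by
    rw [hspan]; exact mem_N.2 ⟨f, hf, rfl⟩
  have := cramer_id (fun i => dif (g i) x) l (matAt g l x) (fun i j => rfl) _ hmem
  rw [eval_Q, this, sub_self, zero_dotProduct, mul_zero]

/-- the rank of the differentials is at most the codimension. -/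
theorem finrank_N_le {Q : Ideal (MvPolynomial σ ℂ)} (hQ : HP Q) {x : σ → ℂ} (hx : x ∈ cone Q) :
    dm Q + Module.finrank ℂ (N Q x) ≤ Fintype.card σ := by
  let s : Set (σ → ℂ) := {v | ∃ f ∈ Q, dif f x = v}
  have hs : Submodule.span ℂ s = N Q x := by
    apply le_antisymm
    · rw [Submodule.span_le]
      rintro v ⟨f, hf, rfl⟩
      exact mem_N.2 ⟨f, hf, rfl⟩
    · intro v hv
      exact Submodule.subset_span (mem_N.1 hv)
  obtain ⟨b, hb1, -, hb3⟩ := Submodule.exists_fun_fin_finrank_span_eq ℂ s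
  choose g hg using hb1
  have hli : LinearIndependent ℂ (fun i => dif (g i) x) := by
    have : (fun i => dif (g i) x) = b := funext fun i => (hg i).2
    rw [this]; exact hb3
  have h := dim_add_le Q hQ.prime x hx g (fun i => (hg i).1) hli
  rw [dm_eq hQ.prime, Fintype.card_fin] at h
  have h2 : dm Q + Module.finrank ℂ (Submodule.span ℂ s) ≤ Fintype.card σ := by exact_mod_cast h
  rwa [hs] at h2

/-- The branch of `V(J)` through a point without obstructions. -/
theorem exists_branch {J : Ideal (MvPolynomial σ ℂ)} {z : σ → ℂ} (hz : z ∈ cone J)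
    (hobs : ∀ E : MvPolynomial σ ℂ →ₗ[ℂ] ℂ, (∀ q ∈ J, ∀ h, E (h * q) = eval z h * E q) →
      ∃ w : σ → ℂ, ∀ q ∈ J, E q = dif q z ⬝ᵥ w)
    (hform : N J z = Submodule.span ℂ {v | ∃ q ∈ J, (∃ d, q.IsHomogeneous d) ∧ dif q z = v}) :
    ∃ (c : ℕ) (g : Fin c → MvPolynomial σ ℂ) (Q : Ideal (MvPolynomial σ ℂ)),
      c = Module.finrank ℂ (N J z) ∧ (∀ i, g i ∈ J) ∧ (∀ i, ∃ d, (g i).IsHomogeneous d) ∧
      HP Q ∧ J ≤ Q ∧ z ∈ cone Q ∧ dm Q + c = Fintype.card σ ∧ N Q z = N J z ∧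
      ∀ P : Ideal (MvPolynomial σ ℂ), P.IsPrime → (∀ i, g i ∈ P) → z ∈ cone P → Q ≤ P := by
  let s : Set (σ → ℂ) := {v | ∃ q ∈ J, (∃ d, q.IsHomogeneous d) ∧ dif q z = v}
  obtain ⟨b, hb1, hb2, hb3⟩ := Submodule.exists_fun_fin_finrank_span_eq ℂ s
  choose g hg using hb1
  have hbg : (fun i => dif (g i) z) = b := funext fun i => (hg i).2.2
  have hli : LinearIndependent ℂ (fun i => dif (g i) z) := by rw [hbg]; exact hb3
  have hspan : Submodule.span ℂ (Set.range fun i => dif (g i) z) = N J z := by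
    rw [hform, hbg]; exact hb2
  obtain ⟨b, hb, hbJ⟩ := local_eq hobs g (fun i => (hg i).1) hspan.ge
  obtain ⟨Q, hQ, hgQ, hzQ, hdQ⟩ := comp_abs g (fun i => (hg i).2.1)
    (q := z) (fun i => hz _ (hg i).1)
  rw [Fintype.card_fin] at hdQ
  have hJQ : J ≤ Q := by
    intro q hq
    have h1 : Ideal.span (Set.range g) ≤ Q := by
      rw [Ideal.span_le]; rintro _ ⟨i, rfl⟩; exact hgQ i
    exact (hQ.prime.mem_or_mem (h1 (hbJ q hq))).resolve_left fun h => hb (hzQ _ h)
  have hNJQ : N J z ≤ N Q z := by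
    intro v hv
    obtain ⟨f, hf, rfl⟩ := mem_N.1 hv
    exact mem_N.2 ⟨f, hJQ hf, rfl⟩
  have hc : Module.finrank ℂ (N J z) = Module.finrank ℂ (Submodule.span ℂ s) := by rw [hform]
  have h1 := finrank_N_le hQ hzQ
  have h2 : Module.finrank ℂ (N J z) ≤ Module.finrank ℂ (N Q z) := Submodule.finrank_mono hNJQ
  have hdim : dm Q + Module.finrank ℂ (Submodule.span ℂ s) = Fintype.card σ := by omega
  refine ⟨_, g, Q, hc.symm, fun i => (hg i).1, fun i => (hg i).2.1, hQ, hJQ, hzQ, hdim, ?_, ?_⟩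
  · exact (Submodule.eq_of_le_of_finrank_le hNJQ (by omega)).symm
  · intro P hP hgP hzP f hf
    obtain ⟨u, hu, huf⟩ := L0_prime hQ.prime (fun x hx => by
      have := finrank_N_le hQ hx
      omega) g (fun i => hgQ i) hzQ hli hf
    have h1 : Ideal.span (Set.range g) ≤ P := by
      rw [Ideal.span_le]; rintro _ ⟨i, rfl⟩; exact hgP i
    exact (hP.mem_or_mem (h1 huf)).resolve_left fun h => hu (hzP _ h)

/-- If `V(J)` has no obstructions outside the origin and few equations at each point, it is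
irreducible and smooth. -/
theorem exists_smooth {J : Ideal (MvPolynomial σ ℂ)}
    (hJh : ∀ f ∈ J, ∀ d, homogeneousComponent d f ∈ J) (m : ℕ) (hm : 2 * m < Fintype.card σ)
    (hrk : ∀ z ∈ cone J, z ≠ 0 → Module.finrank ℂ (N J z) ≤ m)
    (hobs : ∀ z ∈ cone J, z ≠ 0 → ∀ E : MvPolynomial σ ℂ →ₗ[ℂ] ℂ,
      (∀ q ∈ J, ∀ h, E (h * q) = eval z h * E q) → ∃ w : σ → ℂ, ∀ q ∈ J, E q = dif q z ⬝ᵥ w)
    (hne : ∃ z ∈ cone J, z ≠ 0) :
    ∃ (P : Ideal (MvPolynomial σ ℂ)) (c : ℕ), Smooth P c ∧ J ≤ P ∧ cone P = cone J ∧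
      (∀ z ∈ cone P, z ≠ 0 → N P z = N J z) ∧ c ≤ m ∧ dm P + c = Fintype.card σ := by
  have hform : ∀ z ∈ cone J, N J z =
      Submodule.span ℂ {v | ∃ q ∈ J, (∃ d, q.IsHomogeneous d) ∧ dif q z = v} := by
    intro z _
    apply le_antisymm
    · intro v hv
      obtain ⟨f, hf, rfl⟩ := mem_N.1 hv
      have h1 : dif f z = ∑ d ∈ Finset.range (f.totalDegree + 1),
          dif (homogeneousComponent d f) z := by
        rw [← dif_sum, sum_homogeneousComponent]
      rw [h1]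
      refine Submodule.sum_mem _ fun d _ => Submodule.subset_span ?_
      exact ⟨_, hJh f hf d, ⟨d, homogeneousComponent_isHomogeneous d f⟩, rfl⟩
    · rw [Submodule.span_le]
      rintro v ⟨f, hf, -, rfl⟩
      exact mem_N.2 ⟨f, hf, rfl⟩
  have hbr := fun z (hz : z ∈ cone J) (hz0 : z ≠ 0) =>
    exists_branch hz (hobs z hz hz0) (hform z hz)
  choose c g Q hc hgJ hgh hQ hJQ hzQ hdim hN hmin using hbr
  have hcm : ∀ z hz hz0, c z hz hz0 ≤ m := fun z hz hz0 => by
    rw [hc]; exact hrk z hz hz0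
  -- a point of a branch determines the branch
  have hpt : ∀ z hz hz0 y hy hy0, y ∈ cone (Q z hz hz0) → Q z hz hz0 = Q y hy hy0 := by
    intro z hz hz0 y hy hy0 hyz
    have h1 : Q y hy hy0 ≤ Q z hz hz0 :=
      hmin y hy hy0 _ (hQ z hz hz0).prime (fun i => hJQ z hz hz0 (hgJ y hy hy0 i)) hyz
    exact le_antisymm (hmin z hz hz0 _ (hQ y hy hy0).prime
      (fun i => hJQ y hy hy0 (hgJ z hz hz0 i)) (cone_anti h1 (hzQ z hz hz0))) h1
  have hall : ∀ z hz hz0 y hy hy0, Q z hz hz0 = Q y hy hy0 := by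
    intro z hz hz0 y hy hy0
    have h1 := hcm z hz hz0
    have h2 := hcm y hy hy0
    have h3 := hdim z hz hz0
    obtain ⟨P', hP', hgP', hyP', x, hx, hx0, hxP'⟩ := prod_cones' (hQ z hz hz0) (g y hy hy0)
      (hgh y hy hy0) (z₁ := y) (fun a => hy _ (hgJ y hy hy0 a))
      (by rw [Fintype.card_fin]; omega)
    have hxJ : x ∈ cone J := cone_anti (hJQ z hz hz0) hx
    rw [hpt z hz hz0 x hxJ hx0 hx, hpt y hy hy0 x hxJ hx0
      (cone_anti (hmin y hy hy0 P' hP' hgP' hyP') hxP')]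
  obtain ⟨p, hp, hp0⟩ := hne
  have hcone : ∀ z, z ∈ cone J → z ∈ cone (Q p hp hp0) := by
    intro z hz
    by_cases hz0 : z = 0
    · rw [hz0]
      exact zero_mem_of_homog (hQ p hp hp0).homog (hzQ p hp hp0)
    · rw [hall p hp hp0 z hz hz0]
      exact hzQ z hz hz0
  have hNP : ∀ z ∈ cone (Q p hp hp0), z ≠ 0 → N (Q p hp hp0) z = N J z := by
    intro z hz hz0
    have hzJ : z ∈ cone J := cone_anti (hJQ p hp hp0) hz
    rw [hall p hp hp0 z hzJ hz0]
    exact hN z hzJ hz0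
  refine ⟨Q p hp hp0, c p hp hp0, ⟨(hQ p hp hp0).prime, (hQ p hp hp0).homog, ?_⟩, hJQ p hp hp0,
    Set.Subset.antisymm (cone_anti (hJQ p hp hp0)) hcone, hNP, hcm p hp hp0, hdim p hp hp0⟩
  intro z hz hz0
  have hzJ : z ∈ cone J := cone_anti (hJQ p hp hp0) hz
  rw [hNP z hz hz0, ← hc z hzJ hz0]
  have h1 := hdim z hzJ hz0
  have h2 := hdim p hp hp0
  rw [hall z hzJ hz0 p hp hp0] at h1
  omega

end Local

section Main

variable {ι : Type*} [Fintype ι] [DecidableEq ι]

/-- the conormal spaces of `V(J)` have dimension at most the sum of the degrees. -/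
theorem finrank_N_J_le {I : Ideal (MvPolynomial (Option ι) ℂ)} {r : ℕ} (hI : Smooth I r)
    (h0 : pt 1 0 ∈ cone I) (F : Fin r → MvPolynomial (Option ι) ℂ) (d : Fin r → ℕ)
    (hF : ∀ i, F i ∈ I) (hFh : ∀ i, (F i).IsHomogeneous (d i))
    (hli : LinearIndependent ℂ (fun i => dif (F i) (pt 1 0))) {z : ι → ℂ}
    (hz : z ∈ cone (J I)) : Module.finrank ℂ (N (J I) z) ≤ ∑ i, d i := by
  have h1 : N (J I) z ≤ Submodule.span ℂ (Set.range fun κ : (Σ i : Fin r, Fin (d i)) =>
      dif (tc ((κ.2 : ℕ) + 1) (F κ.1)) z) := by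
    rw [N_J hz, Submodule.span_le]
    rintro v ⟨G, hG, k, rfl⟩
    have h2 := jet_span hI h0 F hF hli hz hG k
    refine Submodule.span_le.2 ?_ h2
    rintro v ⟨i, j, hj1, -, rfl⟩
    rcases lt_or_ge (d i) j with hj | hj
    · rw [tc_eq_zero (hFh i) hj, dif_zero]
      exact Submodule.zero_mem _
    · refine Submodule.subset_span ⟨⟨i, ⟨j - 1, by omega⟩⟩, ?_⟩
      simp only
      rw [Nat.sub_add_cancel hj1]
  refine (Submodule.finrank_mono h1).trans ((finrank_range_le_card _).trans ?_)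
  rw [Fintype.card_sigma]
  simp

/-- there are lines through the base point. -/
theorem exists_line {I : Ideal (MvPolynomial (Option ι) ℂ)} {r : ℕ} (hI : Smooth I r)
    (h0 : pt 1 0 ∈ cone I) (F : Fin r → MvPolynomial (Option ι) ℂ) (d : Fin r → ℕ)
    (hF : ∀ i, F i ∈ I) (hFh : ∀ i, (F i).IsHomogeneous (d i))
    (hli : LinearIndependent ℂ (fun i => dif (F i) (pt 1 0)))
    (hn : ∑ i, d i < Fintype.card ι) : ∃ z ∈ cone (J I), z ≠ 0 := by
  obtain ⟨P, hP, hgP, -, hdim⟩ := comp_abs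
    (fun κ : (Σ i : Fin r, Fin (d i)) => tc ((κ.2 : ℕ) + 1) (F κ.1))
    (fun κ => ⟨_, tc_homog _ _⟩) (q := 0) (fun κ => by
      have := eval_smul_tc ((κ.2 : ℕ) + 1) (F κ.1) 0 0
      rw [zero_smul] at this
      rw [this]
      simp)
  have hcard : Fintype.card (Σ i : Fin r, Fin (d i)) = ∑ i, d i := by
    rw [Fintype.card_sigma]; simp
  rw [hcard] at hdim
  obtain ⟨z, hz, hz0, -⟩ := ne_zero_of_dm hP (fun x : Fin 0 => (0 : MvPolynomial ι ℂ))
    (fun b => b.elim0) (by rw [Fintype.card_fin]; omega)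
  refine ⟨z, ?_, hz0⟩
  -- the forms `F i` vanish on the line
  have hFz : ∀ (i : Fin r) (s t : ℂ), eval (pt s (t • z)) (F i) = 0 := by
    intro i s t
    rw [eval_pt (hFh i)]
    refine Finset.sum_eq_zero fun k hk => ?_
    rw [Finset.mem_range] at hk
    rw [eval_smul_tc]
    rcases Nat.eq_zero_or_pos k with hk0 | hk0
    · rw [hk0, tc_zero_order, eval_C, h0 _ (hF i), mul_zero, mul_zero]
    · have h1 : eval z (tc k (F i)) = 0 := by
        have h2 := hz _ (hgP ⟨i, ⟨k - 1, by omega⟩⟩)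
        simp only at h2
        rwa [Nat.sub_add_cancel hk0] at h2
      rw [h1, mul_zero, mul_zero]
  have hadd : ∀ t : ℂ, (pt 1 0 : Option ι → ℂ) + t • pt 0 z = pt 1 (t • z) := by
    intro t
    funext o
    cases o <;> simp [pt]
  have hline : ∀ t : ℂ, pt 1 (t • z) ∈ cone I := by
    intro t
    rw [← hadd]
    refine line_mem hI F hF h0 (pt_ne_zero_left one_ne_zero 0) hli (pt 0 z) ?_ t
    intro i t
    rw [hadd]
    exact hFz i 1 t
  rw [mem_cone_J hI h0]
  -- homogeneity and continuity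
  have hs : ∀ s t : ℂ, s ≠ 0 → pt s (t • z) ∈ cone I := by
    intro s t hs
    have h1 := smul_mem_of_homog hI.homog (hline (s⁻¹ * t)) s
    have h2 : s • (pt 1 ((s⁻¹ * t) • z) : Option ι → ℂ) = pt s (t • z) := by
      funext o
      cases o with
      | none => simp [pt]
      | some i => simp [pt, mul_assoc, hs]
    rwa [h2] at h1
  intro s t
  by_cases hs0 : s = 0
  · subst hs0
    have hcont : Continuous fun s : ℂ => (pt s (t • z) : Option ι → ℂ) := by
      refine continuous_pi fun o => ?_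
      cases o with
      | none => exact continuous_id
      | some i => exact continuous_const
    have hclosed : IsClosed {s : ℂ | pt s (t • z) ∈ cone I} :=
      (isClosed_cone I).preimage hcont
    have h1 : (closure {s : ℂ | s ≠ 0}) ⊆ {s : ℂ | pt s (t • z) ∈ cone I} :=
      closure_minimal (fun s hs' => hs s t hs') hclosed
    have h2 : closure {s : ℂ | s ≠ 0} = Set.univ := (dense_compl_singleton (0 : ℂ)).closure_eq
    rw [h2] at h1
    exact h1 (Set.mem_univ 0)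
  · exact hs s t hs0

/-- C: the variety of lines through the base point is smooth and irreducible. -/
theorem exists_P {I : Ideal (MvPolynomial (Option ι) ℂ)} {r : ℕ} (hI : Smooth I r)
    (h0 : pt 1 0 ∈ cone I) (F : Fin r → MvPolynomial (Option ι) ℂ) (d : Fin r → ℕ)
    (hF : ∀ i, F i ∈ I) (hFh : ∀ i, (F i).IsHomogeneous (d i))
    (hli : LinearIndependent ℂ (fun i => dif (F i) (pt 1 0)))
    (hst : ∀ z ∈ cone (J I), z ≠ 0 → StarT I z) (hn : 2 * ∑ i, d i < Fintype.card ι) :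
    ∃ (P : Ideal (MvPolynomial ι ℂ)) (c : ℕ), Smooth P c ∧ J I ≤ P ∧ cone P = cone (J I) ∧
      (∀ z ∈ cone P, z ≠ 0 → N P z = N (J I) z) ∧ c ≤ ∑ i, d i ∧
      dm P + c = Fintype.card ι ∧ ∃ z ∈ cone P, z ≠ 0 := by
  obtain ⟨z, hz, hz0⟩ := exists_line hI h0 F d hF hFh hli (by omega)
  obtain ⟨P, c, h1, h2, h3, h4, h5, h6⟩ := exists_smooth (J_homog I) (∑ i, d i) hn
    (fun z hz _ => finrank_N_J_le hI h0 F d hF hFh hli hz)
    (fun z hz hz0 E hE => obs hI h0 hz hz0 (hst z hz hz0) E hE) ⟨z, hz, hz0⟩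
  exact ⟨P, c, h1, h2, h3, h4, h5, h6, z, by rw [h3]; exact hz, hz0⟩

end Main

end H94.Deg
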