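import Pool.Agent.H94.Deg.Core
import Pool.Agent.H94.Deg.LinesP
import Pool.Agent.H94.Deg.Stair
import Pool.Agent.H94.Deg.PointA3
import Pool.Agent.H15.Hart.Pull

/-!
# Smooth varieties of small codimension with equations of bounded degree: the linear bound
-/

open MvPolynomial

set_option linter.unusedSectionVars false
set_option linter.unusedVariables false

namespace H94.Deg

open H89.Hart H94.Cubic H18.Sparse

variable {ι : Type*} [Fintype ι] [DecidableEq ι]

/-- G: the main theorem in adapted coordinates. -/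
theorem main_adapted {I : Ideal (MvPolynomial (Option ι) ℂ)} {r : ℕ} (hI : Smooth I r)
    (h0 : pt 1 0 ∈ cone I) (F : Fin r → MvPolynomial (Option ι) ℂ) (d : Fin r → ℕ)
    (hF : ∀ i, F i ∈ I) (hFh : ∀ i, (F i).IsHomogeneous (d i))
    (hli : LinearIndependent ℂ (fun i => dif (F i) (pt 1 0)))
    (hst : ∀ z ∈ cone (J I), z ≠ 0 → StarT I z) (hr : 1 ≤ r)
    (hn : 3 * ∑ i, d i < Fintype.card ι) :
    ∃ (G : Fin r → MvPolynomial (Option ι) ℂ) (e : Fin r → ℕ), (∀ i, 1 ≤ e i ∧ e i ≤ d i) ∧
      (∀ i, (G i).IsHomogeneous (e i)) ∧ I = Ideal.span (Set.range G) ∧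
      ∀ x ∈ cone I, x ≠ 0 → LinearIndependent ℂ (fun i => dif (G i) x) := by
  obtain ⟨P, c, hP, hJP, hcone, hNP, hcm, hdm, hne⟩ := exists_P hI h0 F d hF hFh hli hst
    (by omega)
  have hst' : ∀ z ∈ cone P, z ≠ 0 → StarT I z := fun z hz hz0 => hst z (hcone ▸ hz) hz0
  obtain ⟨a, ha, hbas⟩ := staircase hI h0 F d hF hFh hli hP hJP hst' hNP hdm (by omega) hne
  have hrd : r ≤ ∑ i, d i := by
    calc r = ∑ i : Fin r, 1 := by simp
      _ ≤ ∑ i, d i := Finset.sum_le_sum fun i _ => by have := ha i; omega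
  obtain ⟨G, hGh, hG, hGli⟩ := main_core hI h0 F hF hli hP hJP hst' a hbas hne hr (by omega)
    (by omega)
  exact ⟨G, fun i => a i + 1, fun i => ⟨Nat.le_add_left _ _, ha i⟩, hGh, hG, hGli⟩

open H15.Hart in
/-- G: the main theorem. -/
theorem main {σ : Type*} [Fintype σ] [DecidableEq σ] {I : Ideal (MvPolynomial σ ℂ)} {r : ℕ}
    (hI : Smooth I r) (F : Fin r → MvPolynomial σ ℂ) (d : Fin r → ℕ)
    (hF : ∀ i, F i ∈ I) (hFh : ∀ i, (F i).IsHomogeneous (d i)) {p : σ → ℂ} (hp : p ∈ cone I)
    (hp0 : p ≠ 0) (hli : LinearIndependent ℂ (fun i => dif (F i) p)) (hr : 1 ≤ r)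
    (hn : 3 * ∑ i, d i + 1 < Fintype.card σ) :
    ∃ (G : Fin r → MvPolynomial σ ℂ) (e : Fin r → ℕ), (∀ i, 1 ≤ e i ∧ e i ≤ d i) ∧
      (∀ i, (G i).IsHomogeneous (e i)) ∧ I = Ideal.span (Set.range G) ∧
      ∀ x ∈ cone I, x ≠ 0 → LinearIndependent ℂ (fun i => dif (G i) x) := by
  classical
  obtain ⟨y, hy, hy0, hyli, hyst⟩ := exists_very_general hI F hF hp hp0 hli
  -- coordinates
  obtain ⟨m, hm⟩ : ∃ m, Fintype.card σ = m + 1 := ⟨Fintype.card σ - 1, by omega⟩
  obtain ⟨e, he⟩ : ∃ e : (Option (Fin m) → ℂ) ≃ₗ[ℂ] (σ → ℂ), e (pt 1 0) = y := by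
    have h1 : Module.finrank ℂ (Option (Fin m) → ℂ) = Module.finrank ℂ (σ → ℂ) := by
      rw [Module.finrank_fintype_fun_eq_card, Module.finrank_fintype_fun_eq_card, hm]
      simp
    let e₀ : (Option (Fin m) → ℂ) ≃ₗ[ℂ] (σ → ℂ) := LinearEquiv.ofFinrankEq _ _ h1
    have h2 : e₀ (pt 1 0) ≠ 0 := by
      intro h
      exact pt_ne_zero_left one_ne_zero 0 ((LinearEquiv.map_eq_zero_iff e₀).1 h)
    obtain ⟨g, hg⟩ := SeparatingDual.exists_continuousLinearEquiv_apply_eq (R := ℂ) h2 hy0
    exact ⟨e₀.trans g.toLinearEquiv, hg⟩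
  let L : (Option (Fin m) → ℂ) →ₗ[ℂ] (σ → ℂ) := e
  let M : (σ → ℂ) →ₗ[ℂ] (Option (Fin m) → ℂ) := e.symm
  have hInv : Inv L M I :=
    { ML := fun z => e.symm_apply_apply z
      LM := fun x _ => e.apply_symm_apply x }
  have hker : LinearMap.ker (tr L) = ⊥ := by
    have h1 := finrank_ker_tr hInv
    rw [hm, Fintype.card_option, Fintype.card_fin] at h1
    exact Submodule.finrank_eq_zero.1 (by omega)
  have hsm : Smooth (pull M I) r :=
    { prime := pull_isPrime hInv hI.prime
      homog := fun g hg d => by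
        change sub M _ ∈ I
        rw [← homogeneousComponent_sub]
        exact hI.homog _ hg d
      rank := fun z hz hz0 => by
        have h1 := finrank_N_pull hInv hI.prime z
        rw [hI.rank _ ((cone_pull hInv hI.prime).1 hz) (L_ne_zero hInv hI.prime hz0), hker,
          finrank_bot] at h1
        omega }
  have h0 : pt 1 0 ∈ cone (pull M I) := (cone_pull hInv hI.prime).2 (by
    change e (pt 1 0) ∈ cone I
    rw [he]; exact hy)
  have hsubL : ∀ f ∈ I, sub L f ∈ pull M I := fun f hf => (sub_mem_pull hInv hI.prime).2 hf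
  obtain ⟨G, a, ha, hGh, hG, hGli⟩ := main_adapted hsm h0 (fun i => sub L (F i)) d
    (fun i => hsubL _ (hF i)) (fun i => sub_homog L (hFh i)) (by
      have h1 : (fun i => dif (sub L (F i)) (pt 1 0)) = fun i => tr L (dif (F i) y) := by
        funext i
        rw [H15.Hart.dif_sub]
        change tr L (dif (F i) (e (pt 1 0))) = _
        rw [he]
      rw [h1]
      exact hyli.map' (tr L) hker)
    (by
      intro z hz hz0
      refine starT_of_starAt hsm h0 hz ?_
      -- transport of `StarAt`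
      have hline : ∀ s t : ℂ, s • y + t • e (pt 0 z) ∈ cone I := by
        intro s t
        have h1 := (mem_cone_J hsm h0).1 hz s t
        have h2 := (cone_pull hInv hI.prime).1 h1
        rw [← smul_add_pt, map_add, map_smul, map_smul] at h2
        change s • e (pt 1 0) + t • e (pt 0 z) ∈ cone I at h2
        rwa [he] at h2
      intro v hv
      obtain ⟨w, hw⟩ := hyst _ hline (e v) (by
        intro φ hφ
        have h1 : tr L φ ∈ N (pull M I) (pt 1 0) := by
          rw [N_pull hInv hI.prime]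
          refine Submodule.mem_map_of_mem ?_
          change φ ∈ N I (e (pt 1 0))
          rwa [he]
        have h2 := hv _ h1
        rwa [tr_dot] at h2)
      refine ⟨e.symm w, ?_⟩
      intro G hG s t
      have hGs : sub M G ∈ I := hG
      have h3 := hw _ hGs s t
      rw [H15.Hart.dif_sub] at h3
      rw [tr_dot] at h3
      simp only [map_add, map_smul] at h3
      have e1 : M y = pt 1 0 := by
        change e.symm y = _
        rw [← he, e.symm_apply_apply]
      have e2 : M (e (pt 0 z)) = pt 0 z := e.symm_apply_apply _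
      have e3 : M (e v) = v := e.symm_apply_apply _
      rw [e1, e2, e3] at h3
      exact h3)
    hr (by rw [Fintype.card_fin]; omega)
  refine ⟨fun i => sub M (G i), a, ha, fun i => sub_homog M (hGh i), ?_, ?_⟩
  · apply le_antisymm
    · intro f hf
      have h1 := hsubL f hf
      rw [hG] at h1
      obtain ⟨c, hc⟩ := Ideal.mem_span_range_iff_exists_fun.1 h1
      have h2 : f = sub M (sub L f) := by
        rw [sub_comp]
        have : L ∘ₗ M = LinearMap.id := LinearMap.ext fun x => e.apply_symm_apply x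
        rw [this, sub_id]
      rw [h2, ← hc, map_sum]
      refine Ideal.sum_mem _ fun i _ => ?_
      rw [map_mul]
      exact Ideal.mul_mem_left _ _ (Ideal.subset_span ⟨i, rfl⟩)
    · rw [Ideal.span_le]
      rintro _ ⟨i, rfl⟩
      have h1 : G i ∈ pull M I := by
        rw [hG]; exact Ideal.subset_span ⟨i, rfl⟩
      exact h1
  · intro x hx hx0
    have hx' : e.symm x ∈ cone (pull M I) := (cone_pull hInv hI.prime).2 (by
      change e (e.symm x) ∈ cone I
      rwa [e.apply_symm_apply])
    have hx'0 : e.symm x ≠ 0 := fun h => hx0 ((LinearEquiv.map_eq_zero_iff e.symm).1 h)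
    have h1 := hGli _ hx' hx'0
    have h2 : (fun i => dif (sub M (G i)) x) = fun i => tr M (dif (G i) (e.symm x)) := by
      funext i
      rw [H15.Hart.dif_sub]
      rfl
    rw [h2]
    refine h1.map' (tr M) ?_
    rw [LinearMap.ker_eq_bot']
    intro φ hφ
    have h3 : tr L (tr M φ) = φ := by
      funext k
      rw [tr_apply, tr_dot]
      have : M (L (Pi.single k 1)) = Pi.single k 1 := e.symm_apply_apply _
      rw [this]
      simp
    rw [← h3, hφ, map_zero]

end H94.Deg
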