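import Pool.Agent.H94.Deg.Base

/-!
# First order obstructions along the lines through the base point (part B)
-/

open MvPolynomial

set_option linter.unusedSectionVars false
set_option linter.unusedSimpArgs false
set_option linter.unusedVariables false

namespace H94.Deg

open H89.Hart H94.Cubic

variable {ι : Type*} [Fintype ι] [DecidableEq ι]

/-! ### coefficientwise application of a functional -/

/-- coefficientwise application of a linear functional. -/
noncomputable def cw (E : MvPolynomial ι ℂ →ₗ[ℂ] ℂ) (p : Polynomial (MvPolynomial ι ℂ)) :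
    Polynomial ℂ :=
  ∑ n ∈ Finset.range (p.natDegree + 1), Polynomial.monomial n (E (p.coeff n))

theorem coeff_cw (E : MvPolynomial ι ℂ →ₗ[ℂ] ℂ) (p : Polynomial (MvPolynomial ι ℂ)) (n : ℕ) :
    (cw E p).coeff n = E (p.coeff n) := by
  rw [cw, Polynomial.finsetSum_coeff]
  simp only [Polynomial.coeff_monomial]
  rw [Finset.sum_ite_eq']
  split_ifs with h
  · rfl
  · rw [Polynomial.coeff_eq_zero_of_natDegree_lt, map_zero]
    simp at h; omega

theorem cw_add (E : MvPolynomial ι ℂ →ₗ[ℂ] ℂ) (p q : Polynomial (MvPolynomial ι ℂ)) :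
    cw E (p + q) = cw E p + cw E q := by
  ext n; simp [coeff_cw]

theorem cw_sum (E : MvPolynomial ι ℂ →ₗ[ℂ] ℂ) {α : Type*} (s : Finset α)
    (p : α → Polynomial (MvPolynomial ι ℂ)) :
    cw E (∑ a ∈ s, p a) = ∑ a ∈ s, cw E (p a) := by
  ext n; simp [coeff_cw, Polynomial.finsetSum_coeff]

theorem cw_mul (E : MvPolynomial ι ℂ →ₗ[ℂ] ℂ) (z : ι → ℂ) (p q : Polynomial (MvPolynomial ι ℂ))
    (hq : ∀ n h, E (h * q.coeff n) = eval z h * E (q.coeff n)) :
    cw E (p * q) = p.map (eval z) * cw E q := by
  ext n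
  rw [coeff_cw, Polynomial.coeff_mul, Polynomial.coeff_mul, map_sum]
  refine Finset.sum_congr rfl fun x _ => ?_
  rw [hq, Polynomial.coeff_map, coeff_cw]

/-! ### the polynomial ring over the first variable -/

/-- `S = R[x_none]`. -/
noncomputable def th : MvPolynomial (Option ι) ℂ ≃ₐ[ℂ] Polynomial (MvPolynomial ι ℂ) :=
  optionEquivLeft ℂ ι

theorem th_none : th (X none : MvPolynomial (Option ι) ℂ) = Polynomial.X := by
  simp [th]

theorem th_rename (q : MvPolynomial ι ℂ) :
    th (rename some q : MvPolynomial (Option ι) ℂ) = Polynomial.C q := by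
  induction q using MvPolynomial.induction_on with
  | C c =>
    rw [rename_C, th, optionEquivLeft_C]
  | add p q hp hq => rw [map_add, map_add, hp, hq, map_add]
  | mul_X p j hp =>
    rw [map_mul, map_mul, hp, rename_X, map_mul]
    congr 1
    simp [th]

/-- restriction to the affine line `(s, z)`. -/
noncomputable def psi (z : ι → ℂ) : MvPolynomial (Option ι) ℂ →ₐ[ℂ] Polynomial ℂ :=
  aeval (fun o => o.elim Polynomial.X (fun j => Polynomial.C (z j)))

theorem psi_none (z : ι → ℂ) : psi z (X none : MvPolynomial (Option ι) ℂ) = Polynomial.X := by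
  simp [psi]

theorem psi_rename (z : ι → ℂ) (q : MvPolynomial ι ℂ) :
    psi z (rename some q : MvPolynomial (Option ι) ℂ) = Polynomial.C (eval z q) := by
  induction q using MvPolynomial.induction_on with
  | C c => rw [rename_C]; simp [psi]
  | add p q hp hq => rw [map_add, map_add, hp, hq, map_add, map_add]
  | mul_X p j hp =>
    rw [map_mul, map_mul, hp, rename_X, map_mul, map_mul]
    congr 1
    simp [psi]

theorem psi_eq (z : ι → ℂ) (F : MvPolynomial (Option ι) ℂ) :
    psi z F = (th F).map (eval z) := by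
  induction F using MvPolynomial.induction_on with
  | C c => simp [psi, th]
  | add p q hp hq => rw [map_add, map_add, Polynomial.map_add, hp, hq]
  | mul_X p j hp =>
    rw [map_mul, map_mul, Polynomial.map_mul, hp]
    congr 1
    cases j with
    | none => simp [psi, th]
    | some j => simp [psi, th]

theorem eval_psi (z : ι → ℂ) (F : MvPolynomial (Option ι) ℂ) (s : ℂ) :
    (psi z F).eval s = eval (pt s z) F := by
  induction F using MvPolynomial.induction_on with
  | C c => simp [psi]
  | add p q hp hq => rw [map_add, Polynomial.eval_add, hp, hq, map_add]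
  | mul_X p j hp =>
    rw [map_mul, map_mul, Polynomial.eval_mul, hp]
    congr 1
    cases j with
    | none => simp [psi, pt]
    | some j => simp [psi, pt]

theorem th_form {F : MvPolynomial (Option ι) ℂ} {e : ℕ} (hF : F.IsHomogeneous e) :
    th F = ∑ k ∈ Finset.range (e + 1), Polynomial.X ^ (e - k) * Polynomial.C (tc k F) := by
  conv_lhs => rw [eq_sum_tc hF]
  rw [map_sum]
  refine Finset.sum_congr rfl fun k _ => ?_
  rw [map_mul, map_pow, th_none, th_rename]

theorem cw_form (E : MvPolynomial ι ℂ →ₗ[ℂ] ℂ) {F : MvPolynomial (Option ι) ℂ} {e : ℕ}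
    (hF : F.IsHomogeneous e) :
    cw E (th F) = ∑ k ∈ Finset.range (e + 1),
      Polynomial.X ^ (e - k) * Polynomial.C (E (tc k F)) := by
  rw [th_form hF, cw_sum]
  refine Finset.sum_congr rfl fun k _ => ?_
  ext n
  rw [coeff_cw, Polynomial.coeff_X_pow_mul', Polynomial.coeff_X_pow_mul', Polynomial.coeff_C,
    Polynomial.coeff_C]
  split_ifs <;> simp

/-- the coefficients of the elements of `I` lie in `J I`. -/
theorem th_coeff_mem {I : Ideal (MvPolynomial (Option ι) ℂ)} {r : ℕ} (hI : Smooth I r)
    {F : MvPolynomial (Option ι) ℂ} (hF : F ∈ I) (n : ℕ) : (th F).coeff n ∈ J I := by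
  rw [← sum_homogeneousComponent F, map_sum, Polynomial.finsetSum_coeff]
  refine Ideal.sum_mem _ fun e _ => ?_
  rw [th_form (homogeneousComponent_isHomogeneous e F), Polynomial.finsetSum_coeff]
  refine Ideal.sum_mem _ fun k _ => ?_
  rw [Polynomial.coeff_X_pow_mul', Polynomial.coeff_C]
  split_ifs
  · exact tc_mem_J (hI.homog F hF e) k
  · exact Ideal.zero_mem _
  · exact Ideal.zero_mem _

/-- the derivatives of a form along the lines. -/
theorem psi_pderiv_some {F : MvPolynomial (Option ι) ℂ} {e : ℕ} (hF : F.IsHomogeneous e)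
    (z : ι → ℂ) (i : ι) :
    psi z (pderiv (some i) F) = ∑ k ∈ Finset.range (e + 1),
      Polynomial.X ^ (e - k) * Polynomial.C (dif (tc k F) z i) := by
  conv_lhs => rw [eq_sum_tc hF]
  rw [map_sum, map_sum]
  refine Finset.sum_congr rfl fun k _ => ?_
  have h1 : pderiv (some i) (X none ^ (e - k) * rename some (tc k F) :
      MvPolynomial (Option ι) ℂ) = X none ^ (e - k) * rename some (pderiv i (tc k F)) := by
    rw [Derivation.leibniz, Derivation.leibniz_pow, pderiv_X]
    have h2 : (Pi.single none 1 : Option ι → MvPolynomial (Option ι) ℂ) (some i) = 0 := by simp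
    rw [pderiv_rename (Option.some_injective ι)]
    simp
  rw [h1, map_mul, map_pow, psi_none, psi_rename]
  rfl

theorem psi_pderiv_none {F : MvPolynomial (Option ι) ℂ} {e : ℕ} (hF : F.IsHomogeneous e)
    {z : ι → ℂ} (hz : ∀ k, eval z (tc k F) = 0) :
    psi z (pderiv none F) = 0 := by
  conv_lhs => rw [eq_sum_tc hF]
  rw [map_sum, map_sum]
  refine Finset.sum_eq_zero fun k _ => ?_
  have h0 : ∀ q : MvPolynomial ι ℂ, pderiv none (rename some q : MvPolynomial (Option ι) ℂ) = 0 := by
    intro q
    induction q using MvPolynomial.induction_on with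
    | C c => simp
    | add p q hp hq => rw [map_add, map_add, hp, hq, add_zero]
    | mul_X p j hp =>
      rw [map_mul, Derivation.leibniz, hp, rename_X, pderiv_X]
      simp
  rw [Derivation.leibniz, h0, smul_zero, zero_add, smul_eq_mul, map_mul, psi_rename, hz k]
  simp

/-! ### the ideal of denominators -/

section den

variable {I : Ideal (MvPolynomial (Option ι) ℂ)} {r : ℕ} {z : ι → ℂ}

theorem psi_eq_zero (hI : Smooth I r) (hz : z ∈ cone (J I)) {F : MvPolynomial (Option ι) ℂ}
    (hF : F ∈ I) : psi z F = 0 := by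
  rw [psi_eq]
  ext n
  rw [Polynomial.coeff_map, Polynomial.coeff_zero]
  exact hz _ (th_coeff_mem hI hF n)

theorem psi_pderiv_mul (hI : Smooth I r) (hz : z ∈ cone (J I)) {F : MvPolynomial (Option ι) ℂ}
    (hF : F ∈ I) (q : MvPolynomial (Option ι) ℂ) (o : Option ι) :
    psi z (pderiv o (q * F)) = psi z q * psi z (pderiv o F) := by
  rw [Derivation.leibniz, map_add, smul_eq_mul, smul_eq_mul, map_mul, map_mul,
    psi_eq_zero hI hz hF, zero_mul, add_zero]

variable {E : MvPolynomial ι ℂ →ₗ[ℂ] ℂ}

theorem cw_th_mul (hI : Smooth I r) (hE : ∀ q ∈ J I, ∀ h, E (h * q) = eval z h * E q)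
    {F : MvPolynomial (Option ι) ℂ} (hF : F ∈ I) (q : MvPolynomial (Option ι) ℂ) :
    cw E (th (q * F)) = psi z q * cw E (th F) := by
  rw [map_mul, psi_eq]
  exact cw_mul E z _ _ fun n h => hE _ (th_coeff_mem hI hF n) h

/-- the ideal of denominators of the first order obstruction. -/
noncomputable def DI (I : Ideal (MvPolynomial (Option ι) ℂ)) (E : MvPolynomial ι ℂ →ₗ[ℂ] ℂ)
    (z : ι → ℂ) : Ideal (Polynomial ℂ) where
  carrier := {b | ∃ u : ι → Polynomial ℂ, ∀ F ∈ I,
    b * cw E (th F) = ∑ i, u i * psi z (pderiv (some i) F)}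
  zero_mem' := ⟨0, fun F _ => by simp⟩
  add_mem' := by
    rintro a b ⟨u, hu⟩ ⟨v, hv⟩
    refine ⟨u + v, fun F hF => ?_⟩
    rw [add_mul, hu F hF, hv F hF, ← Finset.sum_add_distrib]
    refine Finset.sum_congr rfl fun i _ => ?_
    rw [Pi.add_apply, add_mul]
  smul_mem' := by
    rintro c a ⟨u, hu⟩
    refine ⟨fun i => c * u i, fun F hF => ?_⟩
    rw [smul_eq_mul, mul_assoc, hu F hF, Finset.mul_sum]
    refine Finset.sum_congr rfl fun i _ => ?_
    rw [mul_assoc]

theorem psi_dd (hI : Smooth I r) (hz : z ∈ cone (J I)) {F : MvPolynomial (Option ι) ℂ}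
    (hF : F ∈ I) {e : ℕ} (hFe : F.IsHomogeneous e) (v : Option ι → ℂ) :
    psi z (dd v F) = ∑ i, Polynomial.C (v (some i)) * psi z (pderiv (some i) F) := by
  rw [dd, map_sum, Fintype.sum_option, map_mul,
    psi_pderiv_none hFe (fun k => hz _ (tc_mem_J hF k)), mul_zero, zero_add]
  refine Finset.sum_congr rfl fun i _ => ?_
  rw [map_mul]
  congr 1
  simp [psi]

theorem exists_local (hI : Smooth I r) (h0 : pt 1 0 ∈ cone I) (hz : z ∈ cone (J I))
    (hz0 : z ≠ 0) (hE : ∀ q ∈ J I, ∀ h, E (h * q) = eval z h * E q) (s₀ : ℂ) :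
    ∃ b ∈ DI I E z, b.eval s₀ ≠ 0 := by
  have hx : pt s₀ z ∈ cone I := by
    have := (mem_cone_J hI h0).1 hz s₀ 1
    rwa [one_smul] at this
  have hx0 : pt s₀ z ≠ 0 := by
    intro h
    apply hz0
    funext i
    exact congrFun h (some i)
  obtain ⟨g, l, hg, hgh, hli, hmat⟩ := exists_frame hI hx hx0
  let A : Matrix (Fin r) (Fin r) (Polynomial ℂ) := (mat g l).map (psi z)
  have hA : ∀ k j, A k j = ∑ i, Polynomial.C (l j (some i)) * psi z (pderiv (some i) (g k)) := by
    intro k j
    obtain ⟨e, he⟩ := hgh k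
    rw [← psi_dd hI hz (hg k) he]
    rfl
  have hdet : A.det.eval s₀ ≠ 0 := by
    have h1 : A.det = psi z (mat g l).det := by
      have := (AlgHom.map_det (psi z) (mat g l)).symm
      simpa [A] using this
    rw [h1, eval_psi, eval_det_mat, hmat, Matrix.det_one]
    exact one_ne_zero
  refine ⟨A.det, ?_, hdet⟩
  let b : Fin r → Polynomial ℂ := fun j => ∑ m, A.adjugate j m * cw E (th (g m))
  refine ⟨fun i => ∑ j, Polynomial.C (l j (some i)) * b j, fun F hF => ?_⟩
  obtain ⟨q, hq, hqF⟩ := L0 hI g hg hx hx0 hli hF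
  obtain ⟨a, ha⟩ := (Ideal.mem_span_range_iff_exists_fun).1 hqF
  have hq0 : psi z q ≠ 0 := by
    intro h
    apply hq
    rw [← eval_psi, h, Polynomial.eval_zero]
  -- the case of the frame
  have hfr : ∀ k, A.det * cw E (th (g k)) =
      ∑ i, (∑ j, Polynomial.C (l j (some i)) * b j) * psi z (pderiv (some i) (g k)) := by
    intro k
    have h1 : ∑ i, (∑ j, Polynomial.C (l j (some i)) * b j) * psi z (pderiv (some i) (g k)) =
        ∑ j, A k j * b j := by
      simp only [hA, Finset.sum_mul]
      rw [Finset.sum_comm]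
      refine Finset.sum_congr rfl fun j _ => Finset.sum_congr rfl fun i _ => ?_
      ring
    have h2 : ∑ j, A k j * b j = ∑ m, (A * A.adjugate) k m * cw E (th (g m)) := by
      simp only [b, Matrix.mul_apply, Finset.mul_sum, Finset.sum_mul]
      rw [Finset.sum_comm]
      refine Finset.sum_congr rfl fun j _ => Finset.sum_congr rfl fun i _ => ?_
      ring
    rw [h1, h2, Matrix.mul_adjugate]
    simp [Matrix.smul_apply, Matrix.one_apply]
  have hcw : psi z q * cw E (th F) = ∑ k, psi z (a k) * cw E (th (g k)) := by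
    rw [← cw_th_mul hI hE hF, ← ha, map_sum, cw_sum]
    refine Finset.sum_congr rfl fun k _ => ?_
    exact cw_th_mul hI hE (hg k) (a k)
  have hpd : ∀ i : ι, psi z q * psi z (pderiv (some i) F) =
      ∑ k, psi z (a k) * psi z (pderiv (some i) (g k)) := by
    intro i
    rw [← psi_pderiv_mul hI hz hF, ← ha, map_sum, map_sum]
    refine Finset.sum_congr rfl fun k _ => ?_
    exact psi_pderiv_mul hI hz (hg k) (a k) _
  apply mul_left_cancel₀ hq0
  calc psi z q * (A.det * cw E (th F)) = A.det * (psi z q * cw E (th F)) := by ring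
    _ = ∑ k, psi z (a k) * (A.det * cw E (th (g k))) := by
        rw [hcw, Finset.mul_sum]
        refine Finset.sum_congr rfl fun k _ => ?_
        ring
    _ = ∑ k, ∑ i, psi z (a k) * ((∑ j, Polynomial.C (l j (some i)) * b j) *
          psi z (pderiv (some i) (g k))) := by
        refine Finset.sum_congr rfl fun k _ => ?_
        rw [hfr, Finset.mul_sum]
    _ = ∑ i, (∑ j, Polynomial.C (l j (some i)) * b j) * (psi z q *
          psi z (pderiv (some i) F)) := by
        rw [Finset.sum_comm]
        refine Finset.sum_congr rfl fun i _ => ?_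
        rw [hpd, Finset.mul_sum]
        refine Finset.sum_congr rfl fun k _ => ?_
        ring
    _ = psi z q * ∑ i, (∑ j, Polynomial.C (l j (some i)) * b j) *
          psi z (pderiv (some i) F) := by
        rw [Finset.mul_sum]
        refine Finset.sum_congr rfl fun i _ => ?_
        ring

theorem DI_eq_top (hI : Smooth I r) (h0 : pt 1 0 ∈ cone I) (hz : z ∈ cone (J I))
    (hz0 : z ≠ 0) (hE : ∀ q ∈ J I, ∀ h, E (h * q) = eval z h * E q) : DI I E z = ⊤ := by
  obtain ⟨d, hd⟩ := (IsPrincipalIdealRing.principal (DI I E z)).principal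
  have hd' : DI I E z = Ideal.span {d} := hd
  by_cases hdeg : d.degree = 0
  · rw [hd', Ideal.span_singleton_eq_top]
    exact Polynomial.isUnit_iff_degree_eq_zero.2 hdeg
  · exfalso
    obtain ⟨s₀, hs₀⟩ := IsAlgClosed.exists_root d hdeg
    obtain ⟨b, hb, hbs⟩ := exists_local hI h0 hz hz0 hE s₀
    rw [hd', Ideal.mem_span_singleton] at hb
    obtain ⟨c, rfl⟩ := hb
    apply hbs
    rw [Polynomial.eval_mul, hs₀.eq_zero, zero_mul]

/-! ### the descent -/

theorem tc_zero_of_mem (h0 : pt 1 0 ∈ cone I) {F : MvPolynomial (Option ι) ℂ} (hF : F ∈ I) :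
    tc 0 F = 0 := by
  rw [tc_zero_order, h0 F hF, C_0]

/-- expansion of the derivatives of a form of the ideal. -/
theorem psi_pderiv_some' (h0 : pt 1 0 ∈ cone I) {F : MvPolynomial (Option ι) ℂ} {e : ℕ}
    (hF : F ∈ I) (hFe : F.IsHomogeneous (e + 1)) (z : ι → ℂ) (i : ι) :
    psi z (pderiv (some i) F) = ∑ k ∈ Finset.range (e + 1),
      Polynomial.X ^ (e - k) * Polynomial.C (dif (tc (k + 1) F) z i) := by
  rw [psi_pderiv_some hFe, Finset.sum_range_succ', tc_zero_of_mem h0 hF, dif_zero, Pi.zero_apply,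
    Polynomial.C_0, mul_zero, add_zero]
  refine Finset.sum_congr rfl fun k _ => ?_
  rw [show e + 1 - (k + 1) = e - k by omega]

theorem cw_form' (E : MvPolynomial ι ℂ →ₗ[ℂ] ℂ) (h0 : pt 1 0 ∈ cone I)
    {F : MvPolynomial (Option ι) ℂ} {e : ℕ} (hF : F ∈ I) (hFe : F.IsHomogeneous (e + 1)) :
    cw E (th F) = ∑ k ∈ Finset.range (e + 1),
      Polynomial.X ^ (e - k) * Polynomial.C (E (tc (k + 1) F)) := by
  rw [cw_form E hFe, Finset.sum_range_succ', tc_zero_of_mem h0 hF, map_zero,
    Polynomial.C_0, mul_zero, add_zero]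
  refine Finset.sum_congr rfl fun k _ => ?_
  rw [show e + 1 - (k + 1) = e - k by omega]

theorem natDegree_sum_le' (e : ℕ) (a : ℕ → ℂ) :
    (∑ k ∈ Finset.range (e + 1), Polynomial.X ^ (e - k) * Polynomial.C (a k)).natDegree ≤ e := by
  refine Polynomial.natDegree_sum_le_of_forall_le _ _ fun k _ => ?_
  refine (Polynomial.natDegree_mul_le).trans ?_
  rw [Polynomial.natDegree_C, add_zero]
  refine (Polynomial.natDegree_X_pow_le _).trans ?_
  omega

theorem coeff_sum' (e : ℕ) (a : ℕ → ℂ) {k : ℕ} (hk : k ≤ e) :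
    (∑ k ∈ Finset.range (e + 1), Polynomial.X ^ (e - k) * Polynomial.C (a k)).coeff (e - k) =
      a k := by
  rw [Polynomial.finsetSum_coeff, Finset.sum_eq_single k]
  · rw [Polynomial.coeff_X_pow_mul', if_pos le_rfl, Nat.sub_self, Polynomial.coeff_C_zero]
  · intro j hj hjk
    rw [Finset.mem_range] at hj
    rw [Polynomial.coeff_X_pow_mul', Polynomial.coeff_C]
    split_ifs with h1 h2
    · omega
    · rfl
    · rfl
  · intro h
    exact absurd (Finset.mem_range.2 (by omega)) h

/-- it suffices to check linear identities on forms. -/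
theorem of_forms (hI : Smooth I r) {V : Type*} [AddCommGroup V]
    (φ : MvPolynomial (Option ι) ℂ →+ V)
    (h : ∀ F ∈ I, ∀ e, F.IsHomogeneous e → φ F = 0) {F : MvPolynomial (Option ι) ℂ} (hF : F ∈ I) :
    φ F = 0 := by
  rw [← sum_homogeneousComponent F, map_sum]
  exact Finset.sum_eq_zero fun e _ => h _ (hI.homog F hF e) e
    (homogeneousComponent_isHomogeneous e F)

/-- forms of degree zero in the ideal vanish. -/
theorem form_zero (h0 : pt 1 0 ∈ cone I) {F : MvPolynomial (Option ι) ℂ} (hF : F ∈ I)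
    (hFe : F.IsHomogeneous 0) : F = 0 := by
  have h1 := eq_sum_tc hFe
  rw [h1]
  simp [tc_zero_of_mem h0 hF]

theorem descent (hI : Smooth I r) (h0 : pt 1 0 ∈ cone I) (hz : z ∈ cone (J I))
    (hst : StarT I z) (M : ℕ) : ∀ u : ι → Polynomial ℂ, (∀ i, (u i).natDegree ≤ M) →
      (∀ F ∈ I, cw E (th F) = ∑ i, u i * psi z (pderiv (some i) F)) →
      ∃ c : ι → ℂ, ∀ F ∈ I, cw E (th F) = ∑ i, Polynomial.C (c i) * psi z (pderiv (some i) F) := by
  induction M with
  | zero =>
    intro u hu hF
    refine ⟨fun i => (u i).coeff 0, fun F hFI => ?_⟩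
    rw [hF F hFI]
    refine Finset.sum_congr rfl fun i _ => ?_
    rw [← Polynomial.eq_C_of_natDegree_le_zero (hu i)]
  | succ M ih =>
    intro u hu hF
    let v : ι → ℂ := fun i => (u i).coeff (M + 1)
    have hv : ∀ G ∈ I, dif (tc 1 G) z ⬝ᵥ v = 0 := by
      intro G hG
      let φ : MvPolynomial (Option ι) ℂ →+ ℂ :=
        { toFun := fun G => dif (tc 1 G) z ⬝ᵥ v
          map_zero' := by
            have h : tc 1 (0 : MvPolynomial (Option ι) ℂ) = 0 := by simp [tc]
            simp [h, dif_zero]
          map_add' := fun a b => by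
            simp only [tc_add, dif_add, add_dotProduct] }
      refine of_forms hI φ ?_ hG
      intro F hFI e hFe
      change dif (tc 1 F) z ⬝ᵥ v = 0
      rcases e with _ | e
      · rw [tc_eq_zero hFe (by omega), dif_zero, zero_dotProduct]
      · have h1 := congrArg (fun p => p.coeff (M + 1 + e)) (hF F hFI)
        simp only [Polynomial.finsetSum_coeff] at h1
        have h2 : ∀ i, (u i * psi z (pderiv (some i) F)).coeff (M + 1 + e) =
            v i * dif (tc 1 F) z i := by
          intro i
          rw [psi_pderiv_some' h0 hFI hFe, Polynomial.coeff_mul_add_eq_of_natDegree_le (hu i)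
            (natDegree_sum_le' e _)]
          have := coeff_sum' e (fun k => dif (tc (k + 1) F) z i) (Nat.zero_le e)
          rw [Nat.sub_zero] at this
          rw [this]
        simp only [h2] at h1
        rw [cw_form' E h0 hFI hFe, Polynomial.coeff_eq_zero_of_natDegree_lt] at h1
        · rw [dotProduct, h1]
          exact Finset.sum_congr rfl fun i _ => mul_comm _ _
        · exact (natDegree_sum_le' e _).trans_lt (by omega)
    obtain ⟨w, hw⟩ := hst v hv
    -- the tangent field along the line
    have hkey : ∀ F ∈ I, ∑ i, (Polynomial.X * Polynomial.C (v i) + Polynomial.C (w i)) *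
        psi z (pderiv (some i) F) = 0 := by
      intro G hG
      let φ : MvPolynomial (Option ι) ℂ →+ Polynomial ℂ :=
        { toFun := fun G => ∑ i, (Polynomial.X * Polynomial.C (v i) + Polynomial.C (w i)) *
            psi z (pderiv (some i) G)
          map_zero' := by simp
          map_add' := fun a b => by
            simp only [map_add, mul_add, Finset.sum_add_distrib] }
      refine of_forms hI φ ?_ hG
      intro F hFI e hFe
      change ∑ i, (Polynomial.X * Polynomial.C (v i) + Polynomial.C (w i)) *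
            psi z (pderiv (some i) F) = 0
      have h1 : ∀ i, psi z (pderiv (some i) F) = ∑ k ∈ Finset.range (e + 1),
        Polynomial.X ^ (e - k) * Polynomial.C (dif (tc k F) z i) := psi_pderiv_some hFe z
      simp only [h1, Finset.mul_sum]
      rw [Finset.sum_comm]
      have h2 : ∀ k ∈ Finset.range (e + 1), ∑ i : ι,
          (Polynomial.X * Polynomial.C (v i) + Polynomial.C (w i)) *
            (Polynomial.X ^ (e - k) * Polynomial.C (dif (tc k F) z i)) =
          Polynomial.X ^ (e + 1 - k) * Polynomial.C (dif (tc k F) z ⬝ᵥ v) -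
          Polynomial.X ^ (e + 1 - (k + 1)) * Polynomial.C (dif (tc (k + 1) F) z ⬝ᵥ v) := by
        intro k hk
        rw [Finset.mem_range] at hk
        have h3 : dif (tc (k + 1) F) z ⬝ᵥ v = - (dif (tc k F) z ⬝ᵥ w) := by
          linear_combination hw F hFI k
        rw [h3, show e + 1 - k = (e - k) + 1 by omega, show e + 1 - (k + 1) = e - k by omega,
          pow_succ, map_neg, mul_neg, sub_neg_eq_add]
        simp only [dotProduct, map_sum, Polynomial.C_mul, Finset.mul_sum,
          ← Finset.sum_add_distrib]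
        refine Finset.sum_congr rfl fun i _ => ?_
        ring
      rw [Finset.sum_congr rfl h2, Finset.sum_range_sub']
      rw [tc_zero_of_mem h0 hFI, tc_eq_zero hFe (Nat.lt_succ_self e), dif_zero]
      simp
    refine ih (fun i => u i - Polynomial.X ^ M * (Polynomial.X * Polynomial.C (v i) +
      Polynomial.C (w i))) (fun i => ?_) (fun F hFI => ?_)
    · rw [Polynomial.natDegree_le_iff_coeff_eq_zero]
      intro n hn
      have h1 : (Polynomial.X ^ M * (Polynomial.X * Polynomial.C (v i) +
          Polynomial.C (w i))).coeff n = if n = M + 1 then v i else 0 := by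
        obtain ⟨m, rfl⟩ : ∃ m, n = M + (m + 1) := ⟨n - M - 1, by omega⟩
        rw [Polynomial.coeff_X_pow_mul', if_pos (by omega), Nat.add_sub_cancel_left,
          Polynomial.coeff_add, Polynomial.coeff_X_mul, Polynomial.coeff_C, Polynomial.coeff_C]
        rcases m with _ | m
        · simp
        · rw [if_neg (by omega), if_neg (by omega), if_neg (by omega), add_zero]
      rw [Polynomial.coeff_sub, h1]
      by_cases h : n = M + 1
      · subst h; simp [v]
      · rw [if_neg h, sub_zero]
        exact Polynomial.coeff_eq_zero_of_natDegree_lt ((hu i).trans_lt (by omega))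
    · rw [hF F hFI]
      have h1 : ∑ i, (u i - Polynomial.X ^ M * (Polynomial.X * Polynomial.C (v i) +
          Polynomial.C (w i))) * psi z (pderiv (some i) F) =
          ∑ i, u i * psi z (pderiv (some i) F) - Polynomial.X ^ M * ∑ i,
            (Polynomial.X * Polynomial.C (v i) + Polynomial.C (w i)) *
              psi z (pderiv (some i) F) := by
        rw [Finset.mul_sum, ← Finset.sum_sub_distrib]
        refine Finset.sum_congr rfl fun i _ => ?_
        ring
      rw [h1, hkey F hFI, mul_zero, sub_zero]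

end den

/-- B: first order obstructions. -/
theorem obs {I : Ideal (MvPolynomial (Option ι) ℂ)} {r : ℕ} (hI : Smooth I r)
    (h0 : pt 1 0 ∈ cone I) {z : ι → ℂ} (hz : z ∈ cone (J I)) (hz0 : z ≠ 0) (hst : StarT I z)
    (E : MvPolynomial ι ℂ →ₗ[ℂ] ℂ) (hE : ∀ q ∈ J I, ∀ h, E (h * q) = eval z h * E q) :
    ∃ w : ι → ℂ, ∀ q ∈ J I, E q = dif q z ⬝ᵥ w := by
  obtain ⟨u, hu⟩ : (1 : Polynomial ℂ) ∈ DI I E z := by
    rw [DI_eq_top hI h0 hz hz0 hE]; trivial
  obtain ⟨c, hc⟩ := descent hI h0 hz hst (Finset.univ.sup fun i => (u i).natDegree) u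
    (fun i => Finset.le_sup (f := fun i => (u i).natDegree) (Finset.mem_univ i))
    (fun F hF => by rw [← hu F hF, one_mul])
  refine ⟨c, ?_⟩
  -- the case of a Taylor coefficient
  have htc : ∀ F ∈ I, ∀ k, E (tc k F) = dif (tc k F) z ⬝ᵥ c := by
    intro G hG k
    let φ : MvPolynomial (Option ι) ℂ →+ ℂ :=
      { toFun := fun G => E (tc k G) - dif (tc k G) z ⬝ᵥ c
        map_zero' := by
          have h : tc k (0 : MvPolynomial (Option ι) ℂ) = 0 := by simp [tc]
          simp [h, dif_zero]
        map_add' := fun a b => by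
          simp only [tc_add, dif_add, add_dotProduct, map_add]
          ring }
    refine sub_eq_zero.1 (of_forms hI φ ?_ hG)
    intro F hFI e hFe
    change E (tc k F) - dif (tc k F) z ⬝ᵥ c = 0
    by_cases hke : k ≤ e
    · have h1 := congrArg (fun p => p.coeff (e - k)) (hc F hFI)
      have h2 : ∀ i, psi z (pderiv (some i) F) = ∑ k ∈ Finset.range (e + 1),
        Polynomial.X ^ (e - k) * Polynomial.C (dif (tc k F) z i) := psi_pderiv_some hFe z
      simp only [cw_form E hFe, Polynomial.finsetSum_coeff (Finset.univ), Polynomial.coeff_C_mul,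
        h2] at h1
      rw [coeff_sum' e (fun k => E (tc k F)) hke] at h1
      rw [h1, sub_eq_zero, dotProduct]
      refine Finset.sum_congr rfl fun i _ => ?_
      rw [coeff_sum' e (fun k => dif (tc k F) z i) hke, mul_comm]
    · rw [tc_eq_zero hFe (by omega), dif_zero, map_zero, zero_dotProduct, sub_zero]
  intro q hq
  rw [J] at hq
  refine Submodule.span_induction (p := fun q _ => E q = dif q z ⬝ᵥ c) ?_ ?_ ?_ ?_ hq |>.trans rfl
  · rintro q ⟨F, hF, k, rfl⟩
    exact htc F hF k
  · rw [map_zero, dif_zero, zero_dotProduct]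
  · intro a b _ _ ha hb
    rw [map_add, dif_add, add_dotProduct, ha, hb]
  · intro h q hq hqE
    rw [smul_eq_mul, hE q hq, hqE, dif_mul, hz q hq, zero_smul, add_zero, smul_dotProduct,
      smul_eq_mul]

end H94.Deg
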