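import Pool.Agent.H94.Deg.Defs

/-!
# A1 (helper77): a very general point of a cone over a countable field
-/

open MvPolynomial

universe u

namespace H94.Deg

open H89.Hart

section A

variable {σ : Type*} [Fintype σ] [DecidableEq σ]

namespace GenPt

/-- a field extension of `ℂ` of countable dimension is `ℂ`. -/
lemma bij_of_countable {L : Type u} [Field L] [Algebra ℂ L]
    (h : Module.rank ℂ L ≤ Cardinal.aleph0) : Function.Bijective (algebraMap ℂ L) := by
  have : Algebra.IsAlgebraic ℂ L := by
    refine ⟨fun x => ?_⟩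
    by_contra hx
    have h1 : Transcendental ℂ x := hx
    have h2 := h1.linearIndependent_sub_inv.cardinal_lift_le_rank
    have h4 : Cardinal.lift.{0, u} (Module.rank ℂ L) ≤ Cardinal.aleph0.{u} := by
      rw [Cardinal.lift_id']
      exact h
    have h3 := h2.trans h4
    rw [Cardinal.lift_le_aleph0, Cardinal.mk_complex] at h3
    exact absurd Cardinal.aleph0_lt_continuum (not_lt.2 h3)
  exact IsAlgClosed.algebraMap_bijective_of_isIntegral

/-- a point of a countably generated `ℂ`-algebra which avoids countably many nonzero elements -/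
lemma exists_hom {A : Type u} [CommRing A] [IsDomain A] [Algebra ℂ A] (M : Submonoid A)
    (h0 : (0 : A) ∉ M) (hM : (M : Set A).Countable) (S : Set A) (hS : S.Countable)
    (hspan : Submodule.span ℂ S = ⊤) : ∃ ψ : A →ₐ[ℂ] ℂ, ∀ a ∈ M, ψ a ≠ 0 := by
  classical
  have hle : M ≤ nonZeroDivisors A := le_nonZeroDivisors_of_noZeroDivisors h0
  have : Nontrivial (Localization M) := (IsLocalization.injective (Localization M) hle).nontrivial
  obtain ⟨m, hm⟩ := Ideal.exists_maximal (Localization M)
  let _ : Field (Localization M ⧸ m) := Ideal.Quotient.field m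
  let φ : A →ₐ[ℂ] (Localization M ⧸ m) :=
    (Ideal.Quotient.mkₐ ℂ m).comp (IsScalarTower.toAlgHom ℂ A (Localization M))
  have hφM : ∀ a ∈ M, φ a ≠ 0 := by
    intro a ha
    have hu : IsUnit (algebraMap A (Localization M) a) :=
      IsLocalization.map_units (Localization M) (⟨a, ha⟩ : M)
    have := hu.map (Ideal.Quotient.mk m)
    exact this.ne_zero
  have hrank : Module.rank ℂ (Localization M ⧸ m) ≤ Cardinal.aleph0 := by
    let T : Set (Localization M ⧸ m) := (fun p : A × A => φ p.1 * (φ p.2)⁻¹) '' (S ×ˢ (M : Set A))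
    have hT : T.Countable := (hS.prod hM).image _
    have hspanT : Submodule.span ℂ T = ⊤ := by
      rw [eq_top_iff]
      rintro x -
      obtain ⟨b, rfl⟩ := Ideal.Quotient.mk_surjective x
      obtain ⟨a, s, rfl⟩ := IsLocalization.exists_mk'_eq M b
      have e1 : (Ideal.Quotient.mk m) (IsLocalization.mk' (Localization M) a s) =
          φ a * (φ s)⁻¹ := by
        rw [eq_mul_inv_iff_mul_eq₀ (hφM s s.2)]
        have := IsLocalization.mk'_spec (Localization M) a s
        have h2 := congrArg (Ideal.Quotient.mk m) this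
        rw [map_mul] at h2
        exact h2
      rw [e1]
      have ha : a ∈ Submodule.span ℂ S := by rw [hspan]; trivial
      clear e1
      induction ha using Submodule.span_induction with
      | mem a ha => exact Submodule.subset_span ⟨(a, s), ⟨ha, s.2⟩, rfl⟩
      | zero => rw [map_zero, zero_mul]; exact Submodule.zero_mem _
      | add p q _ _ hp hq =>
        rw [map_add, add_mul]
        exact Submodule.add_mem _ hp hq
      | smul c p _ hp =>
        rw [map_smul, smul_mul_assoc]
        exact Submodule.smul_mem _ _ hp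
    have h1 := rank_span_le (R := ℂ) T
    rw [hspanT, rank_top] at h1
    exact h1.trans hT.le_aleph0
  have hbij := bij_of_countable hrank
  let e : ℂ ≃ₐ[ℂ] (Localization M ⧸ m) :=
    AlgEquiv.ofBijective (Algebra.ofId ℂ (Localization M ⧸ m)) hbij
  refine ⟨(e.symm : (Localization M ⧸ m) →ₐ[ℂ] ℂ).comp φ, fun a ha h => hφM a ha ?_⟩
  change e.symm (φ a) = 0 at h
  rwa [map_eq_zero_iff _ e.symm.injective] at h

/-- the elements of the quotient defined over `k`. -/
def Mk (I : Ideal (MvPolynomial σ ℂ)) (hI : I.IsPrime) (k : Subfield ℂ) :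
    Submonoid (MvPolynomial σ ℂ ⧸ I) where
  carrier := {a | ∃ g : MvPolynomial σ k, map k.subtype g ∉ I ∧
    Ideal.Quotient.mk I (map k.subtype g) = a}
  mul_mem' := by
    rintro a b ⟨g, hg, rfl⟩ ⟨h, hh, rfl⟩
    refine ⟨g * h, ?_, by rw [map_mul, map_mul]⟩
    rw [map_mul]
    intro h1
    rcases hI.mem_or_mem h1 with h2 | h2
    · exact hg h2
    · exact hh h2
  one_mem' := ⟨1, by rw [map_one]; exact fun h => hI.ne_top ((Ideal.eq_top_iff_one I).2 h),
    by rw [map_one, map_one]⟩

end GenPt

open GenPt

/-- A1 -/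
theorem exists_generic_point {I : Ideal (MvPolynomial σ ℂ)} (hI : I.IsPrime) (k : Subfield ℂ)
    (hk : Countable k) :
    ∃ y ∈ cone I, ∀ g : MvPolynomial σ k, eval y (map k.subtype g) = 0 →
      map k.subtype g ∈ I := by
  classical
  have := hI
  have hcount : Countable (MvPolynomial σ k) := by
    rw [← Cardinal.mk_le_aleph0_iff]
    refine MvPolynomial.cardinalMk_le_max_lift.trans ?_
    refine sup_le (sup_le ?_ ?_) le_rfl
    · rw [Cardinal.lift_le_aleph0]; exact Cardinal.mk_le_aleph0
    · rw [Cardinal.lift_le_aleph0]; exact Cardinal.mk_le_aleph0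
  obtain ⟨ψ, hψ⟩ := exists_hom (Mk I hI k)
    (by
      rintro ⟨g, hg, h⟩
      exact hg (Ideal.Quotient.eq_zero_iff_mem.1 h))
    (by
      refine (Set.countable_range (fun g : MvPolynomial σ k =>
        Ideal.Quotient.mk I (map k.subtype g))).mono ?_
      rintro _ ⟨g, -, rfl⟩
      exact ⟨g, rfl⟩)
    (Set.range (fun u : σ →₀ ℕ => Ideal.Quotient.mk I (monomial u 1))) (Set.countable_range _)
    (by
      rw [eq_top_iff]
      rintro x -
      obtain ⟨f, rfl⟩ := Ideal.Quotient.mk_surjective x
      induction f using MvPolynomial.induction_on' with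
      | monomial u a =>
        have e : (monomial u a : MvPolynomial σ ℂ) = a • monomial u 1 := by
          rw [smul_monomial, smul_eq_mul, mul_one]
        have e2 : (Ideal.Quotient.mk I) (a • monomial u (1 : ℂ)) =
            a • (Ideal.Quotient.mk I) (monomial u (1 : ℂ)) := rfl
        rw [e, e2]
        exact Submodule.smul_mem _ _ (Submodule.subset_span ⟨u, rfl⟩)
      | add p q hp hq =>
        rw [map_add]
        exact Submodule.add_mem _ hp hq)
  set χ : MvPolynomial σ ℂ →ₐ[ℂ] ℂ := ψ.comp (Ideal.Quotient.mkₐ ℂ I) with hχ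
  have hy : ∀ f, eval (fun i => χ (X i)) f = χ f := by
    intro f
    have : χ = aeval (fun i => χ (X i)) := by
      apply MvPolynomial.algHom_ext
      intro i
      rw [aeval_X]
    conv_rhs => rw [this]
    rw [← coe_aeval_eq_eval]
    rfl
  refine ⟨fun i => χ (X i), fun f hf => ?_, fun g hg => ?_⟩
  · rw [hy]
    change ψ (Ideal.Quotient.mk I f) = 0
    rw [Ideal.Quotient.eq_zero_iff_mem.2 hf, map_zero]
  · by_contra hgI
    rw [hy] at hg
    exact hψ _ ⟨g, hgI, rfl⟩ hg

end A

end H94.Deg
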