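import Pool.Agent.H94.Deg.Defs

/-!
# Regular sequences of forms: permutations
-/

open MvPolynomial

set_option linter.unusedSectionVars false

namespace H94.Deg

open H89.Hart H94.Cubic

variable {ι : Type*} [Fintype ι] [DecidableEq ι]

/-- `L` is a regular sequence modulo `I`. -/
def RegL (I : Ideal (MvPolynomial ι ℂ)) : List (MvPolynomial ι ℂ) → Prop
  | [] => True
  | h :: t => (∀ a, h * a ∈ I → a ∈ I) ∧ RegL (I ⊔ Ideal.span {h}) t

/-- Homogeneous ideals. -/
def HomI (I : Ideal (MvPolynomial ι ℂ)) : Prop := ∀ f ∈ I, ∀ d, homogeneousComponent d f ∈ I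

/-- The ideal generated by a list. -/
noncomputable def LS (L : List (MvPolynomial ι ℂ)) : Ideal (MvPolynomial ι ℂ) :=
  Ideal.span {f | f ∈ L}

/-- All elements are forms of positive degree. -/
def Forms (L : List (MvPolynomial ι ℂ)) : Prop := ∀ h ∈ L, ∃ d, 1 ≤ d ∧ h.IsHomogeneous d

attribute [local instance] MvPolynomial.gradedAlgebra in
theorem homI_iff (I : Ideal (MvPolynomial ι ℂ)) :
    HomI I ↔ I.IsHomogeneous (homogeneousSubmodule ι ℂ) := by
  constructor
  · intro h i f hf
    have h5 : ((DirectSum.decompose (homogeneousSubmodule ι ℂ) f) i : MvPolynomial ι ℂ) =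
        homogeneousComponent i f := MvPolynomial.decomposition.decompose'_apply f i
    rw [h5]
    exact h f hf i
  · intro h f hf d
    exact homogeneousComponent_mem_of_mem h hf d

attribute [local instance] MvPolynomial.gradedAlgebra in
theorem comp_mul_of_le {f : MvPolynomial ι ℂ} {d : ℕ} (hf : f.IsHomogeneous d)
    (b : MvPolynomial ι ℂ) {n : ℕ} (h : d ≤ n) :
    homogeneousComponent n (f * b) = f * homogeneousComponent (n - d) b := by
  have h5 : ∀ (g : MvPolynomial ι ℂ) (i : ℕ),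
      ((DirectSum.decompose (homogeneousSubmodule ι ℂ) g) i : MvPolynomial ι ℂ) =
        homogeneousComponent i g := fun g i => MvPolynomial.decomposition.decompose'_apply g i
  rw [← h5, ← h5]
  exact DirectSum.coe_decompose_mul_of_left_mem_of_le (homogeneousSubmodule ι ℂ)
    (by rwa [mem_homogeneousSubmodule]) h

attribute [local instance] MvPolynomial.gradedAlgebra in
theorem comp_mul_of_lt {f : MvPolynomial ι ℂ} {d : ℕ} (hf : f.IsHomogeneous d)
    (b : MvPolynomial ι ℂ) {n : ℕ} (h : n < d) :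
    homogeneousComponent n (f * b) = 0 := by
  have h5 : ∀ (g : MvPolynomial ι ℂ) (i : ℕ),
      ((DirectSum.decompose (homogeneousSubmodule ι ℂ) g) i : MvPolynomial ι ℂ) =
        homogeneousComponent i g := fun g i => MvPolynomial.decomposition.decompose'_apply g i
  rw [← h5]
  exact DirectSum.coe_decompose_mul_of_left_mem_of_not_le (homogeneousSubmodule ι ℂ)
    (by rwa [mem_homogeneousSubmodule]) (by omega)

attribute [local instance] MvPolynomial.gradedAlgebra in
theorem homI_sup {I J : Ideal (MvPolynomial ι ℂ)} (hI : HomI I) (hJ : HomI J) :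
    HomI (I ⊔ J) := by
  rw [homI_iff] at *
  exact hI.sup hJ

attribute [local instance] MvPolynomial.gradedAlgebra in
theorem homI_span {s : Set (MvPolynomial ι ℂ)} (hs : ∀ f ∈ s, ∃ d, f.IsHomogeneous d) :
    HomI (Ideal.span s) := by
  rw [homI_iff]
  refine Ideal.homogeneous_span _ _ ?_
  intro f hf
  obtain ⟨d, hd⟩ := hs f hf
  exact ⟨d, hd⟩

theorem homI_bot : HomI (⊥ : Ideal (MvPolynomial ι ℂ)) := by
  intro f hf d
  rw [Ideal.mem_bot] at hf
  rw [hf, map_zero]
  exact zero_mem _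

theorem homI_LS {L : List (MvPolynomial ι ℂ)} (hL : Forms L) : HomI (LS L) :=
  homI_span fun f hf => by
    obtain ⟨d, -, hd⟩ := hL f hf
    exact ⟨d, hd⟩

theorem mem_of_comp {I : Ideal (MvPolynomial ι ℂ)} {a : MvPolynomial ι ℂ}
    (h : ∀ d, homogeneousComponent d a ∈ I) : a ∈ I := by
  rw [← sum_homogeneousComponent a]
  exact Ideal.sum_mem _ fun d _ => h d

theorem mem_sup_span {I : Ideal (MvPolynomial ι ℂ)} {f a : MvPolynomial ι ℂ} :
    a ∈ I ⊔ Ideal.span {f} ↔ ∃ i ∈ I, ∃ b, a = i + f * b := by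
  rw [Submodule.mem_sup]
  constructor
  · rintro ⟨i, hi, z, hz, rfl⟩
    obtain ⟨b, rfl⟩ := Ideal.mem_span_singleton'.1 hz
    exact ⟨i, hi, b, by rw [mul_comm]⟩
  · rintro ⟨i, hi, b, rfl⟩
    exact ⟨i, hi, f * b, Ideal.mul_mem_right _ _ (Ideal.mem_span_singleton_self f), rfl⟩

theorem swap_one {I : Ideal (MvPolynomial ι ℂ)} (hI : HomI I) {f g : MvPolynomial ι ℂ} {d e : ℕ}
    (hd : 1 ≤ d) (hf : f.IsHomogeneous d) (hg : g.IsHomogeneous e)
    (h1 : ∀ a, f * a ∈ I → a ∈ I)
    (h2 : ∀ a, g * a ∈ I ⊔ Ideal.span {f} → a ∈ I ⊔ Ideal.span {f}) :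
    ∀ a, g * a ∈ I → a ∈ I := by
  have key : ∀ n : ℕ, ∀ a : MvPolynomial ι ℂ, a.IsHomogeneous n → g * a ∈ I → a ∈ I := by
    intro n
    induction n using Nat.strong_induction_on with
    | _ n ih =>
      intro a ha hga
      obtain ⟨i, hi, b, hab⟩ := mem_sup_span.1 (h2 a (Ideal.mem_sup_left hga))
      have h3 : a = homogeneousComponent n a := by
        rw [homogeneousComponent_of_mem ((mem_homogeneousSubmodule _ _).2 ha), if_pos rfl]
      rw [hab, map_add, ← hab] at h3
      by_cases hdn : d ≤ n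
      · rw [comp_mul_of_le hf b hdn] at h3
        have h4 : g * homogeneousComponent (n - d) b ∈ I := by
          apply h1
          have h5 : f * (g * homogeneousComponent (n - d) b) =
              g * a - g * homogeneousComponent n i := by
            conv_rhs => rw [h3]
            ring
          rw [h5]
          exact sub_mem hga (Ideal.mul_mem_left _ _ (hI i hi n))
        have h6 := ih (n - d) (by omega) _ (homogeneousComponent_isHomogeneous _ _) h4
        rw [h3]
        exact add_mem (hI i hi n) (Ideal.mul_mem_left _ _ h6)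
      · rw [comp_mul_of_lt hf b (by omega), add_zero] at h3
        rw [h3]
        exact hI i hi n
  intro a ha
  apply mem_of_comp
  intro n
  apply key n _ (homogeneousComponent_isHomogeneous _ _)
  have h7 := hI _ ha (n + e)
  rw [comp_mul_of_le hg a (by omega), Nat.add_sub_cancel] at h7
  exact h7

theorem swap_two {I : Ideal (MvPolynomial ι ℂ)} {f g : MvPolynomial ι ℂ}
    (h1 : ∀ a, f * a ∈ I → a ∈ I)
    (h2 : ∀ a, g * a ∈ I ⊔ Ideal.span {f} → a ∈ I ⊔ Ideal.span {f}) :
    ∀ a, f * a ∈ I ⊔ Ideal.span {g} → a ∈ I ⊔ Ideal.span {g} := by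
  intro a ha
  obtain ⟨i, hi, b, hab⟩ := mem_sup_span.1 ha
  have h3 : g * b ∈ I ⊔ Ideal.span {f} := by
    rw [mem_sup_span]
    exact ⟨-i, neg_mem hi, a, by rw [hab]; ring⟩
  obtain ⟨j, hj, c, hbc⟩ := mem_sup_span.1 (h2 b h3)
  have h4 : a - g * c ∈ I := by
    apply h1
    have : f * (a - g * c) = i + g * j := by
      rw [mul_sub, hab, hbc]; ring
    rw [this]
    exact add_mem hi (Ideal.mul_mem_left _ _ hj)
  rw [mem_sup_span]
  exact ⟨a - g * c, h4, c, by ring⟩

theorem RegL.perm {L L' : List (MvPolynomial ι ℂ)} (hp : L.Perm L') :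
    ∀ {I : Ideal (MvPolynomial ι ℂ)}, HomI I → Forms L → RegL I L → RegL I L' := by
  induction hp with
  | nil => intro I _ _ h; exact h
  | cons x hp ih =>
    intro I hI hL h
    obtain ⟨d, hd, hx⟩ := hL x (by simp)
    refine ⟨h.1, ih (homI_sup hI (homI_span (by
      intro f hf; rw [Set.mem_singleton_iff.1 hf]; exact ⟨d, hx⟩))) ?_ h.2⟩
    intro y hy
    exact hL y (by simp [hy])
  | swap x y l =>
    intro I hI hL h
    obtain ⟨d, hd, hx⟩ := hL x (by simp)
    obtain ⟨e, he, hy⟩ := hL y (by simp)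
    refine ⟨swap_one hI he hy hx h.1 h.2.1, swap_two h.1 h.2.1, ?_⟩
    have := h.2.2
    rw [sup_assoc, sup_comm (Ideal.span {y}), ← sup_assoc] at this
    exact this
  | trans h1 h2 ih1 ih2 =>
    intro I hI hL h
    exact ih2 hI (fun y hy => hL y (h1.mem_iff.2 hy)) (ih1 hI hL h)

theorem LS_nil : LS ([] : List (MvPolynomial ι ℂ)) = ⊥ := by simp [LS]

theorem LS_cons (h : MvPolynomial ι ℂ) (t : List (MvPolynomial ι ℂ)) :
    LS (h :: t) = Ideal.span {h} ⊔ LS t := by
  rw [LS, LS, ← Ideal.span_union]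
  congr 1
  ext f
  simp

theorem LS_append (L L' : List (MvPolynomial ι ℂ)) : LS (L ++ L') = LS L ⊔ LS L' := by
  rw [LS, LS, LS, ← Ideal.span_union]
  congr 1
  ext f
  simp

theorem LS_singleton (h : MvPolynomial ι ℂ) : LS [h] = Ideal.span {h} := by
  rw [LS_cons, LS_nil, sup_bot_eq]

theorem LS_perm {L L' : List (MvPolynomial ι ℂ)} (hp : L.Perm L') : LS L = LS L' := by
  rw [LS, LS]
  congr 1
  ext f
  exact hp.mem_iff

theorem mem_LS {L : List (MvPolynomial ι ℂ)} {f : MvPolynomial ι ℂ} (h : f ∈ L) : f ∈ LS L :=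
  Ideal.subset_span h

theorem regL_append {I : Ideal (MvPolynomial ι ℂ)} {L L' : List (MvPolynomial ι ℂ)} :
    RegL I (L ++ L') ↔ RegL I L ∧ RegL (I ⊔ LS L) L' := by
  induction L generalizing I with
  | nil => simp [RegL, LS_nil]
  | cons h t ih =>
    rw [List.cons_append, RegL, RegL, ih, LS_cons, ← sup_assoc]
    tauto

theorem regL_singleton {I : Ideal (MvPolynomial ι ℂ)} {h : MvPolynomial ι ℂ} :
    RegL I [h] ↔ ∀ a, h * a ∈ I → a ∈ I := by
  simp [RegL]

theorem regL_bot_append {L L' : List (MvPolynomial ι ℂ)} :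
    RegL ⊥ (L ++ L') ↔ RegL ⊥ L ∧ RegL (LS L) L' := by
  rw [regL_append, bot_sup_eq]

end H94.Deg
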