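import Pool.Agent.H94.Deg.Defs

/-!
# The intersection lemma: a subcone meets the locus given by few local equations
-/

open MvPolynomial

set_option linter.unusedSectionVars false
set_option linter.unusedSimpArgs false
set_option linter.unusedVariables false

namespace H94.Deg

open H89.Hart H94.Cubic

variable {ι : Type*} [Fintype ι] [DecidableEq ι]

/-- Let `x` be a point of the smooth cone `V(I)` of codimension `r` and `u b` homogeneous
polynomials vanishing at `x`.  A component `Q'` of `V(I) ∩ V(u)` through `x` meets every cone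
`V(Q)` of dimension `> r + card β` outside the vertex. -/
theorem two_cones {I : Ideal (MvPolynomial ι ℂ)} {r : ℕ} (hI : Smooth I r)
    {Q : Ideal (MvPolynomial ι ℂ)} (hQ : HP Q) {x : ι → ℂ} (hx : x ∈ cone I) (hx0 : x ≠ 0)
    {β : Type*} [Fintype β] (u : β → MvPolynomial ι ℂ)
    (hu : ∀ b, ∃ d, (u b).IsHomogeneous d) (hux : ∀ b, eval x (u b) = 0)
    (hdim : r + Fintype.card β < dm Q) :
    ∃ Q' : Ideal (MvPolynomial ι ℂ), Q'.IsPrime ∧ I ≤ Q' ∧ (∀ b, u b ∈ Q') ∧ x ∈ cone Q' ∧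
      ∃ z ∈ cone Q, z ≠ 0 ∧ z ∈ cone Q' := by
  obtain ⟨h, l, hhI, hhom, hli, hmat⟩ := exists_frame hI hx hx0
  obtain ⟨z₀, hz₀⟩ := exists_mem_cone hQ.prime
  have h0Q := zero_mem_of_homog hQ.homog hz₀
  obtain ⟨K, hK, hQK, hgK, hqK, hdK⟩ := comp_rel (ext_HP (κ := ι) hQ)
    (Sum.elim (fun i => rename Sum.inr (h i)) (fun b => rename Sum.inr (u b)) :
      Fin r ⊕ β → MvPolynomial (ι ⊕ ι) ℂ)
    (by
      rintro (i | b)
      · obtain ⟨e, he⟩ := hhom i
        exact ⟨e, he.rename_isHomogeneous⟩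
      · obtain ⟨e, he⟩ := hu b
        exact ⟨e, he.rename_isHomogeneous⟩)
    (q := Sum.elim 0 x)
    (by
      rw [mem_cone_ext]
      exact h0Q)
    (by
      rintro (i | b)
      · simp only [Sum.elim_inl, eval_rename, Sum.elim_comp_inr]
        exact hx _ (hhI i)
      · simp only [Sum.elim_inr, eval_rename, Sum.elim_comp_inr]
        exact hux b)
  rw [dm_ext hQ, Fintype.card_sum, Fintype.card_fin] at hdK
  let Q₂ : Ideal (MvPolynomial ι ℂ) :=
    K.comap (rename Sum.inr : MvPolynomial ι ℂ →ₐ[ℂ] MvPolynomial (ι ⊕ ι) ℂ)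
  have hKp := hK.prime
  have hQ₂ : Q₂.IsPrime := Ideal.comap_isPrime _ _
  have hc₂ : ∀ z ∈ cone K, (fun i => z (Sum.inr i)) ∈ cone Q₂ := by
    intro z hz f hf
    have := hz _ (Ideal.mem_comap.1 hf)
    rwa [eval_rename] at this
  have hxQ₂ : x ∈ cone Q₂ := by
    have h := hc₂ (Sum.elim 0 x) hqK
    simpa only [Sum.elim_inr] using h
  have hhQ₂ : ∀ i, h i ∈ Q₂ := fun i => hgK (Sum.inl i)
  have hIQ₂ : I ≤ Q₂ := le_of_local hI h hhI hx hx0 hli hQ₂ hhQ₂ hxQ₂
  obtain ⟨z, hz, hz0, hzl⟩ := ne_zero_of_dm hK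
    (fun i : ι => (X (Sum.inl i) - X (Sum.inr i) : MvPolynomial (ι ⊕ ι) ℂ)) (by simp)
    (by omega)
  have hzz : ∀ i, z (Sum.inl i) = z (Sum.inr i) := by
    intro i
    have := hzl i
    simpa [sub_eq_zero] using this
  have h2 : (fun i => z (Sum.inr i)) = fun i => z (Sum.inl i) := by
    funext i; exact (hzz i).symm
  refine ⟨Q₂, hQ₂, hIQ₂, fun b => hgK (Sum.inr b), hxQ₂, fun i => z (Sum.inl i), ?_, ?_, ?_⟩
  · have := cone_anti hQK hz
    rwa [mem_cone_ext] at this
  · intro h0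
    apply hz0
    funext s
    rcases s with i | i
    · exact congrFun h0 i
    · rw [← hzz]
      exact congrFun h0 i
  · rw [← h2]
    exact hc₂ z hz

end H94.Deg
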